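import Pool.Agent.Helper56.MW.A2

/-!
# Coding reals by ordinals, for an arbitrary coding of classes of subsets of `ω₁`

The same as the files `CodDefs`, `D1` to `D8` of `Helper56/MW`, with an arbitrary relation `R η x`
(the set `x` represents the class, modulo clubs, which is coded by the ordinal `η`).
-/

open FirstOrder FirstOrder.Language Ordinal Cardinal Set Helper23.Pcf

universe u v

namespace Pool.Agent.Helper97.FP

open Pool.Agent.Helper56.MW (aleph0_lt_cof_omega1 split_omega1 stat_iUnion)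

theorem congrClub {o : Ordinal.{u}} (ho : ℵ₀ < o.cof) {S S' C : Set Ordinal.{u}}
    (h : StatIn S o) (hC : ClubIn C o) (hs : ∀ x ∈ S, x ∈ C → x < o → x ∈ S') : StatIn S' o :=
  Pool.Agent.Helper56.MW.StatIn.congr_club ho h hC hs

variable (R : Ordinal.{u} → ZFSet.{u} → Prop)

/-- Two sets with the same code agree on a club. -/
def Agr : Prop :=
  ∀ η x y, R η x → R η y → ∃ C : Set Ordinal.{u}, ClubIn C (ω_ 1) ∧
    ∀ ξ ∈ C, ξ < ω_ 1 → (ξ.toZFSet ∈ x ↔ ξ.toZFSet ∈ y)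

/-- Every subset of `ω₁` has a code, up to a club. -/
def Univ : Prop :=
  ∀ A : Set Ordinal.{u}, ∃ (η : Ordinal.{u}) (x : ZFSet.{u}), R η x ∧
    ∀ ξ < ω_ 1, Order.IsSuccLimit ξ → (ξ.toZFSet ∈ x ↔ ξ ∈ A)

/-- The class coded by `η` is stationary. -/
def Ok (η : Ordinal.{u}) : Prop := ∃ x, R η x ∧ StatIn {ξ | ξ.toZFSet ∈ x} (ω_ 1)

/-- The classes of `η`, `η'` and the complement of the class of `η''` have stationary
intersection. -/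
def Meet (w η η' η'' : Ordinal.{u}) : Prop :=
  ∃ x x' x'' : ZFSet.{u}, R η x ∧ R η' x' ∧ R η'' x'' ∧
    StatIn {ξ | ξ.toZFSet ∈ x ∧ ξ.toZFSet ∈ x' ∧ ξ.toZFSet ∉ x''} w

/-- The class of `η'` is contained, modulo clubs, in the class of `η`; it is stationary and
so is the difference. -/
def Split (w η η' : Ordinal.{u}) : Prop :=
  ∃ x x' : ZFSet.{u}, R η x ∧ R η' x' ∧
    StatIn {ξ | ξ.toZFSet ∈ x ∧ ξ.toZFSet ∈ x'} w ∧
      StatIn {ξ | ξ.toZFSet ∈ x ∧ ξ.toZFSet ∉ x'} w ∧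
      ¬ StatIn {ξ | ξ.toZFSet ∉ x ∧ ξ.toZFSet ∈ x'} w

/-- `h` restricted to `o` is the canonical sequence starting with `η₀`. -/
def IsSeq (w o η₀ : Ordinal.{u}) (h : Ordinal.{u} → Ordinal.{u}) : Prop :=
  h 0 = η₀ ∧ ∀ n < o, ∀ m < o, m = n + 1 → Split R w (h n) (h m) ∧
    ∀ ν < h m, ¬ Split R w (h n) ν

/-- `η` codes the subset `x` of `ω`. -/
def Code (w o η₀ η : Ordinal.{u}) (x : ZFSet.{u}) : Prop :=
  ∃ h : Ordinal.{u} → Ordinal.{u}, IsSeq R w o η₀ h ∧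
    ∀ n < o, ∀ m < o, m = n + 1 → (n.toZFSet ∈ x ↔ Meet R w η (h n) (h m))

/-- The order of the least codes. -/
def Prec (w o η₀ : Ordinal.{u}) (x y : ZFSet.{u}) : Prop :=
  ∃ η, Code R w o η₀ η x ∧ ∀ η' ≤ η, ¬ Code R w o η₀ η' y

variable {R}

theorem exists_split (H : Univ R) {η : Ordinal.{u}} (h : Ok R η) :
    ∃ η', Split R (ω_ 1) η η' := by
  obtain ⟨x, hx, hst⟩ := h
  obtain ⟨T', hT', h1, h2⟩ := split_omega1 hst
  obtain ⟨η', x', hx', hA⟩ := H T'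
  have hlim := club_limits aleph0_lt_cof_omega1.{u}
  refine ⟨η', x, x', hx, hx', ?_, ?_, ?_⟩
  · exact congrClub aleph0_lt_cof_omega1 h1 hlim
      (fun z hz hz1 hz2 => ⟨hT' hz, (hA z hz2 hz1).2 hz⟩)
  · exact congrClub aleph0_lt_cof_omega1 h2 hlim
      (fun z hz hz1 hz2 => ⟨hz.1, fun h => hz.2 ((hA z hz2 hz1).1 h)⟩)
  · intro h3
    obtain ⟨z, h4, h5, h6⟩ := h3 _ hlim
    exact h4.1 (hT' ((hA z h6 h5).1 h4.2))

theorem Split.ok {η η' : Ordinal.{u}} (h : Split R (ω_ 1) η η') : Ok R η' := by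
  obtain ⟨x, x', _, hx', h1, _, _⟩ := h
  exact ⟨x', hx', h1.mono (fun ξ hξ => hξ.2)⟩

theorem exists_ok (H : Univ R) : ∃ η₀, Ok R η₀ := by
  obtain ⟨η, x, hx, hA⟩ := H Set.univ
  refine ⟨η, x, hx, ?_⟩
  have h0 : StatIn (Set.univ : Set Ordinal.{u}) (ω_ 1) := by
    intro C hC
    have h1 : (0 : Ordinal.{u}) < ω_ 1 := by
      have h2 : Order.IsSuccLimit (ω_ 1 : Ordinal.{u}) :=
        Ordinal.one_lt_cof_iff.1 (one_lt_aleph0.trans aleph0_lt_cof_omega1)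
      exact h2.bot_lt
    obtain ⟨y, h2, _, h3⟩ := hC.unb 0 h1
    exact ⟨y, Set.mem_univ _, h2, h3⟩
  exact congrClub aleph0_lt_cof_omega1 h0 (club_limits aleph0_lt_cof_omega1)
    (fun z _ hz1 hz2 => (hA z hz2 hz1).2 (Set.mem_univ _))

theorem exists_isSeq (H : Univ R) {η₀ : Ordinal.{u}} (h0 : Ok R η₀) :
    ∃ h, IsSeq R (ω_ 1) ω η₀ h ∧ ∀ n < ω, Ok R (h n) := by
  classical
  let g : ℕ → Ordinal.{u} := fun k =>
    Nat.rec η₀ (fun _ η => sInf {ν | Split R (ω_ 1) η ν}) k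
  have hg0 : g 0 = η₀ := rfl
  have hgs : ∀ k, g (k + 1) = sInf {ν | Split R (ω_ 1) (g k) ν} := fun _ => rfl
  have hstep : ∀ k, Ok R (g k) → Split R (ω_ 1) (g k) (g (k + 1)) := by
    intro k hk
    rw [hgs k]
    exact csInf_mem (exists_split H hk)
  have hok : ∀ k, Ok R (g k) := by
    intro k
    induction k with
    | zero => exact h0
    | succ k ih => exact (hstep k ih).ok
  let h : Ordinal.{u} → Ordinal.{u} := fun ξ =>
    if hξ : ∃ k : ℕ, (k : Ordinal.{u}) = ξ then g (Classical.choose hξ) else 0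
  have hh : ∀ k : ℕ, h (k : Ordinal.{u}) = g k := by
    intro k
    have hk : ∃ j : ℕ, (j : Ordinal.{u}) = (k : Ordinal.{u}) := ⟨k, rfl⟩
    have h1 : h (k : Ordinal.{u}) = g (Classical.choose hk) := dif_pos hk
    have h2 : Classical.choose hk = k := Nat.cast_injective (Classical.choose_spec hk)
    rw [h1, h2]
  refine ⟨h, ⟨?_, ?_⟩, ?_⟩
  · have := hh 0
    rw [Nat.cast_zero] at this
    rw [this, hg0]
  · intro n hn m _ hnm
    obtain ⟨k, rfl⟩ := Ordinal.lt_omega0.1 hn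
    have h1 : m = ((k + 1 : ℕ) : Ordinal.{u}) := by
      rw [hnm]
      push_cast
      rfl
    rw [h1, hh, hh]
    refine ⟨hstep k (hok k), ?_⟩
    intro ν hν hs
    rw [hgs k] at hν
    exact absurd (csInf_le' (show ν ∈ {ν | Split R (ω_ 1) (g k) ν} from hs)) (not_le.2 hν)
  · intro n hn
    obtain ⟨k, rfl⟩ := Ordinal.lt_omega0.1 hn
    rw [hh]
    exact hok k

theorem IsSeq.unique {w η₀ : Ordinal.{u}} {h h' : Ordinal.{u} → Ordinal.{u}}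
    (h1 : IsSeq R w ω η₀ h) (h2 : IsSeq R w ω η₀ h') : ∀ n < ω, h n = h' n := by
  intro n hn
  obtain ⟨k, rfl⟩ := Ordinal.lt_omega0.1 hn
  clear hn
  induction k with
  | zero =>
    rw [Nat.cast_zero, h1.1, h2.1]
  | succ k ih =>
    have e : ((k + 1 : ℕ) : Ordinal.{u}) = (k : Ordinal.{u}) + 1 := by
      push_cast
      rfl
    obtain ⟨a1, a2⟩ := h1.2 k (Ordinal.natCast_lt_omega0 k) _ (Ordinal.natCast_lt_omega0 (k + 1)) e
    obtain ⟨b1, b2⟩ := h2.2 k (Ordinal.natCast_lt_omega0 k) _ (Ordinal.natCast_lt_omega0 (k + 1)) e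
    rw [ih] at a1 a2
    rcases lt_trichotomy (h ((k + 1 : ℕ) : Ordinal.{u})) (h' ((k + 1 : ℕ) : Ordinal.{u})) with
      h3 | h3 | h3
    · exact absurd a1 (b2 _ h3)
    · exact h3
    · exact absurd b1 (a2 _ h3)

theorem code_unique {w η₀ η : Ordinal.{u}} {x y : ZFSet.{u}}
    (hx : x ⊆ (ω : Ordinal.{u}).toZFSet) (hy : y ⊆ (ω : Ordinal.{u}).toZFSet)
    (h1 : Code R w ω η₀ η x) (h2 : Code R w ω η₀ η y) : x = y := by
  obtain ⟨h, hs, hc⟩ := h1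
  obtain ⟨h', hs', hc'⟩ := h2
  have key : ∀ n < (ω : Ordinal.{u}), (n.toZFSet ∈ x ↔ n.toZFSet ∈ y) := by
    intro n hn
    have hn1 : n + 1 < (ω : Ordinal.{u}) := by
      obtain ⟨k, rfl⟩ := Ordinal.lt_omega0.1 hn
      have := Ordinal.natCast_lt_omega0.{u} (k + 1)
      push_cast at this
      exact this
    rw [hc n hn _ hn1 rfl, hc' n hn _ hn1 rfl, hs.unique hs' n hn, hs.unique hs' _ hn1]
  ext z
  constructor
  · intro hz
    obtain ⟨n, hn, rfl⟩ := mem_toZFSet_iff.1 (hx hz)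
    exact (key n hn).1 hz
  · intro hz
    obtain ⟨n, hn, rfl⟩ := mem_toZFSet_iff.1 (hy hz)
    exact (key n hn).2 hz

theorem trace_mono (hR : Agr R) {η₀ : Ordinal.{u}} {h : Ordinal.{u} → Ordinal.{u}}
    (h1 : IsSeq R (ω_ 1) ω η₀ h) {m n : ℕ} (hmn : m ≤ n)
    {f g : ZFSet.{u}} (hf : R (h m) f) (hg : R (h n) g) :
    ¬ StatIn {ξ : Ordinal.{u} | ξ.toZFSet ∈ g ∧ ξ.toZFSet ∉ f} (ω_ 1) := by
  induction n, hmn using Nat.le_induction generalizing g with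
  | base =>
    intro hst
    obtain ⟨C, hC, hCfg⟩ := hR _ _ _ hf hg
    obtain ⟨ξ, h2, h3, h4⟩ := hst C hC
    exact h2.2 ((hCfg ξ h3 h4).2 h2.1)
  | succ n hmn ih =>
    intro hst
    obtain ⟨f₁, f₂, hf₁, hf₂, -, -, h5⟩ := (h1.2 (n : Ordinal.{u}) (Ordinal.natCast_lt_omega0 n)
      ((n + 1 : ℕ) : Ordinal.{u}) (Ordinal.natCast_lt_omega0 (n + 1)) (Nat.cast_succ n)).1
    obtain ⟨C, hC, hCfg⟩ := hR _ _ _ hg hf₂
    have hun : StatIn ({ξ : Ordinal.{u} | ξ.toZFSet ∉ f₁ ∧ ξ.toZFSet ∈ f₂} ∪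
        {ξ | ξ.toZFSet ∈ f₁ ∧ ξ.toZFSet ∉ f}) (ω_ 1) := by
      refine congrClub aleph0_lt_cof_omega1 hst hC fun ξ h2 h3 h4 => ?_
      by_cases h6 : ξ.toZFSet ∈ f₁
      · exact Or.inr ⟨h6, h2.2⟩
      · exact Or.inl ⟨h6, (hCfg ξ h3 h4).1 h2.1⟩
    rcases StatIn.union aleph0_lt_cof_omega1 hun with h | h
    · exact h5 h
    · exact ih hf₁ h

private theorem D7_disj (hR : Agr R) {η₀ : Ordinal.{u}} {h : Ordinal.{u} → Ordinal.{u}}
    (hseq : IsSeq R (ω_ 1) ω η₀ h)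
    (f : ℕ → ZFSet.{u}) (hf : ∀ n : ℕ, R (h n) (f n))
    {m n : ℕ} (hmn : m < n) :
    ¬ StatIn ({ξ : Ordinal.{u} | ξ.toZFSet ∈ f m ∧ ξ.toZFSet ∉ f (m + 1)} ∩
      {ξ | ξ.toZFSet ∈ f n ∧ ξ.toZFSet ∉ f (n + 1)}) (ω_ 1) := by
  intro hst
  refine trace_mono hR hseq (m := m + 1) (n := n) hmn (hf (m + 1)) (hf n) (hst.mono ?_)
  intro ξ hξ
  exact ⟨hξ.2.1, hξ.1.2⟩

theorem exists_code (hR : Agr R) (H : Univ R) {η₀ : Ordinal.{u}} (h0 : Ok R η₀) (x : ZFSet.{u}) :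
    ∃ η, Code R (ω_ 1) ω η₀ η x := by
  classical
  obtain ⟨h, hseq, hok⟩ := exists_isSeq H h0
  have hnat : ∀ n : ℕ, (n : Ordinal.{u}) < ω := fun n => Ordinal.natCast_lt_omega0 n
  have hf0 : ∀ n : ℕ, ∃ f, R (h n) f := fun n => by
    obtain ⟨f, h1, -⟩ := hok n (hnat n)
    exact ⟨f, h1⟩
  choose f hf using hf0
  have hsucc : ∀ k : ℕ, ((k + 1 : ℕ) : Ordinal.{u}) = (k : Ordinal.{u}) + 1 := fun k => by
    push_cast
    rfl
  -- the blocks are stationary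
  have hB : ∀ k : ℕ, StatIn {ξ : Ordinal.{u} | ξ.toZFSet ∈ f k ∧ ξ.toZFSet ∉ f (k + 1)}
      (ω_ 1) := by
    intro k
    obtain ⟨g, g', hg, hg', -, h2, -⟩ :=
      (hseq.2 k (hnat k) (k + 1 : ℕ) (hnat (k + 1)) (hsucc k)).1
    obtain ⟨C, hC, hCg⟩ := hR _ _ _ hg (hf k)
    obtain ⟨C', hC', hCg'⟩ := hR _ _ _ hg' (hf (k + 1))
    refine congrClub aleph0_lt_cof_omega1 h2 (club_inter aleph0_lt_cof_omega1 hC hC') ?_
    intro ξ hξ hξC hξo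
    exact ⟨(hCg ξ hξC.1 hξo).1 hξ.1, fun h3 => hξ.2 ((hCg' ξ hξC.2 hξo).2 h3)⟩
  obtain ⟨η, F, hF, hFA⟩ := H {ξ | ∃ n : ℕ, (n : Ordinal.{u}).toZFSet ∈ x ∧
    ξ ∈ {ξ : Ordinal.{u} | ξ.toZFSet ∈ f n ∧ ξ.toZFSet ∉ f (n + 1)}}
  have hlimits := club_limits (aleph0_lt_cof_omega1.{u})
  refine ⟨η, h, hseq, ?_⟩
  intro n hn m _ hmn
  obtain ⟨k, rfl⟩ := Ordinal.lt_omega0.1 hn
  subst hmn
  rw [← hsucc k]
  constructor
  · intro hk
    refine ⟨F, f k, f (k + 1), hF, hf k, hf (k + 1), ?_⟩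
    refine congrClub aleph0_lt_cof_omega1 (hB k) hlimits ?_
    intro ξ hξ hξl hξo
    exact ⟨(hFA ξ hξo hξl).2 ⟨k, hk, hξ⟩, hξ⟩
  · rintro ⟨g, g', g'', hg, hg', hg'', hst⟩
    by_contra hk
    obtain ⟨C, hC, hCg⟩ := hR _ _ _ hg hF
    obtain ⟨C', hC', hCg'⟩ := hR _ _ _ hg' (hf k)
    obtain ⟨C'', hC'', hCg''⟩ := hR _ _ _ hg'' (hf (k + 1))
    have hclub := club_inter aleph0_lt_cof_omega1 hlimits
      (club_inter aleph0_lt_cof_omega1 hC (club_inter aleph0_lt_cof_omega1 hC' hC''))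
    have hst2 : StatIn (⋃ j : ULift.{u} ℕ, {ξ : Ordinal.{u} |
        (j.down : Ordinal.{u}).toZFSet ∈ x ∧
        ξ ∈ {ξ : Ordinal.{u} | ξ.toZFSet ∈ f j.down ∧ ξ.toZFSet ∉ f (j.down + 1)} ∩
          {ξ | ξ.toZFSet ∈ f k ∧ ξ.toZFSet ∉ f (k + 1)}}) (ω_ 1) := by
      refine congrClub aleph0_lt_cof_omega1 hst hclub ?_
      rintro ξ ⟨h1, h2, h3⟩ ⟨hl, hc, hc', hc''⟩ hξo
      have h1' := (hCg ξ hc hξo).1 h1
      have h2' := (hCg' ξ hc' hξo).1 h2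
      have h3' : ξ.toZFSet ∉ f (k + 1) := fun h4 => h3 ((hCg'' ξ hc'' hξo).2 h4)
      obtain ⟨j, hj, hjB⟩ := (hFA ξ hξo hl).1 h1'
      exact Set.mem_iUnion.2 ⟨ULift.up j, hj, hjB, h2', h3'⟩
    have hI : #(ULift.{u} ℕ) < (ω_ 1 : Ordinal.{u}).cof := by
      rw [Cardinal.mk_uLift, Cardinal.mk_nat, Cardinal.lift_aleph0]
      exact aleph0_lt_cof_omega1
    obtain ⟨⟨j⟩, hj⟩ := stat_iUnion aleph0_lt_cof_omega1 hI _ hst2
    have hjx : (j : Ordinal.{u}).toZFSet ∈ x := by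
      obtain ⟨ξ, hξ, -⟩ := hj _ hlimits
      exact hξ.1
    have hj2 : StatIn ({ξ : Ordinal.{u} | ξ.toZFSet ∈ f j ∧ ξ.toZFSet ∉ f (j + 1)} ∩
        {ξ | ξ.toZFSet ∈ f k ∧ ξ.toZFSet ∉ f (k + 1)}) (ω_ 1) := hj.mono fun ξ hξ => hξ.2
    rcases lt_trichotomy j k with hjk | rfl | hjk
    · exact D7_disj hR hseq f hf hjk hj2
    · exact hk hjx
    · refine D7_disj hR hseq f hf hjk (hj2.mono ?_)
      rintro ξ ⟨h1, h2⟩
      exact ⟨h2, h1⟩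

theorem prec_wo (hR : Agr R) (H : Univ R) {η₀ : Ordinal.{u}} (h0 : Ok R η₀) :
    IsWellOrder {x : ZFSet.{u} // x ⊆ (ω : Ordinal.{u}).toZFSet}
      (fun x y => Prec R (ω_ 1) ω η₀ x y) := by
  have hmem : ∀ x : ZFSet.{u}, Code R (ω_ 1) ω η₀ (sInf {η | Code R (ω_ 1) ω η₀ η x}) x :=
    fun x => csInf_mem (s := {η | Code R (ω_ 1) ω η₀ η x}) (exists_code hR H h0 x)
  have hmin : ∀ (x : ZFSet.{u}) (η : Ordinal.{u}), Code R (ω_ 1) ω η₀ η x →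
      sInf {η | Code R (ω_ 1) ω η₀ η x} ≤ η := fun x η h => csInf_le' h
  let c : {x : ZFSet.{u} // x ⊆ (ω : Ordinal.{u}).toZFSet} → Ordinal.{u} :=
    fun x => sInf {η | Code R (ω_ 1) ω η₀ η x}
  have hinj : Function.Injective c := by
    intro x y hxy
    apply Subtype.ext
    have h1 : Code R (ω_ 1) ω η₀ (c x) x := hmem x
    have h2 : Code R (ω_ 1) ω η₀ (c x) y := by
      rw [hxy]
      exact hmem y
    exact code_unique x.2 y.2 h1 h2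
  have hrel : ∀ x y : {x : ZFSet.{u} // x ⊆ (ω : Ordinal.{u}).toZFSet},
      c x < c y ↔ Prec R (ω_ 1) ω η₀ x y := by
    intro x y
    constructor
    · intro h
      refine ⟨c x, hmem x, fun η' hη' hc => ?_⟩
      exact absurd (hmin y η' hc) (not_le.2 (lt_of_le_of_lt hη' h))
    · rintro ⟨η, hη, hno⟩
      by_contra hcon
      exact hno (c y) ((not_lt.1 hcon).trans (hmin x η hη)) (hmem y)
  let e : (fun x y : {x : ZFSet.{u} // x ⊆ (ω : Ordinal.{u}).toZFSet} =>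
      Prec R (ω_ 1) ω η₀ x y) ↪r ((· < ·) : Ordinal.{u} → Ordinal.{u} → Prop) :=
    ⟨⟨c, hinj⟩, fun {x y} => hrel x y⟩
  exact e.isWellOrder

end Pool.Agent.Helper97.FP
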