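import Pool.Agent.Helper97.FP.Fo
import Pool.Agent.Helper97.FP.Cod
import Pool.Agent.Helper56.MW.E1
import Pool.Agent.Helper56.MW.F5
import Pool.Agent.Helper56.MW.E9
import Pool.Agent.Helper56.MW.F11
import Pool.Agent.Helper56.MW.G1
import Pool.Agent.Helper56.MW.Main

/-!
# The coding relation given by a projectively stationary predicate
-/

open FirstOrder FirstOrder.Language Ordinal Cardinal Set Helper23.Pcf

universe u v

namespace Pool.Agent.Helper97.FP

open Pool.Agent.Helper56.MW (aleph0_lt_cof_omega1 MM exists_set)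

private theorem Rt_card (x : Ordinal.{u}) (hx : x < ω_ 1) : x.card < (ω_ 1 : Ordinal.{u}).cof := by
  rw [← Cardinal.ord_aleph] at hx ⊢
  rw [Cardinal.isRegular_aleph_one.cof_ord]
  exact Cardinal.lt_ord.1 hx

private theorem Rt_seg (a : Ordinal.{u}) (ha : a < ω_ 1) :
    ClubIn {δ : Ordinal.{u} | a < δ} (ω_ 1) := by
  have hlim : Order.IsSuccLimit (ω_ 1 : Ordinal.{u}) :=
    Ordinal.one_lt_cof_iff.1 (one_lt_aleph0.trans aleph0_lt_cof_omega1)
  refine ⟨fun x hx => ⟨Order.succ (max a x), ?_, ?_, hlim.succ_lt (max_lt ha hx)⟩, ?_⟩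
  · exact lt_of_le_of_lt (le_max_left a x) (Order.lt_succ (max a x))
  · exact lt_of_le_of_lt (le_max_right a x) (Order.lt_succ (max a x))
  · intro δ _ hδ0 hu
    obtain ⟨y, hy, _, hy2⟩ := hu 0 hδ0
    exact lt_trans hy hy2

private theorem Rt_sub {η : Ordinal.{u}} {g g' : Ordinal.{u} → Ordinal.{u}}
    (h : Enum (ω_ 1) η g) (h' : Enum (ω_ 1) η g') : ∃ C, ClubIn C (ω_ 1) ∧
      ∀ δ ∈ C, δ < ω_ 1 → g '' Iio δ ⊆ g' '' Iio δ := by
  have ha : ∀ ξ, ∃ a, ξ < ω_ 1 → a < ω_ 1 ∧ g' a = g ξ := by
    intro ξ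
    by_cases hξ : ξ < ω_ 1
    · obtain ⟨a, h1, h2⟩ := h'.2 (g ξ) (h.1 ξ hξ)
      exact ⟨a, fun _ => ⟨h1, h2⟩⟩
    · exact ⟨0, fun h => absurd h hξ⟩
  choose a ha using ha
  refine ⟨_, club_diag aleph0_lt_cof_omega1 Rt_card (fun ξ => {δ : Ordinal.{u} | a ξ < δ})
    (fun ξ hξ => Rt_seg (a ξ) (ha ξ hξ).1), ?_⟩
  rintro δ hδ hδ1 _ ⟨ξ, hξ, rfl⟩
  exact ⟨a ξ, hδ ξ hξ, (ha ξ (lt_trans hξ hδ1)).2⟩

/-- Two enumerations of an ordinal have the same initial images on a club. -/
theorem enum_agree {η : Ordinal.{u}} {g g' : Ordinal.{u} → Ordinal.{u}}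
    (h : Enum (ω_ 1) η g) (h' : Enum (ω_ 1) η g') : ∃ C, ClubIn C (ω_ 1) ∧
      ∀ δ ∈ C, δ < ω_ 1 → g '' Iio δ = g' '' Iio δ := by
  obtain ⟨C, hC, h1⟩ := Rt_sub h h'
  obtain ⟨C', hC', h2⟩ := Rt_sub h' h
  exact ⟨_, club_inter aleph0_lt_cof_omega1 hC hC', fun δ hδ hδ1 =>
    (h1 δ hδ.1 hδ1).antisymm (h2 δ hδ.2 hδ1)⟩

theorem agr_Rt (T : Set Ordinal.{u} → Prop) : Agr (Rt (ω_ 1) T) := by
  rintro η x y ⟨g, hg, hx⟩ ⟨g', hg', hy⟩
  obtain ⟨C, hC, h1⟩ := enum_agree hg hg'
  refine ⟨C, hC, fun ξ hξ hξ1 => ?_⟩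
  rw [hx ξ hξ1, hy ξ hξ1, h1 ξ hξ hξ1]

theorem univ_Rt (h : MM.{u}) {T : Set Ordinal.{u} → Prop} (hT : PStat T)
    (hT' : PStat fun N => ¬ T N) : Univ (Rt (ω_ 1) T) := by
  intro A
  obtain ⟨η, g, hg, hA⟩ := exists_coded h hT hT' A
  obtain ⟨x, hx⟩ := exists_set {ξ | T (g '' Iio ξ)} (ω_ 1 : Ordinal.{u})
  refine ⟨η, x, ⟨g, hg, fun ξ hξ => ?_⟩, fun ξ hξ hl => ?_⟩
  · rw [hx ξ]
    exact ⟨fun h => h.2, fun h => ⟨hξ, h⟩⟩
  · rw [hx ξ, ← hA ξ hξ hl]
    exact ⟨fun h => h.2, fun h => ⟨hξ, h⟩⟩

end Pool.Agent.Helper97.FP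

/-!
# Definability of the coding
-/

namespace Pool.Agent.Helper97.FP

open Pool.Agent.Helper56.MW (MM OrdDef HasDefWO Df val exists_val ordDef_of_df statIn_congr
  hasDefWO_iff_many)
open Pool.Agent.Helper56.MW.Df (exO allO exS allS memO ltO leO eqO zeroO succO valEq compVal statIn
  exF subOmegaS relabel)

section

variable {κ α β : Type} {R : (κ → Ordinal.{u}) → ZFSet.{u} → Ordinal.{u} → ZFSet.{u} → Prop}

theorem df_rel (hR : Df (α := Option κ) (β := Bool)
      (fun a s => R (fun i => a (some i)) (s false) (a none) (s true)))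
    (ι : κ → α) (p : β) (η : α) (x : β) :
    Df (fun (a : α → Ordinal.{u}) (s : β → ZFSet.{u}) =>
      R (fun i => a (ι i)) (s p) (a η) (s x)) :=
  relabel (α := α) (β := β) (fun o => match o with
    | none => η
    | some i => ι i) (fun b => match b with
    | false => p
    | true => x) hR

theorem df_meet (hR : Df (α := Option κ) (β := Bool)
      (fun a s => R (fun i => a (some i)) (s false) (a none) (s true)))
    (ι : κ → α) (p : β) (w η η' η'' : α) :
    Df (fun (a : α → Ordinal.{u}) (s : β → ZFSet.{u}) =>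
      Meet (R (fun i => a (ι i)) (s p)) (a w) (a η) (a η') (a η'')) := by
  refine exS (P := fun x a s => ∃ x' x'' : ZFSet.{u}, R (fun i => a (ι i)) (s p) (a η) x ∧
    R (fun i => a (ι i)) (s p) (a η') x' ∧ R (fun i => a (ι i)) (s p) (a η'') x'' ∧
      StatIn {ξ : Ordinal.{u} | ξ.toZFSet ∈ x ∧ ξ.toZFSet ∈ x' ∧ ξ.toZFSet ∉ x''} (a w)) ?_
  refine exS (P := fun x' a s => ∃ x'' : ZFSet.{u},
    R (fun i => a (ι i)) (s (some p)) (a η) (s none) ∧
    R (fun i => a (ι i)) (s (some p)) (a η') x' ∧ R (fun i => a (ι i)) (s (some p)) (a η'') x'' ∧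
      StatIn {ξ : Ordinal.{u} | ξ.toZFSet ∈ s none ∧ ξ.toZFSet ∈ x' ∧ ξ.toZFSet ∉ x''} (a w)) ?_
  refine exS (P := fun x'' a s =>
    R (fun i => a (ι i)) (s (some (some p))) (a η) (s (some none)) ∧
    R (fun i => a (ι i)) (s (some (some p))) (a η') (s none) ∧
    R (fun i => a (ι i)) (s (some (some p))) (a η'') x'' ∧
      StatIn {ξ : Ordinal.{u} | ξ.toZFSet ∈ s (some none) ∧ ξ.toZFSet ∈ s none ∧
        ξ.toZFSet ∉ x''} (a w)) ?_
  exact (df_rel hR ι (some (some (some p))) η (some (some none))).and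
    ((df_rel hR ι (some (some (some p))) η' (some none)).and
    ((df_rel hR ι (some (some (some p))) η'' none).and
      (statIn (P := fun ξ _ s => ξ.toZFSet ∈ s (some (some none)) ∧ ξ.toZFSet ∈ s (some none) ∧
          ξ.toZFSet ∉ s none) w
        ((memO none (some (some none))).and ((memO none (some none)).and (memO none none).not)))))

theorem df_split (hR : Df (α := Option κ) (β := Bool)
      (fun a s => R (fun i => a (some i)) (s false) (a none) (s true)))
    (ι : κ → α) (p : β) (w η η' : α) :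
    Df (fun (a : α → Ordinal.{u}) (s : β → ZFSet.{u}) =>
      Split (R (fun i => a (ι i)) (s p)) (a w) (a η) (a η')) := by
  refine exS (P := fun x a s => ∃ x' : ZFSet.{u}, R (fun i => a (ι i)) (s p) (a η) x ∧
    R (fun i => a (ι i)) (s p) (a η') x' ∧
      StatIn {ξ : Ordinal.{u} | ξ.toZFSet ∈ x ∧ ξ.toZFSet ∈ x'} (a w) ∧
      StatIn {ξ : Ordinal.{u} | ξ.toZFSet ∈ x ∧ ξ.toZFSet ∉ x'} (a w) ∧
      ¬ StatIn {ξ : Ordinal.{u} | ξ.toZFSet ∉ x ∧ ξ.toZFSet ∈ x'} (a w)) ?_
  refine exS (P := fun x' a s => R (fun i => a (ι i)) (s (some p)) (a η) (s none) ∧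
    R (fun i => a (ι i)) (s (some p)) (a η') x' ∧
      StatIn {ξ : Ordinal.{u} | ξ.toZFSet ∈ s none ∧ ξ.toZFSet ∈ x'} (a w) ∧
      StatIn {ξ : Ordinal.{u} | ξ.toZFSet ∈ s none ∧ ξ.toZFSet ∉ x'} (a w) ∧
      ¬ StatIn {ξ : Ordinal.{u} | ξ.toZFSet ∉ s none ∧ ξ.toZFSet ∈ x'} (a w)) ?_
  have h1 : Df.{u} (α := Option α) (β := Option (Option β))
      (fun a s => (a none).toZFSet ∈ s (some none)) := memO none (some none)
  have h2 : Df.{u} (α := Option α) (β := Option (Option β))
      (fun a s => (a none).toZFSet ∈ s none) := memO none none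
  exact (df_rel hR ι (some (some p)) η (some none)).and
    ((df_rel hR ι (some (some p)) η' none).and
    ((statIn (P := fun ξ _ s => ξ.toZFSet ∈ s (some none) ∧ ξ.toZFSet ∈ s none) w
        (h1.and h2)).and
    ((statIn (P := fun ξ _ s => ξ.toZFSet ∈ s (some none) ∧ ξ.toZFSet ∉ s none) w
        (h1.and h2.not)).and
    (statIn (P := fun ξ _ s => ξ.toZFSet ∉ s (some none) ∧ ξ.toZFSet ∈ s none) w
        (h1.not.and h2)).not)))

theorem df_isSeq (hR : Df (α := Option κ) (β := Bool)
      (fun a s => R (fun i => a (some i)) (s false) (a none) (s true)))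
    (ι : κ → α) (p : β) (w o η₀ : α) (g : β) :
    Df (fun (a : α → Ordinal.{u}) (s : β → ZFSet.{u}) =>
      IsSeq (R (fun i => a (ι i)) (s p)) (a w) (a o) (a η₀) (val (s g))) := by
  have h1 : Df (fun (a : α → Ordinal.{u}) (s : β → ZFSet.{u}) => val (s g) 0 = a η₀) := by
    refine (exO (P := fun z a s => z = 0 ∧ val (s g) z = a η₀)
      ((zeroO none).and (valEq g none (some η₀)))).congr fun a s => ?_
    simp
  have h2 : Df (α := Option (Option α)) (fun (a : Option (Option α) → Ordinal.{u})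
      (s : β → ZFSet.{u}) => Split (R (fun i => a (some (some (ι i)))) (s p)) (a (some (some w)))
        (val (s g) (a (some none))) (val (s g) (a none))) :=
    compVal (P := fun x a s => Split (R (fun i => a (some (some (ι i)))) (s p)) (a (some (some w)))
      (val (s g) (a (some none))) x) g none
      (compVal (P := fun x a s => Split (R (fun i => a (some (some (some (ι i))))) (s p))
        (a (some (some (some w)))) x (a none)) g (some (some none))
        (df_split hR (fun i => some (some (some (some (ι i))))) p (some (some (some (some w))))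
          none (some none)))
  have h3 : Df (α := Option (Option α)) (fun (a : Option (Option α) → Ordinal.{u})
      (s : β → ZFSet.{u}) => ∀ ν < val (s g) (a none),
        ¬ Split (R (fun i => a (some (some (ι i)))) (s p)) (a (some (some w)))
          (val (s g) (a (some none))) ν) :=
    compVal (P := fun x a s => ∀ ν < x, ¬ Split (R (fun i => a (some (some (ι i)))) (s p))
      (a (some (some w))) (val (s g) (a (some none))) ν) g none
      (compVal (P := fun x a s => ∀ ν < a none, ¬ Split (R (fun i => a (some (some (some (ι i))))) (s p))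
        (a (some (some (some w)))) x ν) g (some (some none))
        (allO (P := fun ν a s => ν < a (some none) →
          ¬ Split (R (fun i => a (some (some (some (some (ι i)))))) (s p))
            (a (some (some (some (some w))))) (a none) ν)
          ((ltO none (some (some none))).imp
            (df_split hR (fun i => some (some (some (some (some (ι i)))))) p
              (some (some (some (some (some w))))) (some none) none).not)))
  exact h1.and (allO (P := fun n a s => n < a o → ∀ m < a o, m = n + 1 →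
      Split (R (fun i => a (ι i)) (s p)) (a w) (val (s g) n) (val (s g) m) ∧
        ∀ ν < val (s g) m, ¬ Split (R (fun i => a (ι i)) (s p)) (a w) (val (s g) n) ν)
    ((ltO none (some o)).imp (allO (P := fun m a s => m < a (some o) → m = a none + 1 →
      Split (R (fun i => a (some (ι i))) (s p)) (a (some w)) (val (s g) (a none)) (val (s g) m) ∧
        ∀ ν < val (s g) m, ¬ Split (R (fun i => a (some (ι i))) (s p)) (a (some w))
          (val (s g) (a none)) ν)
      ((ltO none (some (some o))).imp ((succO none (some none)).imp (h2.and h3))))))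

theorem df_code (hR : Df (α := Option κ) (β := Bool)
      (fun a s => R (fun i => a (some i)) (s false) (a none) (s true)))
    (ι : κ → α) (p : β) (w o η₀ η : α) (x : β) :
    Df (fun (a : α → Ordinal.{u}) (s : β → ZFSet.{u}) =>
      0 < a o ∧ Code (R (fun i => a (ι i)) (s p)) (a w) (a o) (a η₀) (a η) (s x)) := by
  have hm : Df (α := Option (Option α)) (β := Option β) (fun (a : Option (Option α) → Ordinal.{u})
      (s : Option β → ZFSet.{u}) => Meet (R (fun i => a (some (some (ι i)))) (s (some p))) (a (some (some w)))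
        (a (some (some η))) (val (s none) (a (some none))) (val (s none) (a none))) :=
    compVal (P := fun z a s => Meet (R (fun i => a (some (some (ι i)))) (s (some p))) (a (some (some w)))
      (a (some (some η))) (val (s none) (a (some none))) z) none none
      (compVal (P := fun z a s => Meet (R (fun i => a (some (some (some (ι i))))) (s (some p)))
        (a (some (some (some w)))) (a (some (some (some η)))) z (a none)) none (some (some none))
        (df_meet hR (fun i => some (some (some (some (ι i))))) (some p) (some (some (some (some w))))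
          (some (some (some (some η)))) none (some none)))
  have hpos : Df.{u} (α := α) (β := Option β) (fun a _ => 0 < a o) :=
    (zeroO o).not.congr fun a _ => pos_iff_ne_zero.symm
  have key : Df (α := α) (β := Option β) (fun (a : α → Ordinal.{u}) (s : Option β → ZFSet.{u}) =>
      0 < a o ∧ IsSeq (R (fun i => a (ι i)) (s (some p))) (a w) (a o) (a η₀) (val (s none)) ∧
        ∀ n < a o, ∀ m < a o, m = n + 1 → (n.toZFSet ∈ s (some x) ↔
          Meet (R (fun i => a (ι i)) (s (some p))) (a w) (a η) (val (s none) n) (val (s none) m))) := by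
    refine hpos.and ((df_isSeq hR ι (some p) w o η₀ none).and ?_)
    exact allO (P := fun n a s => n < a o → ∀ m < a o, m = n + 1 → (n.toZFSet ∈ s (some x) ↔
        Meet (R (fun i => a (ι i)) (s (some p))) (a w) (a η) (val (s none) n) (val (s none) m)))
      ((ltO none (some o)).imp (allO (P := fun m a s => m < a (some o) → m = a none + 1 →
        ((a none).toZFSet ∈ s (some x) ↔ Meet (R (fun i => a (some (ι i))) (s (some p))) (a (some w))
          (a (some η)) (val (s none) (a none)) (val (s none) m)))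
        ((ltO none (some (some o))).imp ((succO none (some none)).imp
          ((memO (some none) (some x)).iff hm)))))
  refine (exF (P := fun f a s => 0 < a o ∧ IsSeq (R (fun i => a (ι i)) (s p)) (a w) (a o) (a η₀) f ∧
    ∀ n < a o, ∀ m < a o, m = n + 1 → (n.toZFSet ∈ s x ↔
      Meet (R (fun i => a (ι i)) (s p)) (a w) (a η) (f n) (f m))) o ?_ key).congr fun a s => ?_
  · intro a s f f' hf
    refine and_congr_right fun h0 => and_congr ?_ ?_
    · refine and_congr (by rw [hf 0 h0]) ?_
      refine forall_congr' fun n => forall_congr' fun hn => forall_congr' fun m =>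
        forall_congr' fun hm => ?_
      rw [hf n hn, hf m hm]
    · refine forall_congr' fun n => forall_congr' fun hn => forall_congr' fun m =>
        forall_congr' fun hm => ?_
      rw [hf n hn, hf m hm]
  · constructor
    · rintro ⟨f, h0, h1, h2⟩
      exact ⟨h0, f, h1, h2⟩
    · rintro ⟨h0, f, h1, h2⟩
      exact ⟨f, h0, h1, h2⟩

theorem ordDef_param {α : Type} [Finite α] {Q : (α → Ordinal.{u}) → ZFSet.{u} → ZFSet.{u} → Prop}
    (hQ : Df (α := α) (β := Bool) (fun a s => Q a (s false) (s true))) (a : α → Ordinal.{u})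
    {A x : ZFSet.{u}} (h : ∀ y, Q a A y ↔ y = x) : OrdDef A x := by
  obtain ⟨φ, hφ⟩ := hQ
  let e := Finite.equivFin α
  refine ⟨Nat.card α, φ.relabel (Sum.map e (fun b => if b then (1 : Fin 2) else 0)),
    fun i => a (e.symm i), fun y => ?_⟩
  rw [Formula.realize_relabel, ← h y]
  refine Iff.trans (iff_of_eq (congrArg (fun v => φ.Realize v) ?_))
    (hφ a (fun b => if b then y else A))
  funext i
  rcases i with i | i
  · simp only [Function.comp_apply, Sum.map_inl, Sum.elim_inl, Equiv.symm_apply_apply]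
  · cases i <;> rfl

/-- If a relation which is definable from ordinals and the set `p` codes all subsets of `ω₁`, then
all subsets of `ω` are definable from ordinals and `p`. -/
theorem ordDef_of_univ [Finite κ] (hR : Df (α := Option κ) (β := Bool)
      (fun a s => R (fun i => a (some i)) (s false) (a none) (s true)))
    (c : κ → Ordinal.{u}) (p : ZFSet.{u}) (hA : Agr (R c p)) (hU : Univ (R c p)) {x : ZFSet.{u}}
    (hx : x ⊆ (ω : Ordinal.{u}).toZFSet) : OrdDef p x := by
  obtain ⟨η₀, h0⟩ := exists_ok hU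
  obtain ⟨η, hη⟩ := exists_code hA hU h0 x
  have hP : Df.{u} (α := κ ⊕ Fin 4) (β := Bool) (fun a s =>
      (0 < a (Sum.inr 1) ∧ Code (R (fun i => a (Sum.inl i)) (s false)) (a (Sum.inr 0))
        (a (Sum.inr 1)) (a (Sum.inr 2)) (a (Sum.inr 3)) (s true)) ∧
        s true ⊆ (ω : Ordinal.{u}).toZFSet) :=
    (df_code hR Sum.inl false (Sum.inr 0) (Sum.inr 1) (Sum.inr 2) (Sum.inr 3) true).and
      (subOmegaS true)
  refine ordDef_param (Q := fun a p x =>
      (0 < a (Sum.inr 1) ∧ Code (R (fun i => a (Sum.inl i)) p) (a (Sum.inr 0))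
        (a (Sum.inr 1)) (a (Sum.inr 2)) (a (Sum.inr 3)) x) ∧
        x ⊆ (ω : Ordinal.{u}).toZFSet) hP (Sum.elim c ![ω_ 1, ω, η₀, η]) fun y => ?_
  constructor
  · rintro ⟨⟨-, h1⟩, h2⟩
    exact code_unique h2 hx h1 hη
  · rintro rfl
    exact ⟨⟨Ordinal.omega0_pos, hη⟩, hx⟩

end

section

variable {κ α β : Type} {T : (κ → Ordinal.{u}) → ZFSet.{u} → Set Ordinal.{u} → Prop}

private theorem df_image (hT : Df (α := κ) (β := Bool)
      (fun a s => T a (s false) {ν | ν.toZFSet ∈ s true})) (ι : κ → α) (p : β) (ξ : α) (g : β) :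
    Df (fun (a : α → Ordinal.{u}) (s : β → ZFSet.{u}) =>
      T (fun i => a (ι i)) (s p) (val (s g) '' Iio (a ξ))) := by
  refine (exS (P := fun y a s => (∀ ν : Ordinal.{u}, ν.toZFSet ∈ y ↔
    ∃ ζ, ζ < a ξ ∧ val (s g) ζ = ν) ∧ T (fun i => a (ι i)) (s p) {ν | ν.toZFSet ∈ y})
    ((allO (P := fun ν a s => ν.toZFSet ∈ s none ↔ ∃ ζ, ζ < a ξ ∧ val (s (some g)) ζ = ν)
      ((memO none none).iff (exO (P := fun ζ a s => ζ < a (some ξ) ∧ val (s (some g)) ζ = a none)
        ((ltO none (some (some ξ))).and (valEq (some g) none (some none)))))).and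
      ((relabel (α := α) (β := Option β) ι (fun b => match b with
        | false => some p
        | true => none) hT).congr fun _ _ => Iff.rfl))).congr fun a s => ?_
  have key : ∀ y : ZFSet.{u}, (∀ ν : Ordinal.{u}, ν.toZFSet ∈ y ↔
      ∃ ζ, ζ < a ξ ∧ val (s g) ζ = ν) → {ν | ν.toZFSet ∈ y} = val (s g) '' Iio (a ξ) := by
    intro y hy
    ext ν
    exact hy ν
  constructor
  · rintro ⟨y, hy1, hy2⟩
    rw [← key y hy1]
    exact hy2
  · intro h
    have hy : ∀ ν : Ordinal.{u}, ν.toZFSet ∈ ZFSet.range (fun ζ : Iio (a ξ) =>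
        (val (s g) ζ).toZFSet) ↔ ∃ ζ, ζ < a ξ ∧ val (s g) ζ = ν := by
      intro ν
      rw [ZFSet.mem_range]
      constructor
      · rintro ⟨⟨ζ, hζ⟩, h1⟩
        exact ⟨ζ, hζ, toZFSet_injective h1⟩
      · rintro ⟨ζ, hζ, rfl⟩
        exact ⟨⟨ζ, hζ⟩, rfl⟩
    refine ⟨_, hy, ?_⟩
    rw [key _ hy]
    exact h

theorem df_Rt (hT : Df (α := κ) (β := Bool)
      (fun a s => T a (s false) {ν | ν.toZFSet ∈ s true})) (ι : κ → α) (p : β) (w η : α) (x : β) :
    Df (fun (a : α → Ordinal.{u}) (s : β → ZFSet.{u}) =>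
      Rt (a w) (T (fun i => a (ι i)) (s p)) (a η) (s x)) := by
  refine exF (P := fun f a s => Enum (a w) (a η) f ∧ ∀ ξ < a w, (ξ.toZFSet ∈ s x ↔
    T (fun i => a (ι i)) (s p) (f '' Iio ξ))) w ?_ ?_
  · intro a s f f' hf
    refine and_congr (and_congr ?_ ?_) ?_
    · refine forall_congr' fun ξ => forall_congr' fun hξ => ?_
      rw [hf ξ hξ]
    · refine forall_congr' fun ν => forall_congr' fun hν => ?_
      refine exists_congr fun ξ => and_congr_right fun hξ => ?_
      rw [hf ξ hξ]
    · refine forall_congr' fun ξ => forall_congr' fun hξ => ?_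
      have h1 : f '' Iio ξ = f' '' Iio ξ := Set.image_congr fun ζ hζ => hf ζ (lt_trans hζ hξ)
      rw [h1]
  · refine ((allO (P := fun ξ a s => ξ < a w → val (s none) ξ < a η)
      ((ltO none (some w)).imp (compVal (P := fun v a _ => v < a (some η)) none none
        (ltO none (some (some η)))))).and
      (allO (P := fun ν a s => ν < a η → ∃ ξ, ξ < a w ∧ val (s none) ξ = ν)
        ((ltO none (some η)).imp (exO (P := fun ξ a s => ξ < a (some w) ∧ val (s none) ξ = a none)
          ((ltO none (some (some w))).and (valEq none none (some none))))))).and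
      (allO (P := fun ξ a s => ξ < a w → (ξ.toZFSet ∈ s (some x) ↔
        T (fun i => a (ι i)) (s (some p)) (val (s none) '' Iio ξ)))
        ((ltO none (some w)).imp ((memO none (some x)).iff
          (df_image hT (fun i => some (ι i)) (some p) none none))))

end

/-- If all subsets of `ω` are ordinal definable, then there is a definable well-order. -/
theorem hasDefWO_of_ordDef (h : MM.{u})
    (H : ∀ x : ZFSet.{u}, x ⊆ (ω : Ordinal.{u}).toZFSet → OrdDef ∅ x) : HasDefWO.{u} := by
  refine (hasDefWO_iff_many h).2 ⟨ℵ_ 1, le_rfl, ?_⟩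
  have h1 := h.aleph2_le
  have h2 : #{x : ZFSet.{u} // x ⊆ (ω : Ordinal.{u}).toZFSet} ≤
      #{s : ZFSet.{u} // OrdDef ∅ s ∧ s ⊆ (ℵ_ 1 : Cardinal.{u}).ord.toZFSet} := by
    refine Cardinal.mk_subtype_mono fun x hx => ⟨H x hx, ?_⟩
    refine hx.trans ?_
    rw [toZFSet_subset_toZFSet_iff, Cardinal.ord_aleph]
    exact Ordinal.omega0_le_omega 1
  refine lt_of_lt_of_le ?_ (h1.trans h2)
  exact Cardinal.lift_lt.2 (Cardinal.aleph_lt_aleph.2 (by norm_num))

/-- If a predicate which is definable from ordinals and the set `p` and its complement are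
projectively stationary, then all subsets of `ω` are definable from ordinals and `p`. -/
theorem ordDef_of_pstat (h : MM.{u}) {κ : Type} [Finite κ]
    {T : (κ → Ordinal.{u}) → ZFSet.{u} → Set Ordinal.{u} → Prop}
    (hT : Df (α := κ) (β := Bool) (fun a s => T a (s false) {ν | ν.toZFSet ∈ s true}))
    (c : κ → Ordinal.{u}) (p : ZFSet.{u}) (h1 : PStat (T c p)) (h2 : PStat fun N => ¬ T c p N)
    {x : ZFSet.{u}} (hx : x ⊆ (ω : Ordinal.{u}).toZFSet) : OrdDef p x := by
  let R : (Option κ → Ordinal.{u}) → ZFSet.{u} → Ordinal.{u} → ZFSet.{u} → Prop := fun c p η x =>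
    Rt (c none) (T (fun i => c (some i)) p) η x
  have hR : Df (α := Option (Option κ)) (β := Bool)
      (fun a s => R (fun i => a (some i)) (s false) (a none) (s true)) :=
    df_Rt hT (fun i => some (some i)) false (some none) none true
  exact ordDef_of_univ hR (fun o => match o with
    | none => ω_ 1
    | some i => c i) p (agr_Rt _) (univ_Rt h h1 h2) hx

/-- A definable projectively stationary predicate with projectively stationary complement gives a
definable well-order of the reals. -/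
theorem hasDefWO_of_pstat (h : MM.{u}) {κ : Type} [Finite κ]
    {T : (κ → Ordinal.{u}) → Set Ordinal.{u} → Prop}
    (hT : Df (α := κ) (β := Unit) (fun a s => T a {ν | ν.toZFSet ∈ s ()}))
    (c : κ → Ordinal.{u}) (h1 : PStat (T c)) (h2 : PStat fun N => ¬ T c N) : HasDefWO.{u} :=
  hasDefWO_of_ordDef h fun _ hx => ordDef_of_pstat h (T := fun c _ N => T c N)
    (relabel (α := κ) (β := Bool) id (fun _ => true) hT) c ∅ h1 h2 hx

end Pool.Agent.Helper97.FP
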