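import Pool.Agent.Helper97.FP.Co
import Pool.Agent.Helper56.MW.LB
import Pool.Agent.Helper56.MW.H10
import Pool.Agent.Helper97.FP.Dm
import Pool.Agent.Helper56.MW.LC

/-!
# Small ordinal definable sets: the enumeration, and countable sets coded by reals
-/

open FirstOrder FirstOrder.Language Ordinal Cardinal Set Helper23.Pcf

universe u v

namespace Pool.Agent.Helper97.FP

open Pool.Agent.Helper56.MW (LSet MM OrdDef DefBy LexLt Rk Pr defBy_wo_gen exists_rk exists_pr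
  H6_countable)

/-- `Z` is the image of a subset of `w`. -/
def Sm (w : Ordinal.{u}) (Z : ZFSet.{u}) : Prop :=
  ∃ g : ZFSet.{u}, ∀ y, y ∈ Z → ∃ ξ, ξ < w ∧ ∀ y', ZFSet.pair ξ.toZFSet y' ∈ g ↔ y' = y

theorem sm_of_card {w : Ordinal.{u}} {Z : ZFSet.{u}} (h : Z.card ≤ w.card) : Sm w Z := by
  have h1 : #Z ≤ #(Iio w) := by
    rw [ZFSet.cardinalMk_coe_sort, Cardinal.mk_Iio_ordinal, Cardinal.lift_le]
    exact h
  obtain ⟨i⟩ := (Cardinal.le_def _ _).1 h1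
  refine ⟨ZFSet.range (fun y : Z => ZFSet.pair (i y).1.toZFSet y.1), fun y hy =>
    ⟨(i ⟨y, hy⟩).1, (i ⟨y, hy⟩).2, fun y' => ?_⟩⟩
  rw [ZFSet.mem_range]
  constructor
  · rintro ⟨z, hz⟩
    obtain ⟨h2, h3⟩ := ZFSet.pair_injective hz
    have h4 : i z = i ⟨y, hy⟩ := Subtype.ext (toZFSet_injective h2)
    have h5 : z = ⟨y, hy⟩ := i.injective h4
    rw [← h3, h5]
  · rintro rfl
    exact ⟨⟨y', hy⟩, rfl⟩

theorem Sm.exists_fun {w : Ordinal.{u}} {Z : ZFSet.{u}} (h : Sm w Z) :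
    ∃ f : Ordinal.{u} → ZFSet.{u}, ∀ y ∈ Z, ∃ ξ < w, f ξ = y := by
  classical
  obtain ⟨g, hg⟩ := h
  refine ⟨fun ξ => if h : ∃ y, ∀ y', ZFSet.pair ξ.toZFSet y' ∈ g ↔ y' = y then
    Classical.choose h else ∅, fun y hy => ?_⟩
  obtain ⟨ξ, hξ, h1⟩ := hg y hy
  have h2 : ∃ y, ∀ y', ZFSet.pair ξ.toZFSet y' ∈ g ↔ y' = y := ⟨y, h1⟩
  refine ⟨ξ, hξ, ?_⟩
  simp only [dif_pos h2]
  exact ((Classical.choose_spec h2 y).1 ((h1 y).2 rfl)).symm

/-- The ordinals in `c`. -/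
def os (c : ZFSet.{u}) : Set Ordinal.{u} := {ν | ν.toZFSet ∈ c}

theorem Sm.countable {c : ZFSet.{u}} (h : Sm ω c) : (os c).Countable := by
  obtain ⟨f, hf⟩ := h.exists_fun
  have h1 : ∀ ν : os c, ∃ k : ℕ, f k = ν.1.toZFSet := by
    rintro ⟨ν, hν⟩
    obtain ⟨ξ, hξ, h2⟩ := hf ν.toZFSet hν
    obtain ⟨k, rfl⟩ := Ordinal.lt_omega0.1 hξ
    exact ⟨k, h2⟩
  choose k hk using h1
  refine (Set.countable_coe_iff (s := os c)).1 (Function.Injective.countable (f := k) ?_)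
  intro ν ν' h2
  have h3 := hk ν
  rw [h2, hk ν'] at h3
  exact Subtype.ext (toZFSet_injective h3.symm)

section

variable {n : ℕ} (w o : Ordinal.{u}) (φ : LSet.Formula (Fin n ⊕ Fin 2))

/-- The order of the least codes. -/
def Wo (Z Z' : ZFSet.{u}) : Prop :=
  ∃ b, DefBy φ b Z ∧ ∀ c, DefBy φ c Z' → LexLt b c

/-- `Z` is small and defined by `φ`. -/
def Ad (Z : ZFSet.{u}) : Prop := Sm w Z ∧ ∃ b, DefBy φ b Z

/-- `Z` is the least small set defined by `φ` with the property `H`. -/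
def Lst (H : ZFSet.{u} → Prop) (Z : ZFSet.{u}) : Prop :=
  Ad w φ Z ∧ H Z ∧ ∀ Z', Ad w φ Z' → Wo φ Z' Z → ¬ H Z'

/-- `Z` is the least small set defined by `φ` to which some real belongs. -/
def Nw (Z : ZFSet.{u}) : Prop :=
  (∃ x, x ⊆ (ω : Ordinal.{u}).toZFSet ∧ Lst w φ (fun Z => x ∈ Z) Z) ∧ ∃ b, DefBy φ b Z

/-- `ν` is the index of the least small set defined by `φ` to which `x` belongs. -/
def Ix (ν : Ordinal.{u}) (x : ZFSet.{u}) : Prop :=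
  ∃ Z, Lst w φ (fun Z => x ∈ Z) Z ∧ Rk (Nw w φ) (Wo φ) Z ν

/-- `x` is the `i`-th set coded by `y`. -/
def Dec (y : ZFSet.{u}) (i : Ordinal.{u}) (x : ZFSet.{u}) : Prop :=
  x ⊆ o.toZFSet ∧ ∀ j, j < o → (j.toZFSet ∈ x ↔ ∃ k, Pr o i j k ∧ k.toZFSet ∈ y)

/-- The countable set of ordinals coded by `y`. -/
def gv (y : ZFSet.{u}) : Set Ordinal.{u} :=
  {ν | ∃ i, i < o ∧ ∃ x, Dec o y i x ∧ Ix w φ ν x}

/-- Some element of `Z` is a countable cofinal subset of `γ`. -/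
def Hs (γ : Ordinal.{u}) (Z : ZFSet.{u}) : Prop :=
  ∃ c, c ∈ Z ∧ Sm o c ∧ Cof (os c) γ

/-- The countable cofinal subsets of `γ` in the least small set defined by `φ` which has such
elements. -/
def FF (γ : Ordinal.{u}) : Set (Set Ordinal.{u}) :=
  {d | ∃ Z, Lst w φ (Hs o γ) Z ∧ ∃ c, (c ∈ Z ∧ Sm o c ∧ Cof (os c) γ) ∧ d = os c}

end

section

variable {n : ℕ} {w o : Ordinal.{u}} {φ : LSet.Formula (Fin n ⊕ Fin 2)}

theorem wo_ad : IsWellOrder {Z : ZFSet.{u} // Ad w φ Z} (fun x y => Wo φ x y) :=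
  defBy_wo_gen (Sm w) φ

theorem wo_nw : IsWellOrder {Z : ZFSet.{u} // Nw w φ Z} (fun x y => Wo φ x y) :=
  defBy_wo_gen (fun Z => ∃ x, x ⊆ (ω : Ordinal.{u}).toZFSet ∧ Lst w φ (fun Z => x ∈ Z) Z) φ

theorem Lst.unique {H : ZFSet.{u} → Prop} {Z Z' : ZFSet.{u}} (h : Lst w φ H Z)
    (h' : Lst w φ H Z') : Z = Z' := by
  have hwo := wo_ad (w := w) (φ := φ)
  rcases trichotomous_of (fun x y : {Z : ZFSet.{u} // Ad w φ Z} => Wo φ x y) ⟨Z, h.1⟩ ⟨Z', h'.1⟩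
    with h1 | h1 | h1
  · exact absurd h.2.1 (h'.2.2 Z h.1 h1)
  · exact congrArg Subtype.val h1
  · exact absurd h'.2.1 (h.2.2 Z' h'.1 h1)

theorem exists_lst {H : ZFSet.{u} → Prop} (h : ∃ Z, Ad w φ Z ∧ H Z) : ∃ Z, Lst w φ H Z := by
  have hwo := wo_ad (w := w) (φ := φ)
  have hwf : WellFounded (fun x y : {Z : ZFSet.{u} // Ad w φ Z} => Wo φ x y) := hwo.wf
  obtain ⟨Z, hZ, hH⟩ := h
  obtain ⟨m, hm, hmin⟩ := hwf.has_min {Z : {Z : ZFSet.{u} // Ad w φ Z} | H Z.1} ⟨⟨Z, hZ⟩, hH⟩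
  exact ⟨m.1, m.2, hm, fun Z' h1 h2 h3 => hmin ⟨Z', h1⟩ h3 h2⟩

theorem small_reals : Small.{u} {x : ZFSet.{u} // x ⊆ (ω : Ordinal.{u}).toZFSet} := by
  refine small_of_injective (β := ZFSet.powerset (ω : Ordinal.{u}).toZFSet)
    (f := fun x => ⟨x.1, ZFSet.mem_powerset.2 x.2⟩) ?_
  intro x y h
  exact Subtype.ext (Subtype.mk.inj h)

theorem small_nw : Small.{u} {Z : ZFSet.{u} // Nw w φ Z} := by
  have := small_reals.{u}
  choose f hf1 hf2 using fun Z : {Z : ZFSet.{u} // Nw w φ Z} => Z.2.1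
  refine small_of_injective (β := {x : ZFSet.{u} // x ⊆ (ω : Ordinal.{u}).toZFSet})
    (f := fun Z => ⟨f Z, hf1 Z⟩) ?_
  intro Z Z' h
  have h1 : f Z = f Z' := congrArg Subtype.val h
  have h2 := hf2 Z
  rw [h1] at h2
  exact Subtype.ext (h2.unique (hf2 Z'))

theorem Ix.unique {ν ν' : Ordinal.{u}} {x : ZFSet.{u}} (h : Ix w φ ν x) (h' : Ix w φ ν' x) :
    ν = ν' := by
  obtain ⟨Z, h1, h2⟩ := h
  obtain ⟨Z', h3, h4⟩ := h'
  rw [h3.unique h1] at h4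
  exact Rk.unique wo_nw h2 h4

theorem exists_ix (h : Cardinal.lift.{u + 1} (ℵ_ 2 : Cardinal.{u}) ≤ #{Z : ZFSet.{u} // Nw w φ Z})
    {ν : Ordinal.{u}} (hν : ν < ω_ 2) :
    ∃ x, x ⊆ (ω : Ordinal.{u}).toZFSet ∧ Ix w φ ν x := by
  have := small_nw (w := w) (φ := φ)
  obtain ⟨-, hrk⟩ := exists_rk (wo_nw (w := w) (φ := φ))
  obtain ⟨Z, ⟨⟨x, h1, h2⟩, h3⟩, h4⟩ := hrk (ℵ_ 2) h ν (by rw [Cardinal.ord_aleph]; exact hν)
  exact ⟨x, h1, Z, h2, h4⟩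

theorem Dec.unique {y x x' : ZFSet.{u}} {i : Ordinal.{u}} (h : Dec o y i x) (h' : Dec o y i x') :
    x = x' := by
  ext z
  constructor
  · intro hz
    obtain ⟨j, hj, rfl⟩ := mem_toZFSet_iff.1 (h.1 hz)
    exact (h'.2 j hj).2 ((h.2 j hj).1 hz)
  · intro hz
    obtain ⟨j, hj, rfl⟩ := mem_toZFSet_iff.1 (h'.1 hz)
    exact (h.2 j hj).2 ((h'.2 j hj).1 hz)

theorem exists_dec (x : ℕ → ZFSet.{u}) (hx : ∀ n, x n ⊆ (ω : Ordinal.{u}).toZFSet) :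
    ∃ y, y ⊆ (ω : Ordinal.{u}).toZFSet ∧ ∀ n : ℕ, Dec ω y n (x n) := by
  obtain ⟨p, hp1, hp2⟩ := exists_pr.{u} (c := ℵ₀) le_rfl
  rw [Cardinal.ord_aleph0] at hp1 hp2
  have hn : ∀ n : ℕ, (n : Ordinal.{u}) < ω := fun n => Ordinal.natCast_lt_omega0 n
  refine ⟨ZFSet.sep (fun z => ∃ (n : ℕ) (j : Ordinal.{u}), j < ω ∧ j.toZFSet ∈ x n ∧
    z = (p n j).toZFSet) (ω : Ordinal.{u}).toZFSet, ZFSet.sep_subset, fun n => ⟨hx n, fun j hj => ?_⟩⟩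
  constructor
  · intro h
    refine ⟨p n j, ((hp1 n (hn n) j hj).2 _).2 rfl, ZFSet.mem_sep.2 ⟨?_, n, j, hj, h, rfl⟩⟩
    exact toZFSet_mem_toZFSet_iff.2 (hp1 n (hn n) j hj).1
  · rintro ⟨k, hk, h⟩
    obtain ⟨-, m, j', hj', h1, h2⟩ := ZFSet.mem_sep.1 h
    have h3 : k = p n j := ((hp1 n (hn n) j hj).2 k).1 hk
    have h4 : k = p m j' := toZFSet_injective h2
    obtain ⟨h5, h6⟩ := hp2 n (hn n) j hj m (hn m) j' hj' (h3.symm.trans h4)
    have h7 : n = m := Nat.cast_injective h5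
    rw [h7, h6]
    exact h1

theorem gv_countable (y : ZFSet.{u}) : (gv w ω φ y).Countable := by
  have h : ∀ ν : gv w ω φ y, ∃ i : ℕ, ∃ x, Dec ω y i x ∧ Ix w φ ν.1 x := by
    rintro ⟨ν, i, hi, x, h1, h2⟩
    obtain ⟨k, rfl⟩ := Ordinal.lt_omega0.1 hi
    exact ⟨k, x, h1, h2⟩
  choose i x hx1 hx2 using h
  refine (Set.countable_coe_iff (s := gv w ω φ y)).1 (Function.Injective.countable (f := i) ?_)
  intro ν ν' hνν
  have h1 := hx1 ν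
  rw [hνν] at h1
  have h2 := h1.unique (hx1 ν')
  have h3 := hx2 ν
  rw [h2] at h3
  exact Subtype.ext (h3.unique (hx2 ν'))

theorem exists_gv (ν : ℕ → Ordinal.{u})
    (h : ∀ n, ∃ x, x ⊆ (ω : Ordinal.{u}).toZFSet ∧ Ix w φ (ν n) x) :
    ∃ y, y ⊆ (ω : Ordinal.{u}).toZFSet ∧ gv w ω φ y = range ν := by
  choose x hx1 hx2 using h
  obtain ⟨y, hy, hy2⟩ := exists_dec x hx1
  refine ⟨y, hy, ?_⟩
  ext μ
  constructor
  · rintro ⟨i, hi, x', h1, h2⟩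
    obtain ⟨k, rfl⟩ := Ordinal.lt_omega0.1 hi
    have h3 := h1.unique (hy2 k)
    rw [h3] at h2
    exact ⟨k, (hx2 k).unique h2⟩
  · rintro ⟨k, rfl⟩
    exact ⟨k, Ordinal.natCast_lt_omega0 k, x k, hy2 k, hx2 k⟩

end

/-- One formula defines many new small sets. -/
theorem exists_many (h2 : Cardinal.lift.{u + 1} (ℵ_ 2 : Cardinal.{u}) ≤
      #{x : ZFSet.{u} // x ⊆ (ω : Ordinal.{u}).toZFSet})
    (H : ∀ x : ZFSet.{u}, x ⊆ (ω : Ordinal.{u}).toZFSet → ∃ Z, x ∈ Z ∧ OrdDef ∅ Z ∧ Sm (ω_ 1) Z) :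
    ∃ (n : ℕ) (φ : LSet.Formula (Fin n ⊕ Fin 2)),
      Cardinal.lift.{u + 1} (ℵ_ 2 : Cardinal.{u}) ≤ #{Z : ZFSet.{u} // Nw (ω_ 1) φ Z} := by
  classical
  by_contra hcon
  push Not at hcon
  have := H6_countable
  let J := Σ n : ℕ, LSet.Formula (Fin n ⊕ Fin 2)
  have hJ : #J ≤ ℵ₀ := Cardinal.mk_le_aleph0
  have h12 : (ℵ_ 2 : Cardinal.{u}) = Order.succ (ℵ_ 1) := by
    rw [Cardinal.succ_aleph, one_add_one_eq_two]
  have hcon' : ∀ j : J, #{Z : ZFSet.{u} // Nw (ω_ 1) j.2 Z} ≤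
      Cardinal.lift.{u + 1} (ℵ_ 1 : Cardinal.{u}) := by
    intro j
    have h3 := hcon j.1 j.2
    rw [h12, Cardinal.lift_succ, Order.lt_succ_iff] at h3
    exact h3
  have h1 : ∀ x : {x : ZFSet.{u} // x ⊆ (ω : Ordinal.{u}).toZFSet},
      ∃ j : J, ∃ Z, Lst (ω_ 1) j.2 (fun Z => x.1 ∈ Z) Z := by
    intro x
    obtain ⟨Z, hxZ, ⟨n, φ, a, ha⟩, hZ⟩ := H x.1 x.2
    exact ⟨⟨n, φ⟩, exists_lst ⟨Z, ⟨hZ, a, ha⟩, hxZ⟩⟩
  choose j Z hZ using h1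
  have h3 : ∀ Z : ZFSet.{u}, ∃ f : Ordinal.{u} → ZFSet.{u}, Sm (ω_ 1) Z →
      ∀ y ∈ Z, ∃ ξ < ω_ 1, f ξ = y := by
    intro Z
    by_cases h : Sm (ω_ 1) Z
    · obtain ⟨f, hf⟩ := h.exists_fun
      exact ⟨f, fun _ => hf⟩
    · exact ⟨fun _ => ∅, fun h' => absurd h' h⟩
  choose f hf using h3
  have h4 : ∀ x : {x : ZFSet.{u} // x ⊆ (ω : Ordinal.{u}).toZFSet}, ∃ ξ < ω_ 1, f (Z x) ξ = x.1 :=
    fun x => hf (Z x) (hZ x).1.1 x.1 (hZ x).2.1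
  choose ξ hξ1 hξ2 using h4
  have h5 : #{x : ZFSet.{u} // x ⊆ (ω : Ordinal.{u}).toZFSet} ≤
      #(Σ j : J, {Z : ZFSet.{u} // Nw (ω_ 1) j.2 Z} × Iio (ω_ 1 : Ordinal.{u})) := by
    refine Cardinal.mk_le_of_injective
      (f := fun x => ⟨j x, ⟨Z x, ⟨x.1, x.2, hZ x⟩, (hZ x).1.2⟩, ⟨ξ x, hξ1 x⟩⟩) ?_
    intro x y hxy
    have h6 : ∀ a b : (Σ j : J, {Z : ZFSet.{u} // Nw (ω_ 1) j.2 Z} × Iio (ω_ 1 : Ordinal.{u})),
        a = b → a.2.1.1 = b.2.1.1 ∧ a.2.2.1 = b.2.2.1 := fun a b hab => by rw [hab]; exact ⟨rfl, rfl⟩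
    obtain ⟨h7, h8⟩ := h6 _ _ hxy
    have h7 : Z x = Z y := h7
    have h8 : ξ x = ξ y := h8
    apply Subtype.ext
    rw [← hξ2 x, ← hξ2 y, h7, h8]
  have h6 : #(Σ j : J, {Z : ZFSet.{u} // Nw (ω_ 1) j.2 Z} × Iio (ω_ 1 : Ordinal.{u})) ≤
      Cardinal.lift.{u + 1} (ℵ_ 1 : Cardinal.{u}) := by
    have h0 : ℵ₀ ≤ Cardinal.lift.{u + 1} (ℵ_ 1 : Cardinal.{u}) :=
      Cardinal.aleph0_le_lift.2 (Cardinal.aleph0_le_aleph 1)
    rw [Cardinal.mk_sigma]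
    refine (Cardinal.sum_le_sum _ (fun _ => Cardinal.lift.{u + 1} (ℵ_ 1 : Cardinal.{u}))
      (fun (j : J) => ?_)).trans ?_
    · rw [Cardinal.mk_prod, Cardinal.lift_id, Cardinal.lift_id, Cardinal.mk_Iio_ordinal,
        Ordinal.card_omega]
      exact (mul_le_mul_left (hcon' j) _).trans (Cardinal.mul_eq_self h0).le
    · rw [Cardinal.sum_const]
      have h4 : Cardinal.lift.{u + 1} #J ≤ ℵ₀ := by
        rw [← Cardinal.lift_aleph0.{u + 1, 0}]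
        exact Cardinal.lift_le.2 hJ
      rw [Cardinal.lift_id']
      calc Cardinal.lift.{u + 1} #J * Cardinal.lift.{u + 1} (ℵ_ 1 : Cardinal.{u})
          ≤ ℵ₀ * Cardinal.lift.{u + 1} (ℵ_ 1 : Cardinal.{u}) := mul_le_mul_left h4 _
        _ = Cardinal.lift.{u + 1} (ℵ_ 1 : Cardinal.{u}) := Cardinal.aleph0_mul_eq h0
  have h7 := (h2.trans h5).trans h6
  rw [Cardinal.lift_le] at h7
  exact absurd h7 (not_le.2 (Cardinal.aleph_lt_aleph.2 (by norm_num)))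

/-- The reals are not enumerated by `ω₁`. -/
theorem not_inj (h2 : Cardinal.lift.{u + 1} (ℵ_ 2 : Cardinal.{u}) ≤
      #{x : ZFSet.{u} // x ⊆ (ω : Ordinal.{u}).toZFSet}) :
    ¬ ∃ i : (ℕ → Bool) → Iio (ω_ 1 : Ordinal.{u}), Function.Injective i := by
  classical
  rintro ⟨i, hi⟩
  have h3 : Function.Injective (fun x : {x : ZFSet.{u} // x ⊆ (ω : Ordinal.{u}).toZFSet} =>
      (fun n : ℕ => decide ((n : Ordinal.{u}).toZFSet ∈ x.1))) := by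
    intro x y hxy
    have h4 : ∀ n : ℕ, ((n : Ordinal.{u}).toZFSet ∈ x.1 ↔ (n : Ordinal.{u}).toZFSet ∈ y.1) := by
      intro n
      have := congrFun hxy n
      simpa using this
    apply Subtype.ext
    ext z
    constructor
    · intro hz
      obtain ⟨n, hn, rfl⟩ := mem_toZFSet_iff.1 (x.2 hz)
      obtain ⟨k, rfl⟩ := Ordinal.lt_omega0.1 hn
      exact (h4 k).1 hz
    · intro hz
      obtain ⟨n, hn, rfl⟩ := mem_toZFSet_iff.1 (y.2 hz)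
      obtain ⟨k, rfl⟩ := Ordinal.lt_omega0.1 hn
      exact (h4 k).2 hz
  have h5 := Cardinal.mk_le_of_injective (hi.comp h3)
  rw [Cardinal.mk_Iio_ordinal, Ordinal.card_omega] at h5
  have h7 := h2.trans h5
  rw [Cardinal.lift_le] at h7
  exact absurd h7 (not_le.2 (Cardinal.aleph_lt_aleph.2 (by norm_num)))

section

variable {m : ℕ} {ψ : LSet.Formula (Fin m ⊕ Fin 2)}

theorem FF_one (γ : Ordinal.{u}) : ∀ d ∈ FF (ω_ 1) ω ψ γ, d.Countable ∧ Cof d γ := by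
  rintro d ⟨Z, -, c, ⟨-, h1, h2⟩, rfl⟩
  exact ⟨h1.countable, h2⟩

theorem FF_two (h2 : Cardinal.lift.{u + 1} (ℵ_ 2 : Cardinal.{u}) ≤
      #{x : ZFSet.{u} // x ⊆ (ω : Ordinal.{u}).toZFSet}) (γ : Ordinal.{u}) :
    ¬ ∃ i : (ℕ → Bool) → Set Ordinal.{u}, Function.Injective i ∧
      ∀ f, i f ∈ FF (ω_ 1) ω ψ γ := by
  rintro ⟨i, hi, hF⟩
  obtain ⟨Z, hZ, -⟩ := hF fun _ => false
  have h1 : ∀ f, ∃ c, c ∈ Z ∧ i f = os c := by
    intro f
    obtain ⟨Z', hZ', c, ⟨hc, -, -⟩, h3⟩ := hF f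
    rw [hZ'.unique hZ] at hc
    exact ⟨c, hc, h3⟩
  choose c hc1 hc2 using h1
  obtain ⟨g, hg⟩ := hZ.1.1.exists_fun
  choose ξ hξ1 hξ2 using fun f => hg (c f) (hc1 f)
  refine not_inj h2 ⟨fun f => ⟨ξ f, hξ1 f⟩, ?_⟩
  intro f f' hff
  have h3 : ξ f = ξ f' := congrArg Subtype.val hff
  apply hi
  rw [hc2, hc2, ← hξ2 f, ← hξ2 f', h3]

theorem FF_three {γ : Ordinal.{u}} (h : ∃ Z, Ad (ω_ 1) ψ Z ∧ Hs ω γ Z) :
    (FF (ω_ 1) ω ψ γ).Nonempty := by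
  obtain ⟨Z, hZ⟩ := exists_lst h
  obtain ⟨c, h1⟩ := hZ.2.1
  exact ⟨_, Z, hZ, c, h1, rfl⟩

end

end Pool.Agent.Helper97.FP

/-!
# Definability of the predicate
-/

namespace Pool.Agent.Helper97.FP

open Pool.Agent.Helper56.MW (LSet Df DefBy LexLt Rk Pr)
open Pool.Agent.Helper56.MW.Df (exO allO exS allS memO memS eqS ltO pairOS subSO subOmegaS relabel
  H10_order H10_exDef)

section

variable {α β : Type} {n : ℕ} (φ : LSet.Formula (Fin n ⊕ Fin 2))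

theorem df_sm (w : α) (Z : β) : Df.{u} (fun a s => Sm (a w) (s Z)) :=
  exS (P := fun g a s => ∀ y, y ∈ s Z → ∃ ξ, ξ < a w ∧
      ∀ y', ZFSet.pair ξ.toZFSet y' ∈ g ↔ y' = y)
    (allS (P := fun y a s => y ∈ s (some Z) → ∃ ξ, ξ < a w ∧
        ∀ y', ZFSet.pair ξ.toZFSet y' ∈ s none ↔ y' = y)
      ((memS none (some (some Z))).imp
        (exO (P := fun ξ a s => ξ < a w ∧
            ∀ y', ZFSet.pair ξ.toZFSet y' ∈ s (some none) ↔ y' = s none)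
          ((ltO none (some w)).and
            (allS (P := fun y' a s => ZFSet.pair (a none).toZFSet y' ∈ s (some none) ↔
                y' = s none)
              ((pairOS none none (some (some none))).iff (eqS none (some none))))))))

theorem df_ad (w : α) (Z : β) : Df.{u} (fun a s => Ad (a w) φ (s Z)) :=
  (df_sm w Z).and (H10_exDef φ Z)

theorem df_lst {H : ZFSet.{u} → (α → Ordinal.{u}) → (β → ZFSet.{u}) → Prop}
    (hH : Df (β := Option β) (fun a s => H (s none) a (fun i => s (some i)))) (w : α) (Z : β) :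
    Df (fun a s => Lst (a w) φ (fun Z => H Z a s) (s Z)) := by
  refine (df_ad φ w Z).and (Df.and ?_ ?_)
  · exact (relabel (α := α) (β := β) id (fun o => match o with
      | none => Z
      | some i => i) hH).congr fun a s => Iff.rfl
  · exact allS (P := fun Z' a s => Ad (a w) φ Z' → Wo φ Z' (s Z) → ¬ H Z' a s)
      ((df_ad φ w none).imp ((H10_order φ none (some Z)).imp hH.not))

theorem df_nw (w : α) (Z : β) : Df.{u} (fun a s => Nw (a w) φ (s Z)) :=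
  (exS (P := fun x a s => x ⊆ (ω : Ordinal.{u}).toZFSet ∧
      Lst (a w) φ (fun Z => x ∈ Z) (s Z))
    ((subOmegaS none).and (df_lst (β := Option β) φ (H := fun Z _ s => s none ∈ Z)
      (memS (some none) none) w (some Z)))).and (H10_exDef φ Z)

theorem df_ix (w ν : α) (x : β) : Df.{u} (fun a s => Ix (a w) φ (a ν) (s x)) :=
  exS (P := fun Z a s => Lst (a w) φ (fun Z => s x ∈ Z) Z ∧ Rk (Nw (a w) φ) (Wo φ) Z (a ν))
    ((df_lst (β := Option β) φ (H := fun Z _ s => s (some x) ∈ Z)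
      (memS (some (some x)) none) w none).and
    (Df.rk (κ := Unit) (D := fun b Z => Nw (b ()) φ Z) (W := fun _ Z Z' => Wo φ Z Z')
      (df_nw φ () ()) (H10_order φ 0 1) (fun _ => w) none ν))

theorem df_dec (o i : α) (y x : β) : Df.{u} (fun a s => Dec (a o) (s y) (a i) (s x)) :=
  (subSO x o).and (allO (P := fun j a s => j < a o → (j.toZFSet ∈ s x ↔
      ∃ k, Pr (a o) (a i) j k ∧ k.toZFSet ∈ s y))
    ((ltO none (some o)).imp ((memO none x).iff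
      (exO (P := fun k a s => Pr (a (some o)) (a (some i)) (a none) k ∧ k.toZFSet ∈ s y)
        ((Df.pr (some (some o)) (some (some i)) (some none) none).and (memO none y))))))

theorem df_gv (w o ν : α) (y : β) : Df.{u} (fun a s => a ν ∈ gv (a w) (a o) φ (s y)) :=
  exO (P := fun i a s => i < a o ∧ ∃ x, Dec (a o) (s y) i x ∧ Ix (a w) φ (a ν) x)
    ((ltO none (some o)).and
      (exS (P := fun x a s => Dec (a (some o)) (s y) (a none) x ∧ Ix (a (some w)) φ (a (some ν)) x)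
        ((df_dec (some o) none (some y) none).and (df_ix φ (some w) (some ν) none))))

theorem df_cof_os (γ : α) (c : β) : Df.{u} (fun a s => Cof (os (s c)) (a γ)) :=
  (allO (P := fun ν a s => ν.toZFSet ∈ s c → ν < a γ)
    ((memO none c).imp (ltO none (some γ)))).and
  (allO (P := fun ζ a s => ζ < a γ → ∃ ν : Ordinal.{u}, ν.toZFSet ∈ s c ∧ ζ < ν)
    ((ltO none (some γ)).imp
      (exO (P := fun ν a s => ν.toZFSet ∈ s c ∧ a none < ν)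
        ((memO none c).and (ltO (some none) none)))))

theorem df_hs (o γ : α) (Z : β) : Df.{u} (fun a s => Hs (a o) (a γ) (s Z)) :=
  exS (P := fun c a s => c ∈ s Z ∧ Sm (a o) c ∧ Cof (os c) (a γ))
    ((memS none (some Z)).and ((df_sm o none).and (df_cof_os γ none)))

/-- Some small set defined by `φ` contains a countable cofinal subset of `γ`. -/
theorem df_exHs (w o γ : α) : Df.{u} (α := α) (β := β)
    (fun a _ => ∃ Z, Ad (a w) φ Z ∧ Hs (a o) (a γ) Z) :=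
  exS (P := fun Z a _ => Ad (a w) φ Z ∧ Hs (a o) (a γ) Z)
    ((df_ad φ w none).and (df_hs o γ none))

theorem TF_iff {w o : Ordinal.{u}} {N : Set Ordinal.{u}} : TF (FF w o φ) N ↔
    ∃ γ, Cof N γ ∧ ∃ Z, Lst w φ (Hs o γ) Z ∧ ∃ c, (c ∈ Z ∧ Sm o c ∧ Cof (os c) γ) ∧
      ∀ ν, ν ∈ os c → ν ∈ N := by
  constructor
  · rintro ⟨γ, h1, d, ⟨Z, h2, c, h3, rfl⟩, h5⟩
    exact ⟨γ, h1, Z, h2, c, h3, h5⟩
  · rintro ⟨γ, h1, Z, h2, c, h3, h5⟩
    exact ⟨γ, h1, _, ⟨Z, h2, c, h3, rfl⟩, h5⟩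

theorem df_TF (w o : α) (x : β) :
    Df.{u} (fun a s => TF (FF (a w) (a o) φ) {ν | ν.toZFSet ∈ s x}) := by
  refine Df.congr ?_ (fun a s => (TF_iff φ).symm)
  refine exO (P := fun γ a s => Cof (os (s x)) γ ∧
    ∃ Z, Lst (a w) φ (Hs (a o) γ) Z ∧ ∃ c, (c ∈ Z ∧ Sm (a o) c ∧ Cof (os c) γ) ∧
      ∀ ν : Ordinal.{u}, ν.toZFSet ∈ c → ν.toZFSet ∈ s x) ((df_cof_os none x).and ?_)
  refine exS (P := fun Z a s => Lst (a (some w)) φ (Hs (a (some o)) (a none)) Z ∧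
    ∃ c, (c ∈ Z ∧ Sm (a (some o)) c ∧ Cof (os c) (a none)) ∧
      ∀ ν : Ordinal.{u}, ν.toZFSet ∈ c → ν.toZFSet ∈ s x) ?_
  refine (df_lst (β := Option β) φ
    (H := fun Z a _ => Hs (a (some o)) (a none) Z)
    (df_hs (some o) none none) (some w) none).and ?_
  refine exS (P := fun c a s => (c ∈ s none ∧ Sm (a (some o)) c ∧ Cof (os c) (a none)) ∧
      ∀ ν : Ordinal.{u}, ν.toZFSet ∈ c → ν.toZFSet ∈ s (some x)) ?_
  refine ((memS none (some none)).and ((df_sm (some o) none).and (df_cof_os none none))).and ?_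
  exact allO (P := fun ν _ s => ν.toZFSet ∈ s none → ν.toZFSet ∈ s (some (some x)))
    ((memO none none).imp (memO none (some (some x))))

end

end Pool.Agent.Helper97.FP
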