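import Pool.Agent.Helper97.FP.Sd
import Pool.Agent.Helper56.MW.G1
import Pool.Agent.Helper97.FP.Ix

/-!
# Images of blurrily ordinal definable sets
-/

open FirstOrder FirstOrder.Language Ordinal Cardinal Set Helper23.Pcf

universe u v

namespace Pool.Agent.Helper97.FP

open Pool.Agent.Helper56.MW (OrdDef Df ordDef_of_df)
open Pool.Agent.Helper56.MW.Df (exS allS memS relabel)

/-- A set which is determined, by a definable relation with ordinal parameters, by a blurrily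
ordinal definable set is blurrily ordinal definable. -/
theorem Blurry.image {α : Type} [Finite α] {A : ZFSet.{u}} (hA : Blurry A)
    {Q : (α → Ordinal.{u}) → ZFSet.{u} → ZFSet.{u} → Prop}
    (hQ : Df (α := α) (β := Bool) (fun a s => Q a (s false) (s true))) (a : α → Ordinal.{u})
    {x : ZFSet.{u}} (h1 : Q a A x) (h2 : ∀ A' y y', Q a A' y → Q a A' y' → y = y') : Blurry x := by
  classical
  obtain ⟨Z, ⟨hZ, hZc, hAZ⟩⟩ := hA
  let f : Z → ZFSet.{u} := fun A' => if h : ∃ y, Q a A'.1 y then Classical.choose h else x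
  have hmem : ∀ y, y ∈ ZFSet.range f ↔ ∃ A', A' ∈ Z ∧ Q a A' y := by
    intro y
    rw [ZFSet.mem_range]
    constructor
    · rintro ⟨A', rfl⟩
      by_cases h : ∃ y, Q a A'.1 y
      · have h3 : f A' = Classical.choose h := dif_pos h
        rw [h3]
        exact ⟨A'.1, A'.2, Classical.choose_spec h⟩
      · have h3 : f A' = x := dif_neg h
        rw [h3]
        exact ⟨A, hAZ, h1⟩
    · rintro ⟨A', hA', h3⟩
      have h : ∃ y, Q a A' y := ⟨y, h3⟩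
      refine ⟨⟨A', hA'⟩, ?_⟩
      have h4 : f ⟨A', hA'⟩ = Classical.choose h := dif_pos h
      rw [h4]
      exact h2 A' _ _ (Classical.choose_spec h) h3
  refine ⟨ZFSet.range f, ?_, ?_, (hmem x).2 ⟨A, hAZ, h1⟩⟩
  · obtain ⟨n, P, b, hP, h3⟩ := hZ.exists_df
    have h3' : ∀ Z', P b (fun _ => Z') ↔ Z' = Z := h3
    have hR : Df (α := α ⊕ Fin n) (β := Unit) (fun a z => ∃ Z, P (fun i => a (Sum.inr i))
        (fun _ => Z) ∧ ∀ y, y ∈ z () ↔ ∃ A', A' ∈ Z ∧ Q (fun i => a (Sum.inl i)) A' y) := by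
      refine exS (P := fun Z a z => P (fun i => a (Sum.inr i))
        (fun _ => Z) ∧ ∀ y, y ∈ z () ↔ ∃ A', A' ∈ Z ∧ Q (fun i => a (Sum.inl i)) A' y) ?_
      refine (relabel (α := α ⊕ Fin n) (β := Option Unit) Sum.inr (fun _ => none) hP).and ?_
      refine allS (P := fun y a z => y ∈ z (some ()) ↔
        ∃ A', A' ∈ z none ∧ Q (fun i => a (Sum.inl i)) A' y) ?_
      refine (memS none (some (some ()))).iff ?_
      refine exS (P := fun A' a z => A' ∈ z (some none) ∧ Q (fun i => a (Sum.inl i)) A' (z none)) ?_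
      exact (memS none (some (some none))).and ((relabel (α := α ⊕ Fin n)
        (β := Option (Option (Option Unit))) Sum.inl (fun b => match b with
          | false => none
          | true => some none) hQ).congr fun a s => Iff.rfl)
    refine ordDef_of_df hR (Sum.elim a b) _ fun z => ?_
    constructor
    · rintro ⟨Z', h4, h5⟩
      have h6 : Z' = Z := (h3' Z').1 h4
      subst h6
      ext y
      rw [hmem]
      exact h5 y
    · rintro rfl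
      exact ⟨Z, (h3' Z).2 rfl, fun y => hmem y⟩
  · refine le_trans ?_ hZc
    rw [← Cardinal.lift_le.{u + 1}, ← ZFSet.cardinalMk_coe_sort, ← ZFSet.cardinalMk_coe_sort]
    choose g hg1 hg2 using fun y : ZFSet.range f => (hmem y.1).1 y.2
    refine Cardinal.mk_le_of_injective (f := fun y => (⟨g y, hg1 y⟩ : Z)) ?_
    intro y y' hyy
    have h3 : g y = g y' := congrArg Subtype.val hyy
    have h4 := hg2 y
    rw [h3] at h4
    exact Subtype.ext (h2 _ _ _ h4 (hg2 y'))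

theorem blurry_empty : Blurry (∅ : ZFSet.{u}) := by
  refine ⟨{∅}, ?_, ?_, ZFSet.mem_singleton.2 rfl⟩
  · have hQ : Df (α := Fin 0) (β := Unit) (fun (_ : Fin 0 → Ordinal.{u}) s =>
        ∀ y, y ∈ s () ↔ y = ∅) :=
      allS (P := fun y _ s => y ∈ s () ↔ y = ∅) ((memS none (some ())).iff (Df.emptyS none))
    refine ordDef_of_df hQ (fun i => i.elim0) _ fun z => ?_
    constructor
    · intro h
      ext y
      rw [h y, ZFSet.mem_singleton]
    · rintro rfl y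
      rw [ZFSet.mem_singleton]
  · rw [ZFSet.card_singleton]
    exact Cardinal.one_lt_aleph0.le.trans (Cardinal.aleph0_le_aleph 1)

end Pool.Agent.Helper97.FP

/-!
# Definable well-orders of the reals and small ordinal definable sets
-/

namespace Pool.Agent.Helper97.FP

open Pool.Agent.Helper56.MW (LSet MM OrdDef HasDefWO Splits Df aleph0_lt_cof_omega1 stat_cof
  stat_iUnion exists_ordDef hasDefWO_of_splits ordDef_of_df H6_countable ordDef_of_hasDefWO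
  splits_of_hasDefWO Rk exists_rk)

theorem seq_cof' {γ : Ordinal.{u}} (h : γ.cof = ℵ₀) :
    ∃ ν : ℕ → Ordinal.{u}, (∀ n, ν n < γ) ∧ ∀ ζ < γ, ∃ n, ζ < ν n := by
  have hlim : Order.IsSuccLimit γ := Ordinal.one_lt_cof_iff.1 (h ▸ Cardinal.one_lt_aleph0)
  obtain ⟨e, he⟩ := Ordinal.exists_isFundamentalSeq (o := γ) rfl
  have hord : γ.cof.ord = ω := by rw [h, Cardinal.ord_aleph0]
  have hn : ∀ n : ℕ, (n : Ordinal.{u}) < γ.cof.ord := by
    intro n
    rw [hord]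
    exact Ordinal.natCast_lt_omega0 n
  refine ⟨fun n => Order.succ (e ⟨n, hn n⟩).1, fun n => hlim.succ_lt (e ⟨n, hn n⟩).2,
    fun ζ hζ => ?_⟩
  obtain ⟨_, ⟨j, rfl⟩, hj⟩ := he.isCofinal_range ⟨ζ, hζ⟩
  have hj2 : j.1 < ω := lt_of_lt_of_eq (Set.mem_Iio.1 j.2) hord
  obtain ⟨n, hn2⟩ := Ordinal.lt_omega0.1 hj2
  refine ⟨n, lt_of_le_of_lt hj ?_⟩
  have hjn : j = ⟨(n : Ordinal.{u}), hn n⟩ := Subtype.ext hn2
  rw [hjn]
  exact Order.lt_succ _

theorem regular_aleph2 : (ℵ_ 2 : Cardinal.{u}).IsRegular := by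
  have := Cardinal.isRegular_aleph_add_one (1 : Ordinal.{u})
  rwa [one_add_one_eq_two] at this

theorem card_le_of_countable {x : ZFSet.{u}} (h : {z | z ∈ x}.Countable) : x.card ≤ ℵ₀ := by
  rw [← Cardinal.lift_le.{u + 1}, ← ZFSet.cardinalMk_coe_sort, Cardinal.lift_aleph0]
  exact Cardinal.mk_le_aleph0_iff.2 h.to_subtype

/-- The ordinals of stationarily many `γ` have small sets of cofinal sequences. -/
theorem hasDefWO_of_stat (h : MM.{u})
    (H : StatIn {γ : Ordinal.{u} | γ.cof = ℵ₀ ∧ ∃ c, Blurry c ∧ CtbCof c γ} (ω_ 2)) :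
    HasDefWO.{u} := by
  classical
  have h2 := h.aleph2_le
  have h12 : (ℵ_ 1 : Cardinal.{u}) < ℵ_ 2 := Cardinal.aleph_lt_aleph.2 (by norm_num)
  have := H6_countable
  let J := Σ m : ℕ, LSet.Formula (Fin m ⊕ Fin 2)
  have hst2 : StatIn (⋃ j : ULift.{u} J, {γ : Ordinal.{u} | γ.cof = ℵ₀ ∧
      ∃ Z, Ad (ω_ 1) j.down.2 Z ∧ Hs ω γ Z}) (ω_ 2) := by
    refine H.mono ?_
    rintro γ ⟨hγ, c, ⟨Z, ⟨m, ψ, a, ha⟩, h3, h4⟩, h5⟩
    refine Set.mem_iUnion.2 ⟨ULift.up ⟨m, ψ⟩, hγ, Z, ⟨sm_of_card ?_, a, ha⟩, c, h4,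
      sm_of_card ?_, ?_, ?_⟩
    · rw [Ordinal.card_omega]
      exact h3
    · rw [Ordinal.card_omega0]
      exact h5.ctb
    · exact fun ν hν => toZFSet_mem_toZFSet_iff.1 (h5.sub hν)
    · intro β hβ
      obtain ⟨ν, h6, h7⟩ := h5.cof β hβ
      exact ⟨ν, h7, h6⟩
  have hJ : #(ULift.{u} J) < (ω_ 2 : Ordinal.{u}).cof := by
    refine lt_of_le_of_lt ?_ aleph0_lt_cof_omega2
    exact Cardinal.mk_le_aleph0
  obtain ⟨⟨⟨m, ψ⟩⟩, hψ⟩ := stat_iUnion aleph0_lt_cof_omega2 hJ _ hst2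
  have hψ : StatIn {γ : Ordinal.{u} | γ.cof = ℵ₀ ∧ ∃ Z, Ad (ω_ 1) ψ Z ∧ Hs ω γ Z} (ω_ 2) := hψ
  have hF3 : StatIn {γ | (FF (ω_ 1) ω ψ γ).Nonempty} (ω_ 2) :=
    hψ.mono fun γ hγ => FF_three hγ.2
  have hdf : Df (α := Fin 2) (β := Unit)
      (fun (a : Fin 2 → Ordinal.{u}) (s : Unit → ZFSet.{u}) =>
        TF (FF (a 0) (a 1) ψ) {ν | ν.toZFSet ∈ s ()}) := df_TF ψ 0 1 ()
  exact hasDefWO_of_pstat h (κ := Fin 2) (T := fun a N => TF (FF (a 0) (a 1) ψ) N) hdf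
    ![ω_ 1, ω] (pstat_of_few FF_one hF3) (pstat_not_of_few FF_one (FF_two h2))

/-- If every real is blurrily ordinal definable, then so is some countable cofinal subset of every
ordinal below `ω₂` of countable cofinality. -/
theorem stat_of_few (h : MM.{u})
    (H : ∀ x : ZFSet.{u}, x ⊆ (ω : Ordinal.{u}).toZFSet → Blurry x) :
    StatIn {γ : Ordinal.{u} | γ.cof = ℵ₀ ∧ ∃ c, Blurry c ∧ CtbCof c γ} (ω_ 2) := by
  classical
  have H' : ∀ x : ZFSet.{u}, x ⊆ (ω : Ordinal.{u}).toZFSet →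
      ∃ Z, x ∈ Z ∧ OrdDef ∅ Z ∧ Sm (ω_ 1) Z := by
    intro x hx
    obtain ⟨Z, h3, h4, h5⟩ := H x hx
    exact ⟨Z, h5, h3, sm_of_card (by rw [Ordinal.card_omega]; exact h4)⟩
  obtain ⟨n, φ, hφ⟩ := exists_many h.aleph2_le H'
  have hst := stat_cof regular_aleph2.{u}
    (Cardinal.aleph0_lt_aleph_one.trans (Cardinal.aleph_lt_aleph.2 (by norm_num)))
  rw [Cardinal.ord_aleph] at hst
  intro C hC
  obtain ⟨γ, hγ, hγC, hγ2⟩ := hst C hC
  refine ⟨γ, ⟨hγ, ?_⟩, hγC, hγ2⟩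
  obtain ⟨ν, hν1, hν2⟩ := seq_cof' hγ
  obtain ⟨y, hy1, hy2⟩ := exists_gv (w := ω_ 1) (φ := φ) ν
    (fun k => exists_ix hφ ((hν1 k).trans hγ2))
  have hQ : Df (α := Fin 3) (β := Bool) (fun (a : Fin 3 → Ordinal.{u}) (s : Bool → ZFSet.{u}) =>
      s true ⊆ (a 2).toZFSet ∧ ∀ ν, ν < a 2 →
        (ν.toZFSet ∈ s true ↔ ν ∈ gv (a 0) (a 1) φ (s false))) :=
    (Df.subSO true 2).and (Df.allO (P := fun ν a s => ν < a 2 →
      (ν.toZFSet ∈ s true ↔ ν ∈ gv (a 0) (a 1) φ (s false)))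
      ((Df.ltO none (some 2)).imp ((Df.memO none true).iff
        (df_gv φ (some 0) (some 1) none false))))
  refine ⟨ZFSet.sep (fun z => ∃ k : ℕ, z = (ν k).toZFSet) (ω_ 2 : Ordinal.{u}).toZFSet,
    (H y hy1).image (Q := fun a p c => c ⊆ (a 2).toZFSet ∧ ∀ ν, ν < a 2 →
      (ν.toZFSet ∈ c ↔ ν ∈ gv (a 0) (a 1) φ p)) hQ ![ω_ 1, ω, ω_ 2] ?_ ?_, ?_, ?_, ?_⟩
  · refine ⟨ZFSet.sep_subset, fun μ hμ => ?_⟩
    show μ.toZFSet ∈ _ ↔ μ ∈ gv (ω_ 1) ω φ y
    rw [ZFSet.mem_sep, toZFSet_mem_toZFSet_iff, hy2]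
    constructor
    · rintro ⟨-, k, hk⟩
      exact ⟨k, (toZFSet_injective hk).symm⟩
    · rintro ⟨k, rfl⟩
      exact ⟨hμ, k, rfl⟩
  · rintro A' c c' ⟨h3, h4⟩ ⟨h5, h6⟩
    ext z
    constructor
    · intro hz
      obtain ⟨μ, hμ, rfl⟩ := mem_toZFSet_iff.1 (h3 hz)
      exact (h6 μ hμ).2 ((h4 μ hμ).1 hz)
    · intro hz
      obtain ⟨μ, hμ, rfl⟩ := mem_toZFSet_iff.1 (h5 hz)
      exact (h4 μ hμ).2 ((h6 μ hμ).1 hz)
  · intro z hz
    obtain ⟨-, k, rfl⟩ := ZFSet.mem_sep.1 hz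
    exact toZFSet_mem_toZFSet_iff.2 (hν1 k)
  · refine card_le_of_countable ((Set.countable_range fun k => (ν k).toZFSet).mono ?_)
    intro z hz
    obtain ⟨-, k, rfl⟩ := ZFSet.mem_sep.1 hz
    exact ⟨k, rfl⟩
  · intro β hβ
    obtain ⟨k, hk⟩ := hν2 β hβ
    exact ⟨ν k, hk, ZFSet.mem_sep.2 ⟨toZFSet_mem_toZFSet_iff.2 ((hν1 k).trans hγ2), k, rfl⟩⟩

/-- A set which is definable from ordinals and a blurrily ordinal definable set is blurrily ordinal
definable. -/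
theorem Blurry.ordDef {A x : ZFSet.{u}} (hA : Blurry A) (h : OrdDef A x) : Blurry x := by
  obtain ⟨n, φ, a, ha⟩ := h
  have hφ : Df (α := Fin n) (β := Option Bool) (fun (a : Fin n → Ordinal.{u})
      (s : Option Bool → ZFSet.{u}) =>
        φ.Realize (Sum.elim (fun i => (a i).toZFSet) ![s (some false), s none])) := by
    refine (Df.relabel (α := Fin n) (β := Option Bool) id
      (![some false, none] : Fin 2 → Option Bool)
      (R := fun a s => φ.Realize (Sum.elim (fun i => (a i).toZFSet) s))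
      ⟨φ, fun _ _ => Iff.rfl⟩).congr fun a s => ?_
    refine iff_of_eq (congrArg (fun v => φ.Realize v) ?_)
    funext i
    rcases i with i | i
    · rfl
    · fin_cases i <;> rfl
  have hQ : Df (α := Fin n) (β := Bool) (fun (a : Fin n → Ordinal.{u}) (s : Bool → ZFSet.{u}) =>
      ∀ y, φ.Realize (Sum.elim (fun i => (a i).toZFSet) ![s false, y]) ↔ y = s true) :=
    Df.allS (P := fun y a s => φ.Realize (Sum.elim (fun i => (a i).toZFSet) ![s false, y]) ↔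
      y = s true) (hφ.iff (Df.eqS none (some true)))
  refine hA.image (Q := fun a p x => ∀ y, φ.Realize (Sum.elim (fun i => (a i).toZFSet) ![p, y]) ↔
    y = x) hQ a ha ?_
  intro A' y y' h1 h2
  exact (h2 y).1 ((h1 y).2 rfl)

theorem blurry_of_ordDef {x : ZFSet.{u}} (h : OrdDef ∅ x) : Blurry x := blurry_empty.ordDef h

end Pool.Agent.Helper97.FP

/-!
# The other conditions
-/

namespace Pool.Agent.Helper97.FP

open Pool.Agent.Helper56.MW (LSet MM OrdDef HasDefWO Splits Df aleph0_lt_cof_omega1 stat_cof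
  ordDef_of_df splits_of_hasDefWO Rk exists_rk)

/-! ### Functions with small fibres -/

theorem fib_of_hasDefWO (hw : HasDefWO.{u}) : ∃ (G : ZFSet.{u}) (r : ZFSet.{u} → Ordinal.{u}),
    OrdDef ∅ G ∧ (∀ z, z ∈ G ↔ ∃ x, x ⊆ (ω : Ordinal.{u}).toZFSet ∧
      z = ZFSet.pair x (r x).toZFSet) ∧
    ∀ γ, #{x : ZFSet.{u} // x ⊆ (ω : Ordinal.{u}).toZFSet ∧ r x = γ} ≤ ℵ_ 1 := by
  classical
  obtain ⟨φ, hφ⟩ := hw
  have := small_reals.{u}
  have h0 := (exists_rk (D := fun x => x ⊆ (ω : Ordinal.{u}).toZFSet)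
    (W := fun x y => φ.Realize ![x, y]) hφ).1
  have h1 : ∀ x : ZFSet.{u}, ∃ γ, x ⊆ (ω : Ordinal.{u}).toZFSet →
      Rk (fun x => x ⊆ (ω : Ordinal.{u}).toZFSet) (fun x y => φ.Realize ![x, y]) x γ := by
    intro x
    by_cases hx : x ⊆ (ω : Ordinal.{u}).toZFSet
    · obtain ⟨γ, hγ⟩ := h0 x hx
      exact ⟨γ, fun _ => hγ⟩
    · exact ⟨0, fun h => absurd h hx⟩
  choose r hr using h1
  have hW : Df (α := Unit) (β := Fin 2) (fun (_ : Unit → Ordinal.{u}) (s : Fin 2 → ZFSet.{u}) =>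
      φ.Realize ![s 0, s 1]) := by
    refine ⟨φ.relabel Sum.inr, fun a s => ?_⟩
    rw [Formula.realize_relabel]
    refine iff_of_eq (congrArg φ.Realize ?_)
    funext j
    fin_cases j <;> rfl
  have hinj : ∀ x y, x ⊆ (ω : Ordinal.{u}).toZFSet → y ⊆ (ω : Ordinal.{u}).toZFSet →
      r x = r y → x = y := by
    intro x y hx hy h
    have h2 := hr x hx
    rw [h] at h2
    exact Rk.inj (D := fun x => x ⊆ (ω : Ordinal.{u}).toZFSet)
      (W := fun x y => φ.Realize ![x, y]) hφ h2 (hr y hy)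
  have := small_reals.{u}
  refine ⟨ZFSet.range (fun x : {x : ZFSet.{u} // x ⊆ (ω : Ordinal.{u}).toZFSet} =>
    ZFSet.pair x.1 (r x.1).toZFSet), r, ?_, ?_, ?_⟩
  · have hQ : Df (α := Fin 1) (β := Unit) (fun (a : Fin 1 → Ordinal.{u}) (s : Unit → ZFSet.{u}) =>
        ∀ z, z ∈ s () ↔ ∃ x, x ⊆ (a 0).toZFSet ∧ ∃ γ : Ordinal.{u},
          Rk (fun x => x ⊆ (a 0).toZFSet) (fun x y => φ.Realize ![x, y]) x γ ∧
          ∃ p : ZFSet.{u}, (∀ q : ZFSet.{u}, q ∈ p ↔ q = z) ∧ ZFSet.pair x γ.toZFSet ∈ p) := by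
      refine Df.allS (P := fun z a s => z ∈ s () ↔ ∃ x, x ⊆ (a 0).toZFSet ∧ ∃ γ : Ordinal.{u},
          Rk (fun x => x ⊆ (a 0).toZFSet) (fun x y => φ.Realize ![x, y]) x γ ∧
          ∃ p : ZFSet.{u}, (∀ q : ZFSet.{u}, q ∈ p ↔ q = z) ∧ ZFSet.pair x γ.toZFSet ∈ p) ?_
      refine (Df.memS none (some ())).iff ?_
      refine Df.exS (P := fun x a s => x ⊆ (a 0).toZFSet ∧ ∃ γ : Ordinal.{u},
          Rk (fun x => x ⊆ (a 0).toZFSet) (fun x y => φ.Realize ![x, y]) x γ ∧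
          ∃ p : ZFSet.{u}, (∀ q : ZFSet.{u}, q ∈ p ↔ q = s none) ∧ ZFSet.pair x γ.toZFSet ∈ p) ?_
      refine (Df.subSO none 0).and ?_
      refine Df.exO (P := fun γ a s =>
          Rk (fun x => x ⊆ (a 0).toZFSet) (fun x y => φ.Realize ![x, y]) (s none) γ ∧
          ∃ p : ZFSet.{u}, (∀ q : ZFSet.{u}, q ∈ p ↔ q = s (some none)) ∧ ZFSet.pair (s none) γ.toZFSet ∈ p) ?_
      refine (Df.rk (κ := Unit) (D := fun a x => x ⊆ (a ()).toZFSet)
        (W := fun _ x y => φ.Realize ![x, y]) (Df.subSO () ()) hW (fun _ => some 0) none none).and ?_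
      refine Df.exS (P := fun p a s => (∀ q : ZFSet.{u}, q ∈ p ↔ q = s (some none)) ∧
        ZFSet.pair (s none) (a none).toZFSet ∈ p) (Df.and ?_ (Df.pairSO (some none) none none))
      exact Df.allS (P := fun q _ s => q ∈ s none ↔ q = s (some (some none)))
        ((Df.memS none (some none)).iff (Df.eqS none (some (some (some none)))))
    refine ordDef_of_df hQ (fun _ => ω) _ fun G => ?_
    have key : ∀ z : ZFSet.{u}, (∃ x, x ⊆ (ω : Ordinal.{u}).toZFSet ∧ ∃ γ : Ordinal.{u},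
          Rk (fun x => x ⊆ (ω : Ordinal.{u}).toZFSet) (fun x y => φ.Realize ![x, y]) x γ ∧
          ∃ p : ZFSet.{u}, (∀ q : ZFSet.{u}, q ∈ p ↔ q = z) ∧ ZFSet.pair x γ.toZFSet ∈ p) ↔
        ∃ x, x ⊆ (ω : Ordinal.{u}).toZFSet ∧ z = ZFSet.pair x (r x).toZFSet := by
      intro z
      constructor
      · rintro ⟨x, hx, γ, hγ, p, hp, hp2⟩
        have h2 := (hp _).1 hp2
        have h3 : γ = r x := Rk.unique (D := fun x => x ⊆ (ω : Ordinal.{u}).toZFSet)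
          (W := fun x y => φ.Realize ![x, y]) hφ hγ (hr x hx)
        rw [h3] at h2
        exact ⟨x, hx, h2.symm⟩
      · rintro ⟨x, hx, rfl⟩
        exact ⟨x, hx, r x, hr x hx, {ZFSet.pair x (r x).toZFSet}, fun q => ZFSet.mem_singleton,
          ZFSet.mem_singleton.2 rfl⟩
    have key2 : ∀ z : ZFSet.{u}, z ∈ ZFSet.range (fun x : {x : ZFSet.{u} //
        x ⊆ (ω : Ordinal.{u}).toZFSet} => ZFSet.pair x.1 (r x.1).toZFSet) ↔
        ∃ x, x ⊆ (ω : Ordinal.{u}).toZFSet ∧ z = ZFSet.pair x (r x).toZFSet := by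
      intro z
      rw [ZFSet.mem_range]
      constructor
      · rintro ⟨⟨x, hx⟩, rfl⟩
        exact ⟨x, hx, rfl⟩
      · rintro ⟨x, hx, rfl⟩
        exact ⟨⟨x, hx⟩, rfl⟩
    constructor
    · intro h2
      ext z
      rw [key2 z]
      exact (h2 z).trans (key z)
    · rintro rfl z
      rw [key2 z]
      exact (key z).symm
  · intro z
    rw [ZFSet.mem_range]
    constructor
    · rintro ⟨⟨x, hx⟩, rfl⟩
      exact ⟨x, hx, rfl⟩
    · rintro ⟨x, hx, rfl⟩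
      exact ⟨⟨x, hx⟩, rfl⟩
  · intro γ
    have hs : Subsingleton {x : ZFSet.{u} // x ⊆ (ω : Ordinal.{u}).toZFSet ∧ r x = γ} :=
      ⟨fun x y => Subtype.ext (hinj _ _ x.2.1 y.2.1 (x.2.2.trans y.2.2.symm))⟩
    refine (Cardinal.mk_le_one_iff_set_subsingleton.2 ?_).trans
      (Cardinal.one_lt_aleph0.le.trans (Cardinal.aleph0_le_aleph 1))
    exact Set.subsingleton_coe _ |>.1 hs

theorem few_of_fib (H : ∃ (G : ZFSet.{u}) (r : ZFSet.{u} → Ordinal.{u}),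
    OrdDef ∅ G ∧ (∀ z, z ∈ G ↔ ∃ x, x ⊆ (ω : Ordinal.{u}).toZFSet ∧
      z = ZFSet.pair x (r x).toZFSet) ∧
    ∀ γ, #{x : ZFSet.{u} // x ⊆ (ω : Ordinal.{u}).toZFSet ∧ r x = γ} ≤ ℵ_ 1)
    (x : ZFSet.{u}) (hx : x ⊆ (ω : Ordinal.{u}).toZFSet) : Blurry x := by
  obtain ⟨G, r, hG, hGr, hr⟩ := H
  have hmem : ∀ y, y ∈ ZFSet.sep (fun y => r y = r x) (ZFSet.powerset (ω : Ordinal.{u}).toZFSet) ↔
      y ⊆ (ω : Ordinal.{u}).toZFSet ∧ r y = r x := by
    intro y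
    rw [ZFSet.mem_sep, ZFSet.mem_powerset]
  have hpair : ∀ y (γ : Ordinal.{u}), ZFSet.pair y γ.toZFSet ∈ G ↔
      y ⊆ (ω : Ordinal.{u}).toZFSet ∧ r y = γ := by
    intro y γ
    rw [hGr]
    constructor
    · rintro ⟨y', hy', h1⟩
      obtain ⟨h2, h3⟩ := ZFSet.pair_injective h1
      rw [h2]
      exact ⟨hy', (toZFSet_injective h3).symm⟩
    · rintro ⟨hy, rfl⟩
      exact ⟨y, hy, rfl⟩
  refine ⟨ZFSet.sep (fun y => r y = r x) (ZFSet.powerset (ω : Ordinal.{u}).toZFSet), ?_, ?_,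
    (hmem x).2 ⟨hx, rfl⟩⟩
  · obtain ⟨n, P, a, hP, h1⟩ := hG.exists_df
    have hQ : Df (α := Option (Fin n)) (β := Unit) (fun a s => ∃ G, P (fun i => a (some i))
        (fun _ => G) ∧ ∀ y, y ∈ s () ↔ ZFSet.pair y (a none).toZFSet ∈ G) := by
      refine Df.exS (P := fun G a s => P (fun i => a (some i))
        (fun _ => G) ∧ ∀ y, y ∈ s () ↔ ZFSet.pair y (a none).toZFSet ∈ G) ?_
      refine (Df.relabel (α := Option (Fin n)) (β := Option Unit) some (fun _ => none) hP).and ?_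
      exact Df.allS (P := fun y a s => y ∈ s (some ()) ↔ ZFSet.pair y (a none).toZFSet ∈ s none)
        ((Df.memS none (some (some ()))).iff (Df.pairSO none none (some none)))
    refine ordDef_of_df hQ (fun i => match i with
      | none => r x
      | some j => a j) _ fun Z => ?_
    have h1' : ∀ G', P a (fun _ => G') ↔ G' = G := h1
    constructor
    · rintro ⟨G', h2, h3⟩
      have h2' : G' = G := (h1' G').1 h2
      subst h2'
      ext y
      rw [hmem]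
      exact (h3 y).trans (hpair y (r x))
    · rintro rfl
      refine ⟨G, (h1' G).2 rfl, fun y => ?_⟩
      rw [hmem]
      exact (hpair y (r x)).symm
  · rw [← Cardinal.lift_le.{u + 1}, ← ZFSet.cardinalMk_coe_sort, Cardinal.lift_aleph,
      Ordinal.lift_one]
    refine le_trans ?_ (hr (r x))
    exact (Cardinal.mk_congr (Equiv.subtypeEquivRight hmem)).le

/-! ### Projectively stationary sets -/

theorem projStat_of_F {P : ZFSet.{u} → Prop} {F : Ordinal.{u} → Set (Set Ordinal.{u})}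
    (F1 : ∀ γ, ∀ c ∈ F γ, c.Countable ∧ Cof c γ) (F3 : StatIn {γ | (F γ).Nonempty} (ω_ 2))
    (hP : ∀ x γ, Cof (os x) γ → (F γ).Nonempty → P x) : ProjStat P := by
  intro f hf E hE
  have hK : Adm (fun s => {f s}) := fun s =>
    ⟨Set.countable_singleton _, Set.singleton_subset_iff.2 (hf s)⟩
  obtain ⟨δ, N, hN, γ, h1, c, hc, -⟩ := pstat_of_few F1 F3 _ hK E hE
  have hmem : ∀ ν : Ordinal.{u}, ν.toZFSet ∈ ZFSet.sep (fun z => z.rank ∈ N)
      (ω_ 2 : Ordinal.{u}).toZFSet ↔ ν ∈ N := by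
    intro ν
    rw [ZFSet.mem_sep, toZFSet_mem_toZFSet_iff, rank_toZFSet]
    exact ⟨fun h => h.2, fun h => ⟨hN.sub h, h⟩⟩
  have hos : os (ZFSet.sep (fun z => z.rank ∈ N) (ω_ 2 : Ordinal.{u}).toZFSet) = N :=
    Set.ext hmem
  refine ⟨_, hP _ γ (by rw [hos]; exact h1) ⟨c, hc⟩, ZFSet.sep_subset, ?_, ?_, δ, hN.mem, hN.lt,
    ?_⟩
  · refine card_le_of_countable ((hN.cnt.image toZFSet).mono ?_)
    intro z hz
    obtain ⟨h2, h3⟩ := ZFSet.mem_sep.1 hz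
    obtain ⟨ν, hν, rfl⟩ := mem_toZFSet_iff.1 h2
    rw [rank_toZFSet] at h3
    exact ⟨ν, h3, rfl⟩
  · intro l hl
    rw [hmem]
    exact hN.cls l (fun y hy => (hmem y).1 (hl y hy)) rfl
  · intro ξ hξ
    rw [hmem]
    exact hN.tr ξ hξ

theorem proj_of_hasDefWO (h : MM.{u}) (hw : HasDefWO.{u}) :
    ∃ s, OrdDef ∅ s ∧ ProjStat (fun x => x ∈ s) ∧ ProjStat (fun x : ZFSet.{u} => x ∉ s) := by
  classical
  obtain ⟨s, hs, hs1, hs2⟩ := splits_of_hasDefWO h hw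
  rw [Cardinal.ord_aleph] at hs1 hs2
  have hmem : ∀ x, x ∈ ZFSet.sep (fun x => ∃ γ : Ordinal.{u}, γ.toZFSet ∈ s ∧ Cof (os x) γ)
      (ZFSet.powerset (ω_ 2 : Ordinal.{u}).toZFSet) ↔ x ⊆ (ω_ 2 : Ordinal.{u}).toZFSet ∧
        ∃ γ : Ordinal.{u}, γ.toZFSet ∈ s ∧ Cof (os x) γ := by
    intro x
    rw [ZFSet.mem_sep, ZFSet.mem_powerset]
  have hF3 : ∀ Q : Ordinal.{u} → Prop, StatIn {γ : Ordinal.{u} | γ.cof = ℵ₀ ∧ Q γ} (ω_ 2) →
      StatIn {γ | ({c : Set Ordinal.{u} | (c.Countable ∧ Cof c γ) ∧ Q γ}).Nonempty} (ω_ 2) := by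
    intro Q hQ
    refine hQ.mono ?_
    rintro γ ⟨hγ, hγ2⟩
    obtain ⟨ν, hν1, hν2⟩ := seq_cof' hγ
    refine ⟨range ν, ⟨Set.countable_range ν, ?_, ?_⟩, hγ2⟩
    · rintro _ ⟨k, rfl⟩
      exact hν1 k
    · intro β hβ
      obtain ⟨k, hk⟩ := hν2 β hβ
      exact ⟨ν k, ⟨k, rfl⟩, hk⟩
  have hgen : ∀ (Q : Ordinal.{u} → Prop) (P : ZFSet.{u} → Prop),
      StatIn {γ : Ordinal.{u} | γ.cof = ℵ₀ ∧ Q γ} (ω_ 2) →
      (∀ x γ, x ⊆ (ω_ 2 : Ordinal.{u}).toZFSet → Cof (os x) γ → Q γ → P x) → ProjStat P := by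
    intro Q P hQ hP f hf E hE
    obtain ⟨x, hx1, hx2, hx3⟩ := projStat_of_F (P := fun x => ∃ γ, Cof (os x) γ ∧ Q γ)
      (F := fun γ => {c : Set Ordinal.{u} | (c.Countable ∧ Cof c γ) ∧ Q γ})
      (fun γ c hc => hc.1) (hF3 Q hQ) (fun x γ h1 h2 => by
        obtain ⟨c, hc⟩ := h2
        exact ⟨γ, h1, hc.2⟩) f hf E hE
    obtain ⟨γ, h1, h2⟩ := hx1
    exact ⟨x, hP x γ hx2 h1 h2, hx2, hx3⟩
  refine ⟨_, ?_, hgen (fun γ => γ.toZFSet ∈ s) _ hs1 (fun x γ h1 h2 h3 => (hmem x).2 ⟨h1, γ, h3, h2⟩),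
    hgen (fun γ => γ.toZFSet ∉ s) _ hs2 (fun x γ h1 h2 h3 h4 => ?_)⟩
  · obtain ⟨n, P, a, hP, h1⟩ := hs.exists_df
    have hQ : Df (α := Option (Fin n)) (β := Unit) (fun a z => ∃ s, P (fun i => a (some i))
        (fun _ => s) ∧ ∀ x, x ∈ z () ↔ (x ⊆ (a none).toZFSet ∧
          ∃ γ : Ordinal.{u}, γ.toZFSet ∈ s ∧ Cof (os x) γ)) := by
      refine Df.exS (P := fun s a z => P (fun i => a (some i))
        (fun _ => s) ∧ ∀ x, x ∈ z () ↔ (x ⊆ (a none).toZFSet ∧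
          ∃ γ : Ordinal.{u}, γ.toZFSet ∈ s ∧ Cof (os x) γ)) ?_
      refine (Df.relabel (α := Option (Fin n)) (β := Option Unit) some (fun _ => none) hP).and ?_
      refine Df.allS (P := fun x a z => x ∈ z (some ()) ↔ (x ⊆ (a none).toZFSet ∧
          ∃ γ : Ordinal.{u}, γ.toZFSet ∈ z none ∧ Cof (os x) γ)) ?_
      refine (Df.memS none (some (some ()))).iff ((Df.subSO none none).and ?_)
      exact Df.exO (P := fun γ _ z => γ.toZFSet ∈ z (some none) ∧ Cof (os (z none)) γ)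
        ((Df.memO none (some none)).and (df_cof_os none none))
    refine ordDef_of_df hQ (fun i => match i with
      | none => ω_ 2
      | some j => a j) _ fun Z => ?_
    have h1' : ∀ s', P a (fun _ => s') ↔ s' = s := h1
    constructor
    · rintro ⟨s', h2, h3⟩
      have h2' : s' = s := (h1' s').1 h2
      subst h2'
      ext x
      rw [hmem]
      exact h3 x
    · rintro rfl
      refine ⟨s, (h1' s).2 rfl, fun x => ?_⟩
      rw [hmem]
  · obtain ⟨-, γ', h5, h6⟩ := (hmem x).1 h4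
    rw [h6.unique h2] at h5
    exact h3 h5

/-- From functions to closure operations. -/
theorem exists_gd {P : ZFSet.{u} → Prop} (hP : ProjStat P) {K : List Ordinal.{u} → Set Ordinal.{u}}
    (hK : Adm K) {E : Set Ordinal.{u}} (hE : StatIn E (ω_ 1)) :
    ∃ δ x, P x ∧ x ⊆ (ω_ 2 : Ordinal.{u}).toZFSet ∧ Gd K E δ (os x) := by
  classical
  have hk : ∀ s, ∃ k : ℕ → Ordinal.{u}, (∀ n, k n < ω_ 2) ∧ K s ⊆ range k := by
    intro s
    rcases (K s).eq_empty_or_nonempty with h | h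
    · exact ⟨fun _ => 0, fun _ => Ordinal.omega_pos 2, by rw [h]; exact Set.empty_subset _⟩
    · obtain ⟨k, hk⟩ := (hK s).1.exists_eq_range h
      refine ⟨k, fun n => (hK s).2 ?_, hk.le⟩
      rw [hk]
      exact ⟨n, rfl⟩
  choose k hk1 hk2 using hk
  let f : List Ordinal.{u} → Ordinal.{u} := fun l => match l with
    | [] => 0
    | ν :: s => if h : ∃ n : ℕ, (n : Ordinal.{u}) = ν then k s (Classical.choose h) else 0
  have hf : ∀ l, f l < ω_ 2 := by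
    intro l
    cases l with
    | nil => exact Ordinal.omega_pos 2
    | cons ν s =>
      by_cases h : ∃ n : ℕ, (n : Ordinal.{u}) = ν
      · have h1 : f (ν :: s) = k s (Classical.choose h) := dif_pos h
        rw [h1]
        exact hk1 _ _
      · have h1 : f (ν :: s) = 0 := dif_neg h
        rw [h1]
        exact Ordinal.omega_pos 2
  have hlim : Order.IsSuccLimit (ω_ 1 : Ordinal.{u}) :=
    Ordinal.one_lt_cof_iff.1 (one_lt_aleph0.trans aleph0_lt_cof_omega1)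
  have hω : (ω : Ordinal.{u}) < ω_ 1 := Ordinal.omega0_lt_omega_one
  obtain ⟨x, h1, h2, h3, h4, δ, h5, h6, h7⟩ := hP f hf _
    (StatIn.inter_club aleph0_lt_cof_omega1 hE (club_Ioi hlim hω))
  have hδ : ω < δ := h5.2
  refine ⟨δ, x, h1, h2, ⟨?_, ?_, ?_, h5.1, h6, ?_⟩⟩
  · exact (sm_of_card (w := ω) (by rw [Ordinal.card_omega0]; exact h3)).countable
  · exact fun ν hν => toZFSet_mem_toZFSet_iff.1 (h2 hν)
  · intro s hs y hy
    obtain ⟨n, rfl⟩ := hk2 s hy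
    have h8 : ∃ m : ℕ, (m : Ordinal.{u}) = (n : Ordinal.{u}) := ⟨n, rfl⟩
    have h9 : f ((n : Ordinal.{u}) :: s) = k s (Classical.choose h8) := dif_pos h8
    have h10 : Classical.choose h8 = n := Nat.cast_injective (Classical.choose_spec h8)
    rw [h10] at h9
    have h11 := h4 ((n : Ordinal.{u}) :: s) (by
      intro ν hν
      rcases List.mem_cons.1 hν with h | h
      · rw [h]
        have h12 := Ordinal.natCast_lt_omega0.{u} n
        exact (h7 _ (h12.trans hω)).2 (h12.trans hδ)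
      · exact hs ν h)
    rw [h9] at h11
    exact h11
  · exact h7

theorem ordDef_of_proj (h : MM.{u}) {s : ZFSet.{u}} (hs1 : ProjStat (fun x => x ∈ s))
    (hs2 : ProjStat (fun x : ZFSet.{u} => x ∉ s)) {x : ZFSet.{u}}
    (hx : x ⊆ (ω : Ordinal.{u}).toZFSet) : OrdDef s x := by
  let T : (Unit → Ordinal.{u}) → ZFSet.{u} → Set Ordinal.{u} → Prop := fun a s N =>
    ∃ x, x ∈ s ∧ x ⊆ (a ()).toZFSet ∧ ∀ ν : Ordinal.{u}, ν.toZFSet ∈ x ↔ ν ∈ N
  have hT : Df (α := Unit) (β := Bool) (fun a s => T a (s false) {ν | ν.toZFSet ∈ s true}) := by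
    refine Df.exS (P := fun x a z => x ∈ z false ∧ x ⊆ (a ()).toZFSet ∧
      ∀ ν : Ordinal.{u}, ν.toZFSet ∈ x ↔ ν.toZFSet ∈ z true) ?_
    refine (Df.memS none (some false)).and ((Df.subSO none ()).and ?_)
    exact Df.allO (P := fun ν _ z => ν.toZFSet ∈ z none ↔ ν.toZFSet ∈ z (some true))
      ((Df.memO none none).iff (Df.memO none (some true)))
  have hTc : ∀ x, x ⊆ (ω_ 2 : Ordinal.{u}).toZFSet → (T (fun _ => ω_ 2) s (os x) ↔ x ∈ s) := by
    intro x hx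
    constructor
    · rintro ⟨x', h3, h4, h5⟩
      have h6 : x' = x := by
        ext z
        constructor
        · intro hz
          obtain ⟨ν, hν, rfl⟩ := mem_toZFSet_iff.1 (h4 hz)
          exact (h5 ν).1 hz
        · intro hz
          obtain ⟨ν, hν, rfl⟩ := mem_toZFSet_iff.1 (hx hz)
          exact (h5 ν).2 hz
      rw [← h6]
      exact h3
    · intro h2
      exact ⟨x, h2, hx, fun ν => Iff.rfl⟩
  refine ordDef_of_pstat h (T := T) hT (fun _ => ω_ 2) s ?_ ?_ hx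
  · intro K hK E hE
    obtain ⟨δ, x, h2, h3, h4⟩ := exists_gd hs1 hK hE
    exact ⟨δ, os x, h4, (hTc x h3).2 h2⟩
  · intro K hK E hE
    obtain ⟨δ, x, h2, h3, h4⟩ := exists_gd hs2 hK hE
    exact ⟨δ, os x, h4, fun h5 => h2 ((hTc x h3).1 h5)⟩

/-- The main theorem. -/
theorem main (h : MM.{u}) : List.TFAE [
    HasDefWO.{u},
    ∃ (G : ZFSet.{u}) (r : ZFSet.{u} → Ordinal.{u}), OrdDef ∅ G ∧
      (∀ z, z ∈ G ↔ ∃ x, x ⊆ (ω : Ordinal.{u}).toZFSet ∧ z = ZFSet.pair x (r x).toZFSet) ∧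
      ∀ γ, #{x : ZFSet.{u} // x ⊆ (ω : Ordinal.{u}).toZFSet ∧ r x = γ} ≤ ℵ_ 1,
    ∀ x : ZFSet.{u}, x ⊆ (ω : Ordinal.{u}).toZFSet → Blurry x,
    ∀ x : ZFSet.{u}, x ⊆ (ω : Ordinal.{u}).toZFSet → ∃ A, Blurry A ∧ OrdDef A x,
    StatIn {γ : Ordinal.{u} | γ.cof = ℵ₀ ∧ ∃ c, Blurry c ∧ CtbCof c γ} (ω_ 2),
    ∃ s, Blurry s ∧ ProjStat (fun x => x ∈ s) ∧ ProjStat (fun x : ZFSet.{u} => x ∉ s)] := by
  tfae_have 1 → 2 := fib_of_hasDefWO
  tfae_have 2 → 3 := few_of_fib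
  tfae_have 3 → 5 := stat_of_few h
  tfae_have 5 → 1 := hasDefWO_of_stat h
  tfae_have 1 → 6 := by
    intro hw
    obtain ⟨s, hs, h1, h2⟩ := proj_of_hasDefWO h hw
    exact ⟨s, blurry_of_ordDef hs, h1, h2⟩
  tfae_have 6 → 4 := by
    rintro ⟨s, hs, h1, h2⟩ x hx
    exact ⟨s, hs, ordDef_of_proj h h1 h2 hx⟩
  tfae_have 4 → 3 := by
    intro H x hx
    obtain ⟨A, hA, hx⟩ := H x hx
    exact hA.ordDef hx
  tfae_finish

end Pool.Agent.Helper97.FP
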