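import Pool.Agent.Helper56.MW.Defs

/-!
# Definitions for the statement
-/

open FirstOrder FirstOrder.Language Ordinal Cardinal Set Helper23.Pcf

universe u v

namespace Pool.Agent.Helper97.FP

open Pool.Agent.Helper56.MW (OrdDef)

/-- `x` is blurrily ordinal definable: it belongs to an ordinal definable set with at most `ℵ₁`
elements. -/
def Blurry (x : ZFSet.{u}) : Prop :=
  ∃ Z : ZFSet.{u}, OrdDef ∅ Z ∧ Z.card ≤ ℵ_ 1 ∧ x ∈ Z

/-- The set `c` is a countable cofinal subset of the ordinal `γ`. -/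
structure CtbCof (c : ZFSet.{u}) (γ : Ordinal.{u}) : Prop where
  sub : c ⊆ γ.toZFSet
  ctb : c.card ≤ ℵ₀
  cof : ∀ β < γ, ∃ ν : Ordinal.{u}, β < ν ∧ ν.toZFSet ∈ c

/-- The countable subsets `x` of `ω₂` with the property `P` form a projectively stationary set: for
every function `f` from finite sequences of ordinals to `ω₂` and every stationary set `E ⊆ ω₁` there
is a countable `x ⊆ ω₂` with the property `P` which is closed under `f` and whose intersection with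
`ω₁` is an ordinal `δ ∈ E`. -/
def ProjStat (P : ZFSet.{u} → Prop) : Prop :=
  ∀ f : List Ordinal.{u} → Ordinal.{u}, (∀ l, f l < ω_ 2) → ∀ E : Set Ordinal.{u},
    StatIn E (ω_ 1) → ∃ x : ZFSet.{u}, P x ∧ x ⊆ (ω_ 2 : Ordinal.{u}).toZFSet ∧ x.card ≤ ℵ₀ ∧
      (∀ l : List Ordinal.{u}, (∀ ν ∈ l, ν.toZFSet ∈ x) → (f l).toZFSet ∈ x) ∧
      ∃ δ ∈ E, δ < ω_ 1 ∧ ∀ ξ < ω_ 1, (ξ.toZFSet ∈ x ↔ ξ < δ)

end Pool.Agent.Helper97.FP
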