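import Pool.Agent.Helper56.MW.Defs
import Pool.Agent.Helper56.MW.A1
import Pool.Agent.Helper56.MW.A5
import Pool.Agent.Helper56.MW.B6

/-!
# Projectively stationary predicates on countable subsets of `ω₂`
-/

open FirstOrder FirstOrder.Language Ordinal Cardinal Set Helper23.Pcf

universe u v

namespace Pool.Agent.Helper97.FP

/-- The set `N` of ordinals is closed under the operation `K` on finite sequences. -/
def Cls (K : List Ordinal.{u} → Set Ordinal.{u}) (N : Set Ordinal.{u}) : Prop :=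
  ∀ s : List Ordinal.{u}, (∀ y ∈ s, y ∈ N) → K s ⊆ N

/-- The values of `K` are countable sets of ordinals below `ω₂`. -/
def Adm (K : List Ordinal.{u} → Set Ordinal.{u}) : Prop :=
  ∀ s, (K s).Countable ∧ K s ⊆ Iio (ω_ 2)

/-- `N` is a countable subset of `ω₂`, closed under `K`, whose trace on `ω₁` is `δ ∈ E`. -/
structure Gd (K : List Ordinal.{u} → Set Ordinal.{u}) (E : Set Ordinal.{u}) (δ : Ordinal.{u})
    (N : Set Ordinal.{u}) : Prop where
  cnt : N.Countable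
  sub : N ⊆ Iio (ω_ 2)
  cls : Cls K N
  mem : δ ∈ E
  lt : δ < ω_ 1
  tr : ∀ ξ < ω_ 1, (ξ ∈ N ↔ ξ < δ)

/-- `T` is projectively stationary. -/
def PStat (T : Set Ordinal.{u} → Prop) : Prop :=
  ∀ K, Adm K → ∀ E, StatIn E (ω_ 1) → ∃ δ N, Gd K E δ N ∧ T N

/-- `c` is a cofinal subset of `γ`. -/
def Cof (c : Set Ordinal.{u}) (γ : Ordinal.{u}) : Prop :=
  (∀ ν ∈ c, ν < γ) ∧ ∀ β < γ, ∃ ν ∈ c, β < ν

/-- `g` maps `w` onto `η`. -/
def Enum (w η : Ordinal.{u}) (g : Ordinal.{u} → Ordinal.{u}) : Prop :=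
  (∀ ξ < w, g ξ < η) ∧ ∀ ν < η, ∃ ξ < w, g ξ = ν

/-- The subset `x` of `w` represents the trace of `T` on `η`. -/
def Rt (w : Ordinal.{u}) (T : Set Ordinal.{u} → Prop) (η : Ordinal.{u}) (x : ZFSet.{u}) : Prop :=
  ∃ g, Enum w η g ∧ ∀ ξ < w, (ξ.toZFSet ∈ x ↔ T (g '' Iio ξ))

/-! ### The forcing notion -/

/-- `f` is a condition of length `δ`: a sequence of ordinals below `ω₂` such that the sets
`{f ζ | ζ < ξ}` for limit `ξ ≤ δ` follow the pattern `A` through `T`. -/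
structure IsCond (T : Set Ordinal.{u} → Prop) (A : Set Ordinal.{u}) (δ : Ordinal.{u})
    (f : Ordinal.{u} → Ordinal.{u}) : Prop where
  lt : δ < ω_ 1
  zero : ∀ ξ, δ ≤ ξ → f ξ = 0
  bdd : ∀ ξ, ξ < δ → f ξ < ω_ 2
  pat : ∀ ξ ≤ δ, Order.IsSuccLimit ξ → (T (f '' Iio ξ) ↔ ξ ∈ A)

/-- The forcing notion. -/
def Cond (T : Set Ordinal.{u} → Prop) (A : Set Ordinal.{u}) : Type (u + 1) :=
  {x : Ordinal.{u} × (Ordinal.{u} → Ordinal.{u}) // IsCond T A x.1 x.2}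

namespace Cond

variable {T : Set Ordinal.{u} → Prop} {A : Set Ordinal.{u}}

/-- The length. -/
def len (p : Cond T A) : Ordinal.{u} := p.1.1

/-- The sequence. -/
def fn (p : Cond T A) : Ordinal.{u} → Ordinal.{u} := p.1.2

/-- The range. -/
def ran (p : Cond T A) : Set Ordinal.{u} := p.fn '' Iio p.len

theorem isCond (p : Cond T A) : IsCond T A p.len p.fn := p.2

instance : Preorder (Cond T A) where
  le q p := p.len ≤ q.len ∧ ∀ ξ < p.len, q.fn ξ = p.fn ξ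
  le_refl p := ⟨le_rfl, fun _ _ => rfl⟩
  le_trans a b c h1 h2 :=
    ⟨h2.1.trans h1.1, fun ξ hξ => (h1.2 ξ (hξ.trans_le h2.1)).trans (h2.2 ξ hξ)⟩

theorem le_def {q p : Cond T A} : q ≤ p ↔ p.len ≤ q.len ∧ ∀ ξ < p.len, q.fn ξ = p.fn ξ :=
  Iff.rfl

/-- The condition obtained by a list of steps (the last step is the head). -/
def run (p₀ : Cond T A) (F : Cond T A → Ordinal.{u} → Cond T A) :
    List Ordinal.{u} → Cond T A
  | [] => p₀
  | β :: t => F (run p₀ F t) β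

end Cond

end Pool.Agent.Helper97.FP

/-!
# The forcing notion: smallness, density, preservation of stationary sets
-/

namespace Pool.Agent.Helper97.FP

open Pool.Agent.Helper56.MW (aleph0_lt_cof_omega1 stat_iUnion club_closure MM
  PreservesStat ForcesClub GenericFor MM.small)

/-! ### Basic facts -/

private theorem seq_cof {γ : Ordinal.{u}} (h : γ.cof = ℵ₀) :
    ∃ ν : ℕ → Ordinal.{u}, (∀ n, ν n < γ) ∧ ∀ ζ < γ, ∃ n, ζ < ν n := by
  have hlim : Order.IsSuccLimit γ := Ordinal.one_lt_cof_iff.1 (h ▸ Cardinal.one_lt_aleph0)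
  obtain ⟨e, he⟩ := Ordinal.exists_isFundamentalSeq (o := γ) rfl
  have hord : γ.cof.ord = ω := by rw [h, Cardinal.ord_aleph0]
  have hn : ∀ n : ℕ, (n : Ordinal.{u}) < γ.cof.ord := by
    intro n
    rw [hord]
    exact Ordinal.natCast_lt_omega0 n
  refine ⟨fun n => Order.succ (e ⟨n, hn n⟩).1, fun n => hlim.succ_lt (e ⟨n, hn n⟩).2,
    fun ζ hζ => ?_⟩
  obtain ⟨_, ⟨j, rfl⟩, hj⟩ := he.isCofinal_range ⟨ζ, hζ⟩
  have hj2 : j.1 < ω := lt_of_lt_of_eq (Set.mem_Iio.1 j.2) hord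
  obtain ⟨n, hn2⟩ := Ordinal.lt_omega0.1 hj2
  refine ⟨n, lt_of_le_of_lt hj ?_⟩
  have hjn : j = ⟨(n : Ordinal.{u}), hn n⟩ := Subtype.ext hn2
  rw [hjn]
  exact Order.lt_succ _

theorem card_le_aleph0 {δ : Ordinal.{u}} (hδ : δ < ω_ 1) : δ.card ≤ ℵ₀ := by
  have h1 : δ.card < ℵ_ 1 := by
    rw [← Cardinal.ord_aleph] at hδ
    exact Cardinal.lt_ord.1 hδ
  rwa [← Cardinal.succ_aleph0, Order.lt_succ_iff] at h1

theorem iio_countable {δ : Ordinal.{u}} (hδ : δ < ω_ 1) : (Iio δ).Countable := by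
  have h : #(Iio δ) ≤ ℵ₀ := by
    rw [Cardinal.mk_Iio_ordinal, Cardinal.lift_le_aleph0]
    exact card_le_aleph0 hδ
  exact Cardinal.le_aleph0_iff_set_countable.1 h

theorem cof_countable {δ : Ordinal.{u}} (hδ : δ < ω_ 1) (hlim : Order.IsSuccLimit δ) :
    δ.cof = ℵ₀ := by
  apply le_antisymm
  · exact (Ordinal.cof_le_card δ).trans (card_le_aleph0 hδ)
  · exact Ordinal.aleph0_le_cof_iff.2 (Ordinal.one_lt_cof_iff.2 hlim)

/-- A countable ordinal that is a limit is the limit of a sequence. -/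
theorem seq_of_limit {δ : Ordinal.{u}} (hδ : δ < ω_ 1) (hlim : Order.IsSuccLimit δ) :
    ∃ x : ℕ → Ordinal.{u}, (∀ n, x n < δ) ∧ ∀ ζ < δ, ∃ n, ζ < x n :=
  seq_cof (cof_countable hδ hlim)

namespace Cond

variable {T : Set Ordinal.{u} → Prop} {A : Set Ordinal.{u}}

instance : Nonempty (Cond T A) := by
  refine ⟨⟨(0, fun _ => 0), ⟨Ordinal.omega_pos 1, fun _ _ => rfl, ?_, ?_⟩⟩⟩
  · intro ξ _
    exact Ordinal.omega_pos 2
  · intro ξ hξ hlim
    have h0 : ξ = 0 := le_antisymm hξ bot_le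
    subst h0
    exact absurd hlim Order.not_isSuccLimit_bot

instance small : Small.{u} (Cond T A) := by
  have hb : ∀ (p : Cond T A) (ξ : Ordinal.{u}), p.fn ξ < ω_ 2 := by
    intro p ξ
    rcases lt_or_ge ξ p.len with h | h
    · exact p.isCond.bdd ξ h
    · have h0 : p.fn ξ = 0 := p.isCond.zero ξ h
      rw [h0]
      exact Ordinal.omega_pos 2
  let F : Cond T A → Iio (ω_ 1 : Ordinal.{u}) ×
      (Iio (ω_ 1 : Ordinal.{u}) → Iio (ω_ 2 : Ordinal.{u})) :=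
    fun p => (⟨p.len, p.isCond.lt⟩, fun ξ => ⟨p.fn ξ.1, hb p ξ.1⟩)
  refine small_of_injective (f := F) ?_
  intro p q h
  have h1 : p.len = q.len := congrArg (fun x => x.1.1) h
  have h2 : ∀ ξ : Ordinal.{u}, ξ < ω_ 1 → p.fn ξ = q.fn ξ := by
    intro ξ hξ
    exact congrArg (fun x => (x.2 ⟨ξ, hξ⟩).1) h
  refine Subtype.ext (Prod.ext h1 (funext fun ξ => ?_))
  rcases lt_or_ge ξ (ω_ 1) with h3 | h3
  · exact h2 ξ h3
  · have h4 : p.fn ξ = 0 := p.isCond.zero ξ (p.isCond.lt.le.trans h3)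
    have h5 : q.fn ξ = 0 := q.isCond.zero ξ (q.isCond.lt.le.trans h3)
    exact h4.trans h5.symm

theorem ran_countable (p : Cond T A) : p.ran.Countable :=
  (iio_countable p.isCond.lt).image _

theorem ran_sub (p : Cond T A) : p.ran ⊆ Iio (ω_ 2) := by
  rintro _ ⟨ξ, hξ, rfl⟩
  exact p.isCond.bdd ξ hξ

/-- The initial images of a longer condition are the same. -/
theorem image_eq {p q : Cond T A} (h : q ≤ p) {ξ : Ordinal.{u}} (hξ : ξ ≤ p.len) :
    q.fn '' Iio ξ = p.fn '' Iio ξ := by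
  refine Set.image_congr fun ζ hζ => ?_
  exact (le_def.1 h).2 ζ (lt_of_lt_of_le hζ hξ)

theorem ran_mono {p q : Cond T A} (h : q ≤ p) : p.ran ⊆ q.ran := by
  rintro _ ⟨ξ, hξ, rfl⟩
  exact ⟨ξ, lt_of_lt_of_le hξ (le_def.1 h).1, (le_def.1 h).2 ξ hξ⟩

/-- Extension by one value. -/
theorem exists_succ (p : Cond T A) {β : Ordinal.{u}} (hβ : β < ω_ 2) :
    ∃ q ≤ p, q.len = p.len + 1 ∧ q.fn p.len = β := by
  classical
  have hlim : Order.IsSuccLimit (ω_ 1 : Ordinal.{u}) :=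
    Ordinal.one_lt_cof_iff.1 (one_lt_aleph0.trans aleph0_lt_cof_omega1)
  have hc : IsCond T A (p.len + 1) (fun ξ => if ξ = p.len then β else p.fn ξ) := by
    refine ⟨hlim.add_one_lt p.isCond.lt, ?_, ?_, ?_⟩
    · intro ξ hξ
      have h1 : p.len < ξ := Order.add_one_le_iff.1 hξ
      simp only [if_neg h1.ne']
      exact p.isCond.zero ξ h1.le
    · intro ξ hξ
      have h1 : ξ ≤ p.len := Order.lt_add_one_iff.1 hξ
      by_cases h2 : ξ = p.len
      · simp only [if_pos h2]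
        exact hβ
      · simp only [if_neg h2]
        exact p.isCond.bdd ξ (lt_of_le_of_ne h1 h2)
    · intro ξ hξ hl
      have h1 : ξ ≤ p.len := by
        rcases hξ.lt_or_eq with h | h
        · exact Order.lt_add_one_iff.1 h
        · exfalso
          rw [h, ← Order.succ_eq_add_one] at hl
          exact Order.not_isSuccLimit_succ _ hl
      rw [← p.isCond.pat ξ h1 hl]
      have h2 : (fun ζ => if ζ = p.len then β else p.fn ζ) '' Iio ξ = p.fn '' Iio ξ := by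
        refine Set.image_congr fun ζ hζ => ?_
        exact if_neg (ne_of_lt (lt_of_lt_of_le hζ h1))
      rw [h2]
  exact ⟨(⟨(p.len + 1, fun ξ => if ξ = p.len then β else p.fn ξ), hc⟩ : Cond T A),
    le_def.2 ⟨(Order.lt_add_one_iff.2 le_rfl).le, fun ξ hξ => if_neg (ne_of_lt hξ)⟩, rfl,
    if_pos rfl⟩

/-- The union of a decreasing sequence of conditions. -/
theorem glue {ξ : Ordinal.{u}} (hξ : ξ < ω_ 1) (hlim : Order.IsSuccLimit ξ) (q : ℕ → Cond T A)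
    (hq : ∀ n, q (n + 1) ≤ q n) (h1 : ∀ n, (q n).len < ξ) (h2 : ∀ ζ < ξ, ∃ n, ζ < (q n).len)
    (hT : T (⋃ n, (q n).ran) ↔ ξ ∈ A) : ∃ r : Cond T A, r.len = ξ ∧ ∀ n, r ≤ q n := by
  classical
  have hmono : ∀ m n, m ≤ n → q n ≤ q m := by
    intro m n hmn
    induction n, hmn using Nat.le_induction with
    | base => exact le_rfl
    | succ n _ ih => exact (hq n).trans ih
  have hval : ∀ m n ζ, ζ < (q m).len → ζ < (q n).len → (q m).fn ζ = (q n).fn ζ := by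
    intro m n ζ hm hn
    rcases le_total m n with h | h
    · exact ((le_def.1 (hmono m n h)).2 ζ hm).symm
    · exact (le_def.1 (hmono n m h)).2 ζ hn
  let f : Ordinal.{u} → Ordinal.{u} := fun ζ =>
    if h : ∃ n, ζ < (q n).len then (q (Nat.find h)).fn ζ else 0
  have hf : ∀ n ζ, ζ < (q n).len → f ζ = (q n).fn ζ := by
    intro n ζ hn
    have h : ∃ n, ζ < (q n).len := ⟨n, hn⟩
    have h3 : f ζ = (q (Nat.find h)).fn ζ := dif_pos h
    rw [h3]
    exact hval _ _ ζ (Nat.find_spec h) hn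
  have him : ∀ n ζ, ζ ≤ (q n).len → f '' Iio ζ = (q n).fn '' Iio ζ := by
    intro n ζ hn
    refine Set.image_congr fun z hz => ?_
    exact hf n z (lt_of_lt_of_le hz hn)
  have hc : IsCond T A ξ f := by
    refine ⟨hξ, ?_, ?_, ?_⟩
    · intro ζ hζ
      have h : ¬ ∃ n, ζ < (q n).len := by
        rintro ⟨n, hn⟩
        exact absurd (hn.trans (h1 n)) (not_lt.2 hζ)
      exact dif_neg h
    · intro ζ hζ
      obtain ⟨n, hn⟩ := h2 ζ hζ
      rw [hf n ζ hn]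
      exact (q n).isCond.bdd ζ hn
    · intro ζ hζ hl
      rcases hζ.lt_or_eq with h | h
      · obtain ⟨n, hn⟩ := h2 ζ h
        rw [him n ζ hn.le]
        exact (q n).isCond.pat ζ hn.le hl
      · subst h
        have h3 : f '' Iio ζ = ⋃ n, (q n).ran := by
          ext y
          constructor
          · rintro ⟨z, hz, rfl⟩
            obtain ⟨n, hn⟩ := h2 z hz
            exact Set.mem_iUnion.2 ⟨n, z, hn, (hf n z hn).symm⟩
          · intro hy
            obtain ⟨n, z, hz, rfl⟩ := Set.mem_iUnion.1 hy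
            exact ⟨z, lt_trans hz (h1 n), hf n z hz⟩
        rw [h3]
        exact hT
  exact ⟨(⟨(ξ, f), hc⟩ : Cond T A), rfl, fun n => le_def.2 ⟨(h1 n).le, fun ζ hζ => hf n ζ hζ⟩⟩

/-! ### Density -/

/-- Runs along an enumeration of a closed set. -/
theorem run_enum {K : List Ordinal.{u} → Set Ordinal.{u}} {N : Set Ordinal.{u}} (hN : Cls K N)
    (hsub : N ⊆ Iio (ω_ 2)) (p₀ : Cond T A) (F : Cond T A → Ordinal.{u} → Cond T A)
    (hF : ∀ p β, F p β ≤ p) (hF1 : ∀ p, ∀ β < ω_ 2, β ∈ (F p β).ran)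
    (hK : ∀ s, (run p₀ F s).ran ⊆ K s) (e : ℕ → Ordinal.{u}) (he : range e = N) :
    ∃ q : ℕ → Cond T A, q 0 = p₀ ∧ (∀ n, q (n + 1) = F (q n) (e n)) ∧ (∀ n, q (n + 1) ≤ q n) ∧
      ⋃ n, (q n).ran = N ∧ ∀ n, ∃ s, (∀ y ∈ s, y ∈ N) ∧ q n = run p₀ F s := by
  have heN : ∀ n, e n ∈ N := fun n => he ▸ ⟨n, rfl⟩
  let L : ℕ → List Ordinal.{u} := fun n => Nat.rec [] (fun k l => e k :: l) n
  have hL0 : L 0 = [] := rfl
  have hLs : ∀ n, L (n + 1) = e n :: L n := fun n => rfl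
  have hLN : ∀ n, ∀ y ∈ L n, y ∈ N := by
    intro n
    induction n with
    | zero =>
      intro y hy
      rw [hL0] at hy
      exact absurd hy (by simp)
    | succ n ih =>
      intro y hy
      rw [hLs] at hy
      rcases List.mem_cons.1 hy with h | h
      · rw [h]
        exact heN n
      · exact ih y h
  refine ⟨fun n => run p₀ F (L n), rfl, fun n => rfl, fun n => hF _ _, ?_, fun n =>
    ⟨L n, hLN n, rfl⟩⟩
  apply Set.Subset.antisymm
  · refine Set.iUnion_subset fun n => ?_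
    exact (hK (L n)).trans (hN (L n) (hLN n))
  · intro y hy
    obtain ⟨n, rfl⟩ : y ∈ range e := he ▸ hy
    exact Set.mem_iUnion.2 ⟨n + 1, hF1 _ (e n) (hsub hy)⟩

theorem stat_limits : StatIn {δ : Ordinal.{u} | Order.IsSuccLimit δ} (ω_ 1) := by
  intro C hC
  have h := club_inter aleph0_lt_cof_omega1.{u} (club_limits aleph0_lt_cof_omega1) hC
  obtain ⟨y, hy, _, hy2⟩ := h.unb 0 (Ordinal.omega_pos 1)
  exact ⟨y, hy.1, hy.2, hy2⟩

/-- Density, for the limit step. -/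
theorem dens_limit (hT : PStat T) (hT' : PStat fun N => ¬ T N) {ξ : Ordinal.{u}} (hξ : ξ < ω_ 1)
    (hlim : Order.IsSuccLimit ξ)
    (ih : ∀ ζ < ξ, ∀ p : Cond T A, p.len < ζ → ∀ β < ω_ 2, ∃ q ≤ p, q.len = ζ ∧ q.fn p.len = β)
    (p : Cond T A) (hp : p.len < ξ) {β : Ordinal.{u}} (hβ : β < ω_ 2) :
    ∃ q ≤ p, q.len = ξ ∧ q.fn p.len = β := by
  classical
  obtain ⟨x, hx1, hx2⟩ := seq_of_limit hξ hlim
  have hstep : ∀ (r : Cond T A) (ν : Ordinal.{u}), ∃ q ≤ r, (ν < ω_ 2 → ν ∈ q.ran) ∧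
      (r.len < ξ → q.len < ξ ∧ ∀ n, (∀ m < n, x m < r.len) → r.len ≤ x n → x n < q.len) := by
    intro r ν
    by_cases hr : r.len < ξ
    · have hex : ∃ n, r.len ≤ x n := by
        obtain ⟨n, hn⟩ := hx2 _ hr
        exact ⟨n, hn.le⟩
      have hl1 : x (Nat.find hex) + 1 < ξ := hlim.add_one_lt (hx1 _)
      have hl2 : r.len < x (Nat.find hex) + 1 := Order.lt_add_one_iff.2 (Nat.find_spec hex)
      obtain ⟨ν', hν', hν2⟩ : ∃ ν' < ω_ 2, ν < ω_ 2 → ν' = ν := by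
        by_cases h : ν < ω_ 2
        · exact ⟨ν, h, fun _ => rfl⟩
        · exact ⟨0, Ordinal.omega_pos 2, fun h' => absurd h' h⟩
      obtain ⟨q, hq1, hq2, hq3⟩ := ih _ hl1 r hl2 ν' hν'
      refine ⟨q, hq1, ?_, ?_⟩
      · intro h
        refine ⟨r.len, ?_, ?_⟩
        · show r.len < q.len
          rw [hq2]
          exact hl2
        · rw [hq3, hν2 h]
      · intro _
        refine ⟨hq2 ▸ hl1, fun n hn1 hn2 => ?_⟩
        have h5 : Nat.find hex = n := by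
          apply le_antisymm
          · exact Nat.find_min' hex hn2
          · by_contra hcon
            exact absurd (Nat.find_spec hex) (not_le.2 (hn1 _ (not_le.1 hcon)))
        rw [hq2, h5]
        exact Order.lt_add_one_iff.2 le_rfl
    · obtain ⟨ν', hν', hν2⟩ : ∃ ν' < ω_ 2, ν < ω_ 2 → ν' = ν := by
        by_cases h : ν < ω_ 2
        · exact ⟨ν, h, fun _ => rfl⟩
        · exact ⟨0, Ordinal.omega_pos 2, fun h' => absurd h' h⟩
      obtain ⟨q, hq1, hq2, hq3⟩ := exists_succ r hν'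
      refine ⟨q, hq1, ?_, fun h => absurd h hr⟩
      intro h
      refine ⟨r.len, ?_, ?_⟩
      · show r.len < q.len
        rw [hq2]
        exact Order.lt_add_one_iff.2 le_rfl
      · rw [hq3, hν2 h]
  choose F hF1 hF2 hF3 using hstep
  obtain ⟨p₀, hp1, hp2, hp3⟩ := exists_succ p hβ
  have hp₀ : p₀.len < ξ := by
    rw [hp2]
    exact hlim.add_one_lt hp
  have hAdm : Adm fun s => (run p₀ F s).ran := fun s => ⟨ran_countable _, ran_sub _⟩
  obtain ⟨δ, N, hG, hTN⟩ : ∃ δ N, Gd (fun s => (run p₀ F s).ran) {δ | Order.IsSuccLimit δ} δ N ∧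
      (T N ↔ ξ ∈ A) := by
    by_cases hA : ξ ∈ A
    · obtain ⟨δ, N, h1, h2⟩ := hT _ hAdm _ stat_limits
      exact ⟨δ, N, h1, fun _ => hA, fun _ => h2⟩
    · obtain ⟨δ, N, h1, h2⟩ := hT' _ hAdm _ stat_limits
      exact ⟨δ, N, h1, fun h => absurd h h2, fun h => absurd h hA⟩
  have hne : N.Nonempty := by
    have hδ : Order.IsSuccLimit δ := hG.mem
    exact ⟨0, (hG.tr 0 (Ordinal.omega_pos 1)).2 hδ.bot_lt⟩
  obtain ⟨e, he⟩ := hG.cnt.exists_eq_range hne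
  obtain ⟨q, hq0, hqs, hqm, hqN, -⟩ := run_enum hG.cls hG.sub p₀ F hF1 hF2
    (fun s => Set.Subset.refl _) e he.symm
  have hql : ∀ n, (q n).len < ξ := by
    intro n
    induction n with
    | zero =>
      rw [hq0]
      exact hp₀
    | succ n ih =>
      rw [hqs]
      exact (hF3 (q n) (e n) ih).1
  have hcf : ∀ m : ℕ, ∃ n, ∀ j < m, x j < (q n).len := by
    intro m
    induction m with
    | zero => exact ⟨0, fun j hj => absurd hj (Nat.not_lt_zero _)⟩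
    | succ m ih2 =>
      obtain ⟨n, hn⟩ := ih2
      by_cases h : x m < (q n).len
      · refine ⟨n, fun j hj => ?_⟩
        rcases (Nat.lt_succ_iff.1 hj).lt_or_eq with h' | h'
        · exact hn j h'
        · rw [h']
          exact h
      · refine ⟨n + 1, fun j hj => ?_⟩
        rcases (Nat.lt_succ_iff.1 hj).lt_or_eq with h' | h'
        · exact (hn j h').trans_le (le_def.1 (hqm n)).1
        · rw [h', hqs]
          exact (hF3 (q n) (e n) (hql n)).2 m hn (not_lt.1 h)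
  have hcf2 : ∀ ζ < ξ, ∃ n, ζ < (q n).len := by
    intro ζ hζ
    obtain ⟨m, hm⟩ := hx2 ζ hζ
    obtain ⟨n, hn⟩ := hcf (m + 1)
    exact ⟨n, hm.trans (hn m (Nat.lt_succ_self m))⟩
  obtain ⟨r, hr1, hr2⟩ := glue hξ hlim q hqm hql hcf2 (by rw [hqN]; exact hTN)
  have hr3 : r ≤ p₀ := hq0 ▸ hr2 0
  refine ⟨r, hr3.trans hp1, hr1, ?_⟩
  rw [← hp3]
  refine (le_def.1 hr3).2 _ ?_
  rw [hp2]
  exact Order.lt_add_one_iff.2 le_rfl

/-- Density. -/
theorem dens (hT : PStat T) (hT' : PStat fun N => ¬ T N) (ξ : Ordinal.{u}) (hξ : ξ < ω_ 1)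
    (p : Cond T A) (hp : p.len < ξ) (β : Ordinal.{u}) (hβ : β < ω_ 2) :
    ∃ q ≤ p, q.len = ξ ∧ q.fn p.len = β := by
  induction ξ using WellFoundedLT.induction generalizing p β with
  | ind ξ ih =>
    rcases Ordinal.zero_or_succ_or_isSuccLimit ξ with h0 | ⟨ζ, h⟩ | h
    · rw [h0] at hp
      exact absurd hp not_lt_bot
    · rw [Order.succ_eq_add_one] at h
      subst h
      have h1 : ζ < ζ + 1 := Order.lt_add_one_iff.2 le_rfl
      rcases (Order.lt_add_one_iff.1 hp).lt_or_eq with h2 | h2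
      · obtain ⟨q, hq1, hq2, hq3⟩ := ih ζ h1 (h1.trans hξ) p h2 β hβ
        obtain ⟨r, hr1, hr2, -⟩ := exists_succ q (Ordinal.omega_pos 2)
        refine ⟨r, hr1.trans hq1, by rw [hr2, hq2], ?_⟩
        rw [(le_def.1 hr1).2 p.len (hq2 ▸ h2)]
        exact hq3
      · obtain ⟨q, hq1, hq2, hq3⟩ := exists_succ p hβ
        exact ⟨q, hq1, by rw [hq2, h2], hq3⟩
    · exact dens_limit hT hT' hξ h (fun ζ hζ p hp β hβ => ih ζ hζ (hζ.trans hξ) p hp β hβ) p hp hβ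

/-! ### Preservation of stationary sets -/

/-- The ordinal added in the last step. -/
private def val (p₀ : Cond T A) (F : Cond T A → Ordinal.{u} → Cond T A)
    (a : Cond T A → Ordinal.{u} → Ordinal.{u}) : List Ordinal.{u} → Ordinal.{u}
  | [] => 0
  | β :: t => a (run p₀ F t) β

/-- Preservation of stationary sets. -/
theorem preserves (hT : PStat T) (hT' : PStat fun N => ¬ T N) :
    PreservesStat.{u} (Cond T A) := by
  classical
  intro E hE p N hN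
  have hom : ℵ₀ < (ω_ 1 : Ordinal.{u}).cof := aleph0_lt_cof_omega1
  have hlim : Order.IsSuccLimit (ω_ 1 : Ordinal.{u}) :=
    Ordinal.one_lt_cof_iff.1 (one_lt_aleph0.trans hom)
  have h12 : (ω_ 1 : Ordinal.{u}) < ω_ 2 := Ordinal.omega_lt_omega.2 (by norm_num)
  -- one step
  have hstep : ∀ (r : Cond T A) (ν : Ordinal.{u}), ∃ x : Cond T A × Ordinal.{u}, x.1 ≤ r ∧
      (ν < ω_ 2 → ν ∈ x.1.ran) ∧ x.2 < ω_ 1 ∧
      (r ≤ p → (ν < ω_ 1 → ν < x.1.len) ∧ r.len < x.2 ∧ N x.1 x.2) := by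
    intro r ν
    obtain ⟨ν', hν', hν2⟩ : ∃ ν' < ω_ 2, ν < ω_ 2 → ν' = ν := by
      by_cases h : ν < ω_ 2
      · exact ⟨ν, h, fun _ => rfl⟩
      · exact ⟨0, Ordinal.omega_pos 2, fun h' => absurd h' h⟩
    by_cases hr : r ≤ p
    · obtain ⟨ζ, hζ1, hζ2, hζ3⟩ : ∃ ζ < ω_ 1, r.len < ζ ∧ (ν < ω_ 1 → ν < ζ) := by
        by_cases h : ν < ω_ 1
        · exact ⟨max (r.len + 1) (ν + 1), max_lt (hlim.add_one_lt r.isCond.lt)
            (hlim.add_one_lt h), lt_max_of_lt_left (Order.lt_add_one_iff.2 le_rfl),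
            fun _ => lt_max_of_lt_right (Order.lt_add_one_iff.2 le_rfl)⟩
        · exact ⟨r.len + 1, hlim.add_one_lt r.isCond.lt, Order.lt_add_one_iff.2 le_rfl,
            fun h' => absurd h' h⟩
      obtain ⟨q1, hq1, hq1l, hq1f⟩ := dens hT hT' ζ hζ1 r hζ2 ν' hν'
      obtain ⟨q, hq, β, hβ, hβ2, hNq⟩ := hN.unbounded q1 (hq1.trans hr) r.len r.isCond.lt
      refine ⟨(q, β), hq.trans hq1, ?_, hβ, fun _ => ⟨fun h => ?_, hβ2, hNq⟩⟩
      · intro h
        refine ran_mono hq ⟨r.len, ?_, ?_⟩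
        · show r.len < q1.len
          rw [hq1l]
          exact hζ2
        · rw [hq1f, hν2 h]
      · refine (hζ3 h).trans_le ?_
        rw [← hq1l]
        exact (le_def.1 hq).1
    · obtain ⟨q, hq1, hq2, hq3⟩ := exists_succ r hν'
      refine ⟨(q, 0), hq1, ?_, Ordinal.omega_pos 1, fun h => absurd h hr⟩
      intro h
      refine ⟨r.len, ?_, ?_⟩
      · show r.len < q.len
        rw [hq2]
        exact Order.lt_add_one_iff.2 le_rfl
      · rw [hq3, hν2 h]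
  choose G hG1 hG2 hG3 hG4 using hstep
  let F : Cond T A → Ordinal.{u} → Cond T A := fun r ν => (G r ν).1
  let a : Cond T A → Ordinal.{u} → Ordinal.{u} := fun r ν => (G r ν).2
  let K : List Ordinal.{u} → Set Ordinal.{u} := fun s =>
    (run p F s).ran ∪ {(run p F s).len, val p F a s}
  have hval : ∀ s, val p F a s < ω_ 2 := by
    intro s
    cases s with
    | nil => exact Ordinal.omega_pos 2
    | cons β t => exact (hG3 (run p F t) β).trans h12
  have hAdm : Adm K := by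
    intro s
    refine ⟨(ran_countable _).union (Set.toFinite _).countable, ?_⟩
    refine Set.union_subset (ran_sub _) ?_
    rintro y (h | h)
    · rw [h]
      exact (run p F s).isCond.lt.trans h12
    · rw [Set.mem_singleton_iff] at h
      rw [h]
      exact hval s
  -- the stationary part
  obtain ⟨E', b, hE', hEE, hEb⟩ : ∃ (E' : Set Ordinal.{u}) (b : Prop), StatIn E' (ω_ 1) ∧
      E' ⊆ E ∧ ∀ δ ∈ E', (δ ∈ A ↔ b) := by
    have h2 : StatIn ((E ∩ A) ∪ (E \ A)) (ω_ 1) := by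
      rw [Set.inter_union_sdiff]
      exact hE
    rcases h2.union hom with h3 | h3
    · exact ⟨_, True, h3, fun x hx => hx.1, fun x hx => ⟨fun _ => trivial, fun _ => hx.2⟩⟩
    · exact ⟨_, False, h3, fun x hx => hx.1, fun x hx => ⟨fun h => hx.2 h, fun h => h.elim⟩⟩
  have hE'' := StatIn.inter_club hom hE' (club_limits hom)
  obtain ⟨δ, M, hM, hTM⟩ : ∃ δ M, Gd K (E' ∩ {i | Order.IsSuccLimit i}) δ M ∧
      (T M ↔ δ ∈ A) := by
    by_cases hb : b
    · obtain ⟨δ, M, h1, h2⟩ := hT _ hAdm _ hE''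
      exact ⟨δ, M, h1, fun _ => (hEb δ h1.mem.1).2 hb, fun _ => h2⟩
    · obtain ⟨δ, M, h1, h2⟩ := hT' _ hAdm _ hE''
      exact ⟨δ, M, h1, fun h => absurd h h2, fun h => absurd ((hEb δ h1.mem.1).1 h) hb⟩
  have hδlim : Order.IsSuccLimit δ := hM.mem.2
  obtain ⟨e, he⟩ := hM.cnt.exists_eq_range ⟨0, (hM.tr 0 (Ordinal.omega_pos 1)).2 hδlim.bot_lt⟩
  obtain ⟨q, hq0, hqs, hqm, hqN, hqL⟩ := run_enum hM.cls hM.sub p F hG1 hG2
    (fun s => Set.subset_union_left) e he.symm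
  have hqp : ∀ n, q n ≤ p := by
    intro n
    induction n with
    | zero => exact le_of_eq hq0
    | succ n ih => exact (hqm n).trans ih
  have hlen : ∀ n, (q n).len < δ := by
    intro n
    obtain ⟨s, hs, hsq⟩ := hqL n
    refine (hM.tr _ (q n).isCond.lt).1 (hM.cls s hs ?_)
    rw [hsq]
    exact Or.inr (Or.inl rfl)
  have heM : ∀ n, e n ∈ M := fun n => he ▸ ⟨n, rfl⟩
  have hval2 : ∀ n, a (q n) (e n) < δ := by
    intro n
    obtain ⟨s, hs, hsq⟩ := hqL n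
    refine (hM.tr _ (hG3 _ _)).1 (hM.cls (e n :: s) ?_ ?_)
    · intro y hy
      rcases List.mem_cons.1 hy with h | h
      · rw [h]
        exact heM n
      · exact hs y h
    · rw [hsq]
      exact Or.inr (Or.inr rfl)
  have hcof : ∀ ζ < δ, ∃ n, ζ < (q n).len := by
    intro ζ hζ
    obtain ⟨n, hn⟩ : ζ ∈ range e := he ▸ (hM.tr ζ (hζ.trans hM.lt)).2 hζ
    refine ⟨n + 1, ?_⟩
    rw [hqs, hn]
    exact (hG4 (q n) ζ (hqp n)).1 (hζ.trans hM.lt)
  obtain ⟨r, hr1, hr2⟩ := glue hM.lt hδlim q hqm hlen hcof (by rw [hqN]; exact hTM)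
  have hrp : r ≤ p := (hr2 0).trans (hqp 0)
  obtain ⟨s, hs, hNs⟩ := hN.closed r hrp δ hM.lt hδlim.bot_lt (by
    intro α hα r' hr'
    obtain ⟨n, hn⟩ := hcof α hα
    have h3 := hG4 (q n) (e n) (hqp n)
    refine ⟨r', le_rfl, a (q n) (e n), hval2 n, hn.trans h3.2.1, ?_⟩
    refine hN.mono r' (q (n + 1)) _ (hr'.trans (hr2 (n + 1))) ?_
    rw [hqs]
    exact h3.2.2) r le_rfl
  exact ⟨s, hs.trans hrp, δ, hEE hM.mem.1, hM.lt, hNs⟩

end Cond

/-! ### The coding theorem -/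

theorem card_iio_le {β : Ordinal.{u}} (hβ : β < ω_ 2) : #(Iio β) ≤ #(Iio (ω_ 1 : Ordinal.{u})) := by
  have h1 : β.card < ℵ_ 2 := by
    rw [← Cardinal.ord_aleph] at hβ
    exact Cardinal.lt_ord.1 hβ
  have h2 : (ℵ_ 2 : Cardinal.{u}) = Order.succ (ℵ_ 1) := by
    rw [Cardinal.succ_aleph, one_add_one_eq_two]
  rw [h2, Order.lt_succ_iff] at h1
  rw [Cardinal.mk_Iio_ordinal, Cardinal.mk_Iio_ordinal, Cardinal.lift_le, Ordinal.card_omega]
  exact h1

/-- A family of enumerations. -/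
theorem exists_enum : ∃ e : Ordinal.{u} → Ordinal.{u} → Ordinal.{u},
    (∀ β < ω_ 2, ∀ ν, e β ν < ω_ 2) ∧ ∀ β < ω_ 2, ∀ α < β, ∃ ν < ω_ 1, e β ν = α := by
  classical
  have h : ∀ β : Ordinal.{u}, ∃ f : Ordinal.{u} → Ordinal.{u}, β < ω_ 2 →
      (∀ ν, f ν < ω_ 2) ∧ ∀ α < β, ∃ ν < ω_ 1, f ν = α := by
    intro β
    by_cases hβ : β < ω_ 2
    · obtain ⟨i⟩ := (Cardinal.le_def _ _).1 (card_iio_le hβ)
      refine ⟨fun ν => if h : ∃ α : Iio β, (i α).1 = ν then (Classical.choose h).1 else 0,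
        fun _ => ⟨fun ν => ?_, fun α hα => ?_⟩⟩
      · by_cases h : ∃ α : Iio β, (i α).1 = ν
        · simp only [dif_pos h]
          exact lt_trans (Classical.choose h).2 hβ
        · simp only [dif_neg h]
          exact Ordinal.omega_pos 2
      · have h : ∃ α' : Iio β, (i α').1 = (i ⟨α, hα⟩).1 := ⟨⟨α, hα⟩, rfl⟩
        refine ⟨(i ⟨α, hα⟩).1, (i ⟨α, hα⟩).2, ?_⟩
        have h2 : Classical.choose h = ⟨α, hα⟩ :=
          i.injective (Subtype.ext (Classical.choose_spec h))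
        simp only [dif_pos h, h2]
    · exact ⟨fun _ => 0, fun h => absurd h hβ⟩
  choose e he using h
  exact ⟨e, fun β hβ ν => (he β hβ).1 ν, fun β hβ α hα => (he β hβ).2 α hα⟩

/-- A pairing function. -/
theorem exists_pairing : ∃ a b : Ordinal.{u} → Ordinal.{u}, (∀ i < ω_ 1, a i < ω_ 1 ∧ b i < ω_ 1) ∧
    ∀ ξ < ω_ 1, ∀ ν < ω_ 1, ∃ i < ω_ 1, a i = ξ ∧ b i = ν := by
  classical
  have h0 : ℵ₀ ≤ #(Iio (ω_ 1 : Ordinal.{u})) := by
    rw [Cardinal.mk_Iio_ordinal, Ordinal.card_omega, Cardinal.aleph0_le_lift]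
    exact Cardinal.aleph0_le_aleph 1
  have h1 : #(Iio (ω_ 1 : Ordinal.{u}) × Iio (ω_ 1 : Ordinal.{u})) ≤
      #(Iio (ω_ 1 : Ordinal.{u})) := by
    rw [Cardinal.mk_prod, Cardinal.lift_id, Cardinal.mul_eq_self h0]
  obtain ⟨i⟩ := (Cardinal.le_def _ _).1 h1
  refine ⟨fun ν => if h : ∃ x, (i x).1 = ν then (Classical.choose h).1.1 else 0,
    fun ν => if h : ∃ x, (i x).1 = ν then (Classical.choose h).2.1 else 0, ?_, ?_⟩
  · intro ν _
    by_cases h : ∃ x, (i x).1 = ν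
    · simp only [dif_pos h]
      exact ⟨(Classical.choose h).1.2, (Classical.choose h).2.2⟩
    · simp only [dif_neg h]
      exact ⟨Ordinal.omega_pos 1, Ordinal.omega_pos 1⟩
  · intro ξ hξ ν hν
    have h : ∃ x, (i x).1 = (i (⟨ξ, hξ⟩, ⟨ν, hν⟩)).1 := ⟨_, rfl⟩
    refine ⟨(i (⟨ξ, hξ⟩, ⟨ν, hν⟩)).1, (i (⟨ξ, hξ⟩, ⟨ν, hν⟩)).2, ?_⟩
    have h2 : Classical.choose h = (⟨ξ, hξ⟩, ⟨ν, hν⟩) :=
      i.injective (Subtype.ext (Classical.choose_spec h))
    simp only [dif_pos h, h2]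
    exact ⟨trivial, trivial⟩

/-- The coding theorem. -/
theorem exists_coded (h : MM.{u}) {T : Set Ordinal.{u} → Prop} (hT : PStat T)
    (hT' : PStat fun N => ¬ T N) (A : Set Ordinal.{u}) :
    ∃ (η : Ordinal.{u}) (g : Ordinal.{u} → Ordinal.{u}), Enum (ω_ 1) η g ∧
      ∀ ξ < ω_ 1, Order.IsSuccLimit ξ → (T (g '' Iio ξ) ↔ ξ ∈ A) := by
  classical
  obtain ⟨e, he1, he2⟩ := exists_enum.{u}
  obtain ⟨a, b, hab, hab2⟩ := exists_pairing.{u}
  have hlim : Order.IsSuccLimit (ω_ 1 : Ordinal.{u}) :=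
    Ordinal.one_lt_cof_iff.1 (one_lt_aleph0.trans aleph0_lt_cof_omega1)
  obtain ⟨G, hG⟩ := MM.small h (Cond T A) (Cond.preserves hT hT')
    (fun i => {q : Cond T A | a i < q.len ∧ e (q.fn (a i)) (b i) ∈ q.ran}) (by
      intro i hi p
      obtain ⟨p1, hp1, hp2⟩ : ∃ p1 ≤ p, a i < p1.len := by
        rcases lt_or_ge (a i) p.len with h1 | h1
        · exact ⟨p, le_rfl, h1⟩
        · have h2 : p.len < a i + 1 := Order.lt_add_one_iff.2 h1
          obtain ⟨q, hq1, hq2, -⟩ := Cond.dens hT hT' (a i + 1) (hlim.add_one_lt (hab i hi).1) p h2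
            0 (Ordinal.omega_pos 2)
          refine ⟨q, hq1, ?_⟩
          rw [hq2]
          exact Order.lt_add_one_iff.2 le_rfl
      obtain ⟨q, hq1, hq2, hq3⟩ := Cond.exists_succ p1 (he1 _ (p1.isCond.bdd _ hp2) (b i))
      have h3 : p1.len < q.len := by
        rw [hq2]
        exact Order.lt_add_one_iff.2 le_rfl
      refine ⟨q, hq1.trans hp1, hp2.trans h3, ?_⟩
      rw [(Cond.le_def.1 hq1).2 (a i) hp2]
      exact ⟨p1.len, h3, hq3⟩)
  have hex : ∀ ξ < ω_ 1, ∃ q ∈ G, ξ < q.len := by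
    intro ξ hξ
    obtain ⟨i, hi, h1, -⟩ := hab2 ξ hξ 0 (Ordinal.omega_pos 1)
    obtain ⟨q, hq, h2⟩ := hG.meets i hi
    exact ⟨q, hq, h1 ▸ h2.1⟩
  let g : Ordinal.{u} → Ordinal.{u} := fun ξ =>
    if h : ∃ q ∈ G, ξ < q.len then (Classical.choose h).fn ξ else 0
  have hg : ∀ q ∈ G, ∀ ξ < q.len, g ξ = q.fn ξ := by
    intro q hq ξ hξ
    have h1 : ∃ q ∈ G, ξ < q.len := ⟨q, hq, hξ⟩
    have h2 : g ξ = (Classical.choose h1).fn ξ := dif_pos h1
    obtain ⟨h3, h4⟩ := Classical.choose_spec h1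
    obtain ⟨r, _, hr1, hr2⟩ := hG.dir _ h3 q hq
    rw [h2, ← (Cond.le_def.1 hr1).2 ξ h4, ← (Cond.le_def.1 hr2).2 ξ hξ]
  have hg2 : ∀ ξ < ω_ 1, g ξ < ω_ 2 := by
    intro ξ hξ
    obtain ⟨q, hq, h1⟩ := hex ξ hξ
    rw [hg q hq ξ h1]
    exact q.isCond.bdd ξ h1
  have hη : sInf {η | ∀ ξ < ω_ 1, g ξ < η} ∈ {η | ∀ ξ < ω_ 1, g ξ < η} :=
    csInf_mem ⟨ω_ 2, hg2⟩
  refine ⟨sInf {η | ∀ ξ < ω_ 1, g ξ < η}, g, ⟨hη, ?_⟩, ?_⟩
  · intro ν hν
    have h1 : ¬ ∀ ξ < ω_ 1, g ξ < ν := fun h2 =>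
      absurd (csInf_le' (show ν ∈ {η | ∀ ξ < ω_ 1, g ξ < η} from h2)) (not_le.2 hν)
    push Not at h1
    obtain ⟨ξ, hξ, h2⟩ := h1
    rcases h2.lt_or_eq with h3 | h3
    · obtain ⟨ν', hν', h4⟩ := he2 (g ξ) (hg2 ξ hξ) ν h3
      obtain ⟨i, hi, h5, h6⟩ := hab2 ξ hξ ν' hν'
      obtain ⟨q, hq, h7, h8⟩ := hG.meets i hi
      rw [h5] at h7 h8
      rw [h6, ← hg q hq ξ h7, h4] at h8
      obtain ⟨ζ, hζ, h9⟩ := h8
      refine ⟨ζ, lt_trans hζ q.isCond.lt, ?_⟩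
      rw [hg q hq ζ hζ, h9]
    · exact ⟨ξ, hξ, h3.symm⟩
  · intro ξ hξ hl
    obtain ⟨q, hq, h1⟩ := hex ξ hξ
    have h2 : g '' Iio ξ = q.fn '' Iio ξ :=
      Set.image_congr fun ζ hζ => hg q hq ζ (lt_trans hζ h1)
    rw [h2]
    exact q.isCond.pat ξ h1.le hl

end Pool.Agent.Helper97.FP
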