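import Pool.Agent.Helper97.FP.Fo
import Pool.Agent.Helper56.MW.A4

/-!
# Closures of sets of ordinals
-/

open FirstOrder FirstOrder.Language Ordinal Cardinal Set Helper23.Pcf

universe u v

namespace Pool.Agent.Helper97.FP

open Pool.Agent.Helper56.MW (aleph0_lt_cof_omega1 club_closure)

/-- A set of fewer than `cof o` ordinals below the limit `o` is bounded. -/
theorem bdd_of_card {o : Ordinal.{u}} (ho : Order.IsSuccLimit o) {s : Set Ordinal.{u}}
    (hs : ∀ x ∈ s, x < o) (hc : #s < Cardinal.lift.{u + 1} o.cof) : ∃ b < o, ∀ x ∈ s, x < b := by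
  have hbdd : BddAbove s := ⟨o, fun x hx => (hs x hx).le⟩
  have h1 : sSup s < o := by
    refine Ordinal.sSup_lt_of_lt_cof ?_ hs
    rw [← Ordinal.lift_cof]
    exact hc
  exact ⟨sSup s + 1, ho.add_one_lt h1, fun x hx => Order.lt_add_one_iff.2 (le_csSup hbdd hx)⟩

theorem cof_omega2 : (ω_ 2 : Ordinal.{u}).cof = ℵ_ 2 := by
  have h : (ℵ_ 2 : Cardinal.{u}).IsRegular := by
    have := Cardinal.isRegular_aleph_add_one (1 : Ordinal.{u})
    rwa [one_add_one_eq_two] at this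
  rw [← Cardinal.ord_aleph, h.cof_ord]

theorem cof_omega1 : (ω_ 1 : Ordinal.{u}).cof = ℵ_ 1 := by
  rw [← Cardinal.ord_aleph, Cardinal.isRegular_aleph_one.cof_ord]

theorem aleph0_lt_cof_omega2 : ℵ₀ < (ω_ 2 : Ordinal.{u}).cof := by
  rw [cof_omega2]
  exact Cardinal.aleph0_lt_aleph_one.trans (Cardinal.aleph_lt_aleph.2 (by norm_num))

theorem bdd_of_countable {o : Ordinal.{u}} (ho : ℵ₀ < o.cof) {s : Set Ordinal.{u}}
    (hs : ∀ x ∈ s, x < o) (hc : s.Countable) : ∃ b < o, ∀ x ∈ s, x < b := by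
  refine bdd_of_card (Ordinal.one_lt_cof_iff.1 (one_lt_aleph0.trans ho)) hs ?_
  refine lt_of_le_of_lt (Cardinal.le_aleph0_iff_set_countable.2 hc) ?_
  rw [← Cardinal.lift_aleph0.{u + 1, u}]
  exact Cardinal.lift_lt.2 ho

section

variable (K : List Ordinal.{u} → Set Ordinal.{u})

/-- The steps of the closure. -/
def it (X : Set Ordinal.{u}) : ℕ → Set Ordinal.{u}
  | 0 => X
  | n + 1 => it X n ∪ {x | ∃ s : List Ordinal.{u}, (∀ y ∈ s, y ∈ it X n) ∧ x ∈ K s}

/-- The closure of `X` under `K`. -/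
def cl (X : Set Ordinal.{u}) : Set Ordinal.{u} := ⋃ n, it K X n

variable {K} {X Y : Set Ordinal.{u}}

theorem subset_cl : X ⊆ cl K X := Set.subset_iUnion (it K X) 0

theorem it_mono {m n : ℕ} (h : m ≤ n) : it K X m ⊆ it K X n := by
  induction n, h using Nat.le_induction with
  | base => exact Set.Subset.refl _
  | succ n _ ih => exact ih.trans Set.subset_union_left

theorem list_it : ∀ s : List Ordinal.{u}, (∀ y ∈ s, y ∈ cl K X) → ∃ n, ∀ y ∈ s, y ∈ it K X n := by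
  intro s
  induction s with
  | nil => exact fun _ => ⟨0, fun y hy => absurd hy (by simp)⟩
  | cons a s ih =>
    intro h
    obtain ⟨n, hn⟩ := ih fun y hy => h y (List.mem_cons_of_mem _ hy)
    obtain ⟨m, hm⟩ := Set.mem_iUnion.1 (h a List.mem_cons_self)
    refine ⟨max m n, fun y hy => ?_⟩
    rcases List.mem_cons.1 hy with h1 | h1
    · rw [h1]
      exact it_mono (le_max_left _ _) hm
    · exact it_mono (le_max_right _ _) (hn y h1)

theorem cls_cl : Cls K (cl K X) := by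
  intro s hs x hx
  obtain ⟨n, hn⟩ := list_it s hs
  exact Set.mem_iUnion.2 ⟨n + 1, Or.inr ⟨s, hn, hx⟩⟩

theorem cl_min {N : Set Ordinal.{u}} (hX : X ⊆ N) (hN : Cls K N) : cl K X ⊆ N := by
  refine Set.iUnion_subset fun n => ?_
  induction n with
  | zero => exact hX
  | succ n ih =>
    refine Set.union_subset ih ?_
    rintro x ⟨s, hs, hx⟩
    exact hN s (fun y hy => ih (hs y hy)) hx

theorem cl_mono (h : X ⊆ Y) : cl K X ⊆ cl K Y := cl_min (h.trans subset_cl) cls_cl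

theorem lists_countable {A : Set Ordinal.{u}} (hA : A.Countable) :
    {s : List Ordinal.{u} | ∀ y ∈ s, y ∈ A}.Countable := by
  have : Countable A := hA.to_subtype
  have h : {s : List Ordinal.{u} | ∀ y ∈ s, y ∈ A} ⊆ range (fun t : List A => t.map Subtype.val) := by
    intro s hs
    exact ⟨s.attach.map fun y => ⟨y.1, hs y.1 y.2⟩, by simp⟩
  exact (Set.countable_range _).mono h

theorem cl_countable (hK : ∀ s, (K s).Countable) (hX : X.Countable) : (cl K X).Countable := by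
  refine Set.countable_iUnion fun n => ?_
  induction n with
  | zero => exact hX
  | succ n ih =>
    refine ih.union ?_
    have h : {x | ∃ s : List Ordinal.{u}, (∀ y ∈ s, y ∈ it K X n) ∧ x ∈ K s} =
        ⋃ s ∈ {s : List Ordinal.{u} | ∀ y ∈ s, y ∈ it K X n}, K s := by
      ext x
      simp only [Set.mem_iUnion, exists_prop]
      rfl
    rw [h]
    exact (lists_countable ih).biUnion fun s _ => hK s

/-- The closure is finitary. -/
theorem cl_directed {ι : Type v} [Nonempty ι] {X : ι → Set Ordinal.{u}}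
    (hX : ∀ i j, ∃ k, X i ⊆ X k ∧ X j ⊆ X k) : cl K (⋃ i, X i) = ⋃ i, cl K (X i) := by
  apply Set.Subset.antisymm
  · refine cl_min ?_ ?_
    · exact Set.iUnion_mono fun i => subset_cl
    · intro s hs x hx
      have key : ∀ t : List Ordinal.{u}, (∀ y ∈ t, y ∈ ⋃ i, cl K (X i)) →
          ∃ i, ∀ y ∈ t, y ∈ cl K (X i) := by
        intro t
        induction t with
        | nil => exact fun _ => ⟨Classical.arbitrary ι, fun y hy => absurd hy (by simp)⟩
        | cons a t ih =>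
          intro h
          obtain ⟨i, hi⟩ := ih fun y hy => h y (List.mem_cons_of_mem _ hy)
          obtain ⟨j, hj⟩ := Set.mem_iUnion.1 (h a List.mem_cons_self)
          obtain ⟨k, hk1, hk2⟩ := hX i j
          refine ⟨k, fun y hy => ?_⟩
          rcases List.mem_cons.1 hy with h1 | h1
          · rw [h1]
            exact cl_mono hk2 hj
          · exact cl_mono hk1 (hi y h1)
      obtain ⟨i, hi⟩ := key s hs
      exact Set.mem_iUnion.2 ⟨i, cls_cl s hi hx⟩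
  · exact Set.iUnion_subset fun i => cl_mono (Set.subset_iUnion X i)

end

private theorem Cl_card (x : Ordinal.{u}) (hx : x < ω_ 1) : x.card < (ω_ 1 : Ordinal.{u}).cof := by
  rw [← Cardinal.ord_aleph] at hx ⊢
  rw [Cardinal.isRegular_aleph_one.cof_ord]
  exact Cardinal.lt_ord.1 hx

private theorem Cl_seg (a : Ordinal.{u}) (ha : a < ω_ 1) :
    ClubIn {δ : Ordinal.{u} | a < δ} (ω_ 1) := by
  have hlim : Order.IsSuccLimit (ω_ 1 : Ordinal.{u}) :=
    Ordinal.one_lt_cof_iff.1 (one_lt_aleph0.trans aleph0_lt_cof_omega1)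
  refine ⟨fun x hx => ⟨Order.succ (max a x), ?_, ?_, hlim.succ_lt (max_lt ha hx)⟩, ?_⟩
  · exact lt_of_le_of_lt (le_max_left a x) (Order.lt_succ (max a x))
  · exact lt_of_le_of_lt (le_max_right a x) (Order.lt_succ (max a x))
  · intro δ _ hδ0 hu
    obtain ⟨y, hy, _, hy2⟩ := hu 0 hδ0
    exact lt_trans hy hy2

/-- For club many `δ` the closure of `δ ∪ c` has trace `δ`. -/
theorem club_trace {K : List Ordinal.{u} → Set Ordinal.{u}} (hK : ∀ s, (K s).Countable)
    {c : Set Ordinal.{u}} (hc : c.Countable) : ∃ C, ClubIn C (ω_ 1) ∧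
      ∀ δ ∈ C, δ < ω_ 1 → ∀ ξ ∈ cl K (Iio δ ∪ c), ξ < ω_ 1 → ξ < δ := by
  have hb : ∀ ζ : Ordinal.{u}, ∃ b, ζ < ω_ 1 →
      b < ω_ 1 ∧ ∀ ξ ∈ cl K (Iio ζ ∪ c), ξ < ω_ 1 → ξ < b := by
    intro ζ
    by_cases hζ : ζ < ω_ 1
    · obtain ⟨b, hb1, hb2⟩ := bdd_of_countable (aleph0_lt_cof_omega1.{u})
        (s := cl K (Iio ζ ∪ c) ∩ Iio (ω_ 1)) (fun x hx => hx.2)
        ((cl_countable hK ((iio_countable hζ).union hc)).mono Set.inter_subset_left)
      exact ⟨b, fun _ => ⟨hb1, fun ξ h1 h2 => hb2 ξ ⟨h1, h2⟩⟩⟩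
    · exact ⟨0, fun h => absurd h hζ⟩
  choose b hb using hb
  refine ⟨_, club_inter aleph0_lt_cof_omega1 (club_limits aleph0_lt_cof_omega1)
    (club_diag aleph0_lt_cof_omega1 Cl_card (fun ζ => {δ : Ordinal.{u} | b ζ < δ})
      (fun ζ hζ => Cl_seg (b ζ) (hb ζ hζ).1)), ?_⟩
  rintro δ ⟨hlim, hδ⟩ hδ1 ξ hξ hξ1
  have hlim : Order.IsSuccLimit δ := hlim
  have h1 : Iio δ ∪ c = ⋃ ζ : Iio δ, (Iio ζ.1 ∪ c) := by
    ext x
    constructor
    · rintro (h | h)
      · exact Set.mem_iUnion.2 ⟨⟨x + 1, hlim.add_one_lt h⟩,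
          Or.inl (Set.mem_Iio.2 (Order.lt_add_one_iff.2 le_rfl))⟩
      · exact Set.mem_iUnion.2 ⟨⟨0, hlim.bot_lt⟩, Or.inr h⟩
    · intro h
      obtain ⟨⟨ζ, hζ⟩, h | h⟩ := Set.mem_iUnion.1 h
      · exact Or.inl (Set.mem_Iio.2 (lt_trans (Set.mem_Iio.1 h) hζ))
      · exact Or.inr h
  have : Nonempty (Iio δ) := ⟨⟨0, hlim.bot_lt⟩⟩
  rw [h1, cl_directed (X := fun ζ : Iio δ => Iio ζ.1 ∪ c) (fun i j => ?_)] at hξ
  · obtain ⟨⟨ζ, hζ⟩, h⟩ := Set.mem_iUnion.1 hξ
    exact ((hb ζ (lt_trans hζ hδ1)).2 ξ h hξ1).trans (hδ ζ hζ)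
  · rcases le_total i j with h | h
    · exact ⟨j, Set.union_subset_union_left _ (Set.Iio_subset_Iio h), Set.Subset.refl _⟩
    · exact ⟨i, Set.Subset.refl _, Set.union_subset_union_left _ (Set.Iio_subset_Iio h)⟩

/-- For club many `γ < ω₂` the set `γ` is closed. -/
theorem club_closed {K : List Ordinal.{u} → Set Ordinal.{u}} (hK : Adm K) :
    ∃ C, ClubIn C (ω_ 2) ∧ ∀ γ ∈ C, γ < ω_ 2 → Cls K (Iio γ) := by
  have hb : ∀ s, ∃ b < ω_ 2, ∀ x ∈ K s, x < b := fun s =>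
    bdd_of_countable aleph0_lt_cof_omega2 (fun x hx => (hK s).2 hx) (hK s).1
  choose b hb1 hb2 using hb
  have h : (ℵ_ 2 : Cardinal.{u}).IsRegular := by
    have := Cardinal.isRegular_aleph_add_one (1 : Ordinal.{u})
    rwa [one_add_one_eq_two] at this
  have h0 : ℵ₀ < (ℵ_ 2 : Cardinal.{u}) :=
    Cardinal.aleph0_lt_aleph_one.trans (Cardinal.aleph_lt_aleph.2 (by norm_num))
  have hI : #PUnit.{u + 1} < (ℵ_ 2 : Cardinal.{u}) := by
    rw [Cardinal.mk_punit]
    exact Cardinal.one_lt_aleph0.trans h0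
  have hC := club_closure h h0 (I := PUnit.{u + 1}) hI (fun l => b (l.map Prod.snd))
    (fun l _ => by
      rw [Cardinal.ord_aleph]
      exact hb1 _)
  rw [Cardinal.ord_aleph] at hC
  refine ⟨_, hC, fun γ hγ _ s hs x hx => ?_⟩
  have h2 := hγ (s.map fun y => (PUnit.unit, y)) (by
    intro y hy
    obtain ⟨z, hz, rfl⟩ := List.mem_map.1 hy
    exact hs z hz)
  rw [List.map_map] at h2
  have h3 : (s.map (Prod.snd ∘ fun y => (PUnit.unit, y))) = s := by
    simp [Function.comp_def]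
  rw [h3] at h2
  exact (hb2 s x hx).trans h2

end Pool.Agent.Helper97.FP

/-!
# Few countable sets: the predicate is projectively stationary
-/

namespace Pool.Agent.Helper97.FP

open Pool.Agent.Helper56.MW (aleph0_lt_cof_omega1 stat_cof)

/-- The set `N` is cofinal in an ordinal `γ` and contains one of the sets in `F γ`. -/
def TF (F : Ordinal.{u} → Set (Set Ordinal.{u})) (N : Set Ordinal.{u}) : Prop :=
  ∃ γ, Cof N γ ∧ ∃ c ∈ F γ, c ⊆ N

theorem pstat_of_few {F : Ordinal.{u} → Set (Set Ordinal.{u})}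
    (F1 : ∀ γ, ∀ c ∈ F γ, c.Countable ∧ Cof c γ)
    (F3 : StatIn {γ | (F γ).Nonempty} (ω_ 2)) :
    PStat (TF F) := by
  intro K hK E hE
  obtain ⟨C', hC', hcl⟩ := club_closed hK
  have h12 : (ω_ 1 : Ordinal.{u}) < ω_ 2 := Ordinal.omega_lt_omega.2 (by norm_num)
  have hlim2 : Order.IsSuccLimit (ω_ 2 : Ordinal.{u}) :=
    Ordinal.one_lt_cof_iff.1 (one_lt_aleph0.trans aleph0_lt_cof_omega2)
  obtain ⟨γ, hγ0, ⟨hγ2, hγ3⟩, hγ4⟩ := F3 _
    (club_inter aleph0_lt_cof_omega2 hC' (club_Ioi hlim2 h12))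
  have hγ3 : ω_ 1 < γ := hγ3
  obtain ⟨c, hc⟩ := hγ0
  obtain ⟨hc1, hc2, hc3⟩ := F1 γ c hc
  obtain ⟨D, hD, hD2⟩ := club_trace (fun s => (hK s).1) hc1
  obtain ⟨δ, hδE, hδD, hδ⟩ := hE D hD
  have hsub : cl K (Iio δ ∪ c) ⊆ Iio γ := by
    refine cl_min (Set.union_subset ?_ fun ν hν => hc2 ν hν) (hcl γ hγ2 hγ4)
    exact fun x hx => lt_trans (lt_trans hx hδ) hγ3
  refine ⟨δ, cl K (Iio δ ∪ c), ⟨?_, ?_, cls_cl, hδE, hδ, ?_⟩, γ, ⟨fun ν hν => hsub hν, ?_⟩, c, hc,
    ?_⟩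
  · exact cl_countable (fun s => (hK s).1) ((iio_countable hδ).union hc1)
  · exact fun x hx => lt_trans (hsub hx) hγ4
  · exact fun ξ hξ => ⟨fun h => hD2 δ hδD hδ ξ h hξ, fun h => subset_cl (Or.inl h)⟩
  · intro β hβ
    obtain ⟨ν, hν, h⟩ := hc3 β hβ
    exact ⟨ν, subset_cl (Or.inr hν), h⟩
  · exact fun x hx => subset_cl (Or.inr hx)

/-! ### The complement -/

/-- `s` is losing with rank at most `ρ`. -/
inductive BadR (Tr : List Ordinal.{u} → Prop) : Ordinal.{u} → List Ordinal.{u} → Prop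
  | out (ρ : Ordinal.{u}) (s : List Ordinal.{u}) : ¬ Tr s → BadR Tr ρ s
  | lim (ρ : Ordinal.{u}) (s : List Ordinal.{u}) (b : Ordinal.{u}) (r : Ordinal.{u} → Ordinal.{u}) :
      b < ω_ 2 → (∀ β, b ≤ β → β < ω_ 2 → r β < ρ) →
      (∀ β, b ≤ β → β < ω_ 2 → BadR Tr (r β) (β :: s)) → BadR Tr ρ s

/-- `s` is losing. -/
def Bad (Tr : List Ordinal.{u} → Prop) (s : List Ordinal.{u}) : Prop := ∃ ρ, BadR Tr ρ s

theorem tr_of_not_bad {Tr : List Ordinal.{u} → Prop} {s : List Ordinal.{u}} (h : ¬ Bad Tr s) :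
    Tr s := by
  by_contra h1
  exact h ⟨0, BadR.out 0 s h1⟩

theorem ext_of_not_bad {Tr : List Ordinal.{u} → Prop} {s : List Ordinal.{u}} (h : ¬ Bad Tr s)
    {b : Ordinal.{u}} (hb : b < ω_ 2) : ∃ β, b ≤ β ∧ β < ω_ 2 ∧ ¬ Bad Tr (β :: s) := by
  by_contra hcon
  push Not at hcon
  have h1 : ∀ β, ∃ ρ, b ≤ β → β < ω_ 2 → BadR Tr ρ (β :: s) := by
    intro β
    by_cases h2 : b ≤ β ∧ β < ω_ 2
    · obtain ⟨ρ, hρ⟩ := hcon β h2.1 h2.2
      exact ⟨ρ, fun _ _ => hρ⟩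
    · exact ⟨0, fun h3 h4 => absurd ⟨h3, h4⟩ h2⟩
  choose r hr using h1
  have h2 : BddAbove (r '' Iio (ω_ 2)) := Ordinal.bddAbove_of_small
  refine h ⟨sSup (r '' Iio (ω_ 2)) + 1, BadR.lim _ s b r hb (fun β _ hβ => ?_)
    (fun β h3 h4 => hr β h3 h4)⟩
  exact Order.lt_add_one_iff.2 (le_csSup h2 ⟨β, hβ, rfl⟩)

theorem bad_step {Tr : List Ordinal.{u} → Prop} {s : List Ordinal.{u}} (h : Bad Tr s)
    (ht : Tr s) : ∃ b < ω_ 2, ∀ β, b ≤ β → β < ω_ 2 → Bad Tr (β :: s) ∧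
      sInf {ρ | BadR Tr ρ (β :: s)} < sInf {ρ | BadR Tr ρ s} := by
  have h1 : BadR Tr (sInf {ρ | BadR Tr ρ s}) s := csInf_mem (s := {ρ | BadR Tr ρ s}) h
  cases h1 with
  | out _ _ h2 => exact absurd ht h2
  | lim _ _ b r hb h2 h3 =>
    refine ⟨b, hb, fun β h4 h5 => ⟨⟨r β, h3 β h4 h5⟩, lt_of_le_of_lt ?_ (h2 β h4 h5)⟩⟩
    exact csInf_le' (show r β ∈ {ρ | BadR Tr ρ (β :: s)} from h3 β h4 h5)

/-- The trace of the closure of `δ` and the list `s` is `δ`. -/
def Trc (K : List Ordinal.{u} → Set Ordinal.{u}) (δ : Ordinal.{u}) (s : List Ordinal.{u}) : Prop :=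
  ∀ ξ ∈ cl K (Iio δ ∪ {y | y ∈ s}), ξ < ω_ 1 → ξ < δ

/-- For some `δ` in a stationary set the empty list is not losing. -/
theorem exists_not_bad {K : List Ordinal.{u} → Set Ordinal.{u}} (hK : ∀ s, (K s).Countable)
    {E : Set Ordinal.{u}} (hE : StatIn E (ω_ 1)) : ∃ δ ∈ E, δ < ω_ 1 ∧ ¬ Bad (Trc K δ) [] := by
  classical
  by_contra hcon
  push Not at hcon
  have hb : ∀ (δ : Ordinal.{u}) (s : List Ordinal.{u}), ∃ b < ω_ 2, Bad (Trc K δ) s → Trc K δ s →
      ∀ β, b ≤ β → β < ω_ 2 → Bad (Trc K δ) (β :: s) ∧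
        sInf {ρ | BadR (Trc K δ) ρ (β :: s)} < sInf {ρ | BadR (Trc K δ) ρ s} := by
    intro δ s
    by_cases h : Bad (Trc K δ) s ∧ Trc K δ s
    · obtain ⟨b, hb, h1⟩ := bad_step h.1 h.2
      exact ⟨b, hb, fun _ _ => h1⟩
    · exact ⟨0, Ordinal.omega_pos 2, fun h1 h2 => absurd ⟨h1, h2⟩ h⟩
  choose b hb1 hb2 using hb
  have hB : ∀ s : List Ordinal.{u}, ∃ B < ω_ 2, ∀ δ < ω_ 1, b δ s < B := by
    intro s
    obtain ⟨B, hB1, hB2⟩ := bdd_of_card (o := ω_ 2)
      (Ordinal.one_lt_cof_iff.1 (one_lt_aleph0.trans aleph0_lt_cof_omega2))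
      (s := (fun δ => b δ s) '' Iio (ω_ 1)) (by
        rintro _ ⟨δ, _, rfl⟩
        exact hb1 δ s) (by
        refine lt_of_le_of_lt Cardinal.mk_image_le ?_
        rw [Cardinal.mk_Iio_ordinal, Ordinal.card_omega, cof_omega2, Cardinal.lift_lt]
        exact Cardinal.aleph_lt_aleph.2 (by norm_num))
    exact ⟨B, hB1, fun δ hδ => hB2 _ ⟨δ, hδ, rfl⟩⟩
  choose B hB1 hB2 using hB
  let S : ℕ → List Ordinal.{u} := fun n => Nat.rec [] (fun _ l => B l :: l) n
  have hS0 : S 0 = [] := rfl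
  have hSs : ∀ n, S (n + 1) = B (S n) :: S n := fun n => rfl
  have hR : ∀ n, {y | y ∈ S n} ⊆ range (fun n => B (S n)) := by
    intro n
    induction n with
    | zero =>
      intro y hy
      exact absurd hy (by simp [hS0])
    | succ n ih =>
      intro y hy
      have hy : y ∈ S (n + 1) := hy
      rw [hSs] at hy
      rcases List.mem_cons.1 hy with h | h
      · exact ⟨n, h.symm⟩
      · exact ih h
  obtain ⟨C, hC, hCt⟩ := club_trace hK (Set.countable_range (fun n => B (S n)))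
  obtain ⟨δ, hδE, hδC, hδ⟩ := hE C hC
  have hT : ∀ n, Trc K δ (S n) := by
    intro n ξ hξ hξ1
    refine hCt δ hδC hδ ξ (cl_mono ?_ hξ) hξ1
    exact Set.union_subset_union_right _ (hR n)
  have hBad : ∀ n, Bad (Trc K δ) (S n) := by
    intro n
    induction n with
    | zero => exact hcon δ hδE hδ
    | succ n ih =>
      rw [hSs]
      exact (hb2 δ (S n) ih (hT n) _ (hB2 (S n) δ hδ).le (hB1 _)).1
  have hdec : ∀ n, sInf {ρ | BadR (Trc K δ) ρ (S (n + 1))} < sInf {ρ | BadR (Trc K δ) ρ (S n)} := by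
    intro n
    rw [hSs]
    exact (hb2 δ (S n) (hBad n) (hT n) _ (hB2 (S n) δ hδ).le (hB1 _)).2
  exact not_strictAnti_of_wellFoundedLT
    (fun n => sInf {ρ | BadR (Trc K δ) ρ (S n)}) (strictAnti_nat_of_succ_lt hdec)

/-! ### Splitting -/

/-- The enumerations and their inverses, added to `K`. -/
def addE (K : List Ordinal.{u} → Set Ordinal.{u}) (e i : Ordinal.{u} → Ordinal.{u} → Ordinal.{u})
    (s : List Ordinal.{u}) : Set Ordinal.{u} :=
  K s ∪ ((image2 e {y | y ∈ s} {y | y ∈ s} ∪ image2 i {y | y ∈ s} {y | y ∈ s}) ∩ Iio (ω_ 2))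

theorem adm_addE {K : List Ordinal.{u} → Set Ordinal.{u}} (hK : Adm K)
    (e i : Ordinal.{u} → Ordinal.{u} → Ordinal.{u}) : Adm (addE K e i) := by
  intro s
  refine ⟨(hK s).1.union ?_, Set.union_subset (hK s).2 Set.inter_subset_right⟩
  refine Set.Countable.mono Set.inter_subset_left ?_
  have hs : {y | y ∈ s}.Finite := s.finite_toSet
  exact ((hs.image2 e hs).union (hs.image2 i hs)).countable

/-- Unbounded sets of ordinals below `ω₂` contain pairs which are far from each other. -/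
theorem exists_pair {e : Ordinal.{u} → Ordinal.{u}  → Ordinal.{u}} {δ : Ordinal.{u}} (hδ : δ < ω_ 1)
    {S : Set Ordinal.{u}} (hS : ∀ β ∈ S, β < ω_ 2) (hu : ∀ b < ω_ 2, ∃ β ∈ S, b ≤ β) :
    ∃ β₀ ∈ S, ∃ β₁ ∈ S, β₀ < β₁ ∧ ∀ ν < δ, e β₁ ν ≠ β₀ := by
  have hlim2 : Order.IsSuccLimit (ω_ 2 : Ordinal.{u}) :=
    Ordinal.one_lt_cof_iff.1 (one_lt_aleph0.trans aleph0_lt_cof_omega2)
  by_contra hcon
  push Not at hcon
  have h1 : Cardinal.lift.{u + 1} (ℵ_ 2 : Cardinal.{u}) ≤ #S := by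
    by_contra h2
    rw [not_le, ← cof_omega2] at h2
    obtain ⟨b, hb, hb2⟩ := bdd_of_card hlim2 hS h2
    obtain ⟨β, hβ, hβ2⟩ := hu b hb
    exact absurd (hb2 β hβ) (not_lt.2 hβ2)
  have h12 : Cardinal.lift.{u + 1} (ℵ_ 1 : Cardinal.{u}) < Cardinal.lift.{u + 1} (ℵ_ 2) :=
    Cardinal.lift_lt.2 (Cardinal.aleph_lt_aleph.2 (by norm_num))
  obtain ⟨p, hp, hp2⟩ := Cardinal.le_mk_iff_exists_subset.1 (h12.le.trans h1)
  obtain ⟨b, hb, hb2⟩ := bdd_of_card hlim2 (s := p) (fun x hx => hS x (hp hx)) (by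
    rw [hp2, cof_omega2]
    exact h12)
  obtain ⟨β₁, hβ, hβ2⟩ := hu b hb
  have h3 : p ⊆ e β₁ '' Iio δ := by
    intro x hx
    obtain ⟨ν, hν, h⟩ := hcon x (hp hx) β₁ hβ ((hb2 x hx).trans_le hβ2)
    exact ⟨ν, hν, h⟩
  have h4 : p.Countable := ((iio_countable hδ).image _).mono h3
  have h5 := Cardinal.le_aleph0_iff_set_countable.2 h4
  rw [hp2, Cardinal.lift_le_aleph0] at h5
  exact absurd h5 (not_le.2 Cardinal.aleph0_lt_aleph_one)

/-- Cofinal subsets determine the ordinal. -/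
theorem Cof.unique {N : Set Ordinal.{u}} {γ γ' : Ordinal.{u}} (h : Cof N γ) (h' : Cof N γ') :
    γ = γ' := by
  rcases lt_trichotomy γ γ' with h1 | h1 | h1
  · obtain ⟨ν, hν, h2⟩ := h'.2 γ h1
    exact absurd (h.1 ν hν) (not_lt.2 h2.le)
  · exact h1
  · obtain ⟨ν, hν, h2⟩ := h.2 γ' h1
    exact absurd (h'.1 ν hν) (not_lt.2 h2.le)

theorem pstat_not_of_few {F : Ordinal.{u} → Set (Set Ordinal.{u})}
    (F1 : ∀ γ, ∀ c ∈ F γ, c.Countable ∧ Cof c γ)
    (F2 : ∀ γ, ¬ ∃ i : (ℕ → Bool) → Set Ordinal.{u}, Function.Injective i ∧ ∀ f, i f ∈ F γ) :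
    PStat (fun N => ¬ TF F N) := by
  classical
  intro K₀ hK₀ E hE
  by_contra hcon
  push Not at hcon
  obtain ⟨e, he1, he2⟩ := exists_enum.{u}
  have hi : ∀ β α : Ordinal.{u}, ∃ ν, β < ω_ 2 → α < β → ν < ω_ 1 ∧ e β ν = α := by
    intro β α
    by_cases h : β < ω_ 2 ∧ α < β
    · obtain ⟨ν, h1, h2⟩ := he2 β h.1 α h.2
      exact ⟨ν, fun _ _ => ⟨h1, h2⟩⟩
    · exact ⟨0, fun h1 h2 => absurd ⟨h1, h2⟩ h⟩
  choose inv hinv using hi
  set K := addE K₀ e inv with hKdef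
  have hK : Adm K := adm_addE hK₀ e inv
  have h12 : (ω_ 1 : Ordinal.{u}) < ω_ 2 := Ordinal.omega_lt_omega.2 (by norm_num)
  have hlim2 : Order.IsSuccLimit (ω_ 2 : Ordinal.{u}) :=
    Ordinal.one_lt_cof_iff.1 (one_lt_aleph0.trans aleph0_lt_cof_omega2)
  -- the two properties of closed sets
  have hA : ∀ δ N, Gd K E δ N → ∀ β ∈ N, ∀ ν < δ, e β ν ∈ N := by
    intro δ N hN β hβ ν hν
    have hν1 : ν < ω_ 1 := hν.trans hN.lt
    refine hN.cls [β, ν] ?_ (Or.inr ⟨Or.inl ⟨β, by simp, ν, by simp, rfl⟩, he1 β (hN.sub hβ) ν⟩)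
    intro y hy
    rcases List.mem_cons.1 hy with h | h
    · rw [h]
      exact hβ
    · rw [List.mem_singleton.1 h]
      exact (hN.tr ν hν1).2 hν
  have hB : ∀ δ N, Gd K E δ N → ∀ β ∈ N, ∀ α ∈ N, α < β → ∃ ν < δ, e β ν = α := by
    intro δ N hN β hβ α hα hαβ
    obtain ⟨h1, h2⟩ := hinv β α (hN.sub hβ) hαβ
    refine ⟨inv β α, (hN.tr _ h1).1 ?_, h2⟩
    refine hN.cls [β, α] ?_ (Or.inr ⟨Or.inr ⟨β, by simp, α, by simp, rfl⟩, h1.trans h12⟩)
    intro y hy
    rcases List.mem_cons.1 hy with h | h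
    · rw [h]
      exact hβ
    · rw [List.mem_singleton.1 h]
      exact hα
  have hco : ∀ δ N M, Gd K E δ N → Gd K E δ M → ∀ x ∈ N, x ∈ M → ∀ β < x, β ∈ N → β ∈ M := by
    intro δ N M hN hM x hx hx' β hβ hβN
    obtain ⟨ν, hν, h⟩ := hB δ N hN x hx β hβN hβ
    rw [← h]
    exact hA δ M hM x hx' ν hν
  -- `T` holds for all closed sets
  have hT : ∀ δ N, Gd K E δ N → TF F N := by
    intro δ N hN
    refine hcon δ N ⟨hN.cnt, hN.sub, fun s hs x hx => hN.cls s hs (Or.inl hx), hN.mem, hN.lt, hN.tr⟩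
  obtain ⟨δ, hδE, hδ, hbad⟩ := exists_not_bad (fun s => (hK s).1) hE
  let W : List Ordinal.{u} → Prop := fun s => (∀ y ∈ s, y < ω_ 2) ∧ ¬ Bad (Trc K δ) s
  have hW0 : W [] := ⟨fun y hy => absurd hy (by simp), hbad⟩
  -- splitting
  have hsp : ∀ s α, ∃ β : Bool → Ordinal.{u}, W s → α < ω_ 2 → (∀ i, α < β i ∧ W (β i :: s)) ∧
      β false < β true ∧ ∀ ν < δ, e (β true) ν ≠ β false := by
    intro s α
    by_cases h : W s ∧ α < ω_ 2
    · obtain ⟨β₀, h0, β₁, h1, h2, h3⟩ := exists_pair (e := e) hδ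
        (S := {β | α < β ∧ W (β :: s)}) (fun β hβ => hβ.2.1 β List.mem_cons_self) (by
          intro b hb
          obtain ⟨β, h4, h5, h6⟩ := ext_of_not_bad h.1.2 (b := max b (α + 1))
            (max_lt hb (hlim2.add_one_lt h.2))
          refine ⟨β, ⟨?_, ?_, h6⟩, (le_max_left _ _).trans h4⟩
          · exact Order.add_one_le_iff.1 ((le_max_right _ _).trans h4)
          · intro y hy
            rcases List.mem_cons.1 hy with h7 | h7
            · rw [h7]
              exact h5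
            · exact h.1.1 y h7)
      refine ⟨fun i => if i then β₁ else β₀, fun _ _ => ⟨?_, ?_, ?_⟩⟩
      · intro i
        cases i
        · exact h0
        · exact h1
      · exact h2
      · exact h3
    · exact ⟨fun _ => 0, fun h1 h2 => absurd ⟨h1, h2⟩ h⟩
  choose c hc using hsp
  -- common bounds
  have hbd : ∀ nd : List Bool → List Ordinal.{u}, ∃ α < ω_ 2, (∀ t, W (nd t)) → ∀ t,
      ∀ x ∈ cl K (Iio δ ∪ {y | y ∈ nd t}), x < α := by
    intro nd
    by_cases h : ∀ t, W (nd t)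
    · obtain ⟨α, h1, h2⟩ := bdd_of_countable aleph0_lt_cof_omega2
        (s := ⋃ t, cl K (Iio δ ∪ {y | y ∈ nd t})) (by
          intro x hx
          obtain ⟨t, ht⟩ := Set.mem_iUnion.1 hx
          refine cl_min (K := K) (N := Iio (ω_ 2)) (Set.union_subset ?_ ?_)
            (fun s _ => (hK s).2) ht
          · exact fun y hy => lt_trans (lt_trans hy hδ) h12
          · exact fun y hy => (h t).1 y hy) (by
          refine Set.countable_iUnion fun t => cl_countable (fun s => (hK s).1) ?_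
          exact (iio_countable hδ).union (nd t).finite_toSet.countable)
      exact ⟨α, h1, fun _ t x hx => h2 x (Set.mem_iUnion.2 ⟨t, hx⟩)⟩
    · exact ⟨0, Ordinal.omega_pos 2, fun h1 => absurd h1 h⟩
  choose bd hbd1 hbd2 using hbd
  let nx : (List Bool → List Ordinal.{u}) × Ordinal.{u} → List Bool → List Ordinal.{u} :=
    fun p t => match t with
      | [] => []
      | i :: t' => c (p.1 t') p.2 i :: p.1 t'
  let lev : ℕ → (List Bool → List Ordinal.{u}) × Ordinal.{u} := fun n =>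
    Nat.rec (fun _ => [], bd fun _ => []) (fun _ p => (nx p, bd (nx p))) n
  have hlev0 : lev 0 = (fun _ => [], bd fun _ => []) := rfl
  have hlevs : ∀ n, lev (n + 1) = (nx (lev n), bd (nx (lev n))) := fun n => rfl
  have hα : ∀ n, (lev n).2 = bd (lev n).1 := by
    intro n
    cases n <;> rfl
  have hα2 : ∀ n, (lev n).2 < ω_ 2 := fun n => by
    rw [hα]
    exact hbd1 _
  have hWn : ∀ n t, W ((lev n).1 t) := by
    intro n
    induction n with
    | zero => exact fun _ => hW0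
    | succ n ih =>
      intro t
      cases t with
      | nil => exact hW0
      | cons i t => exact ((hc _ _ (ih t) (hα2 n)).1 i).2
  have hbound : ∀ n t, ∀ x ∈ cl K (Iio δ ∪ {y | y ∈ (lev n).1 t}), x < (lev n).2 := by
    intro n
    rw [hα]
    exact hbd2 _ (hWn n)
  let L : (ℕ → Bool) → ℕ → List Bool := fun f n => Nat.rec [] (fun n l => f n :: l) n
  have hLs : ∀ f n, L f (n + 1) = f n :: L f n := fun f n => rfl
  let S : (ℕ → Bool) → ℕ → List Ordinal.{u} := fun f n => (lev n).1 (L f n)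
  have hSs : ∀ f n, S f (n + 1) = c (S f n) (lev n).2 (f n) :: S f n := fun f n => rfl
  have hSm : ∀ f, ∀ m n, m ≤ n → {y | y ∈ S f m} ⊆ {y | y ∈ S f n} := by
    intro f m n hmn
    induction n, hmn using Nat.le_induction with
    | base => exact Set.Subset.refl _
    | succ n _ ih =>
      refine ih.trans fun y hy => ?_
      have hy : y ∈ S f n := hy
      show y ∈ S f (n + 1)
      rw [hSs]
      exact List.mem_cons_of_mem _ hy
  let N : (ℕ → Bool) → Set Ordinal.{u} := fun f => ⋃ n, cl K (Iio δ ∪ {y | y ∈ S f n})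
  have hNc : ∀ f n, c (S f n) (lev n).2 (f n) ∈ N f := by
    intro f n
    refine Set.mem_iUnion.2 ⟨n + 1, subset_cl (Or.inr ?_)⟩
    show c (S f n) (lev n).2 (f n) ∈ S f (n + 1)
    rw [hSs]
    exact List.mem_cons_self
  have hNα : ∀ f, ∀ x ∈ N f, ∃ n, x < (lev n).2 := by
    intro f x hx
    obtain ⟨n, hn⟩ := Set.mem_iUnion.1 hx
    exact ⟨n, hbound n _ x hn⟩
  have hGd : ∀ f, Gd K E δ (N f) := by
    intro f
    refine ⟨?_, ?_, ?_, hδE, hδ, ?_⟩
    · refine Set.countable_iUnion fun n => cl_countable (fun s => (hK s).1) ?_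
      exact (iio_countable hδ).union (S f n).finite_toSet.countable
    · intro x hx
      obtain ⟨n, hn⟩ := hNα f x hx
      exact hn.trans (hα2 n)
    · have h1 : N f = cl K (⋃ n, (Iio δ ∪ {y | y ∈ S f n})) := by
        refine (cl_directed (X := fun n => Iio δ ∪ {y | y ∈ S f n}) fun i j => ?_).symm
        exact ⟨max i j, Set.union_subset_union_right _ (hSm f _ _ (le_max_left _ _)),
          Set.union_subset_union_right _ (hSm f _ _ (le_max_right _ _))⟩
      rw [h1]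
      exact cls_cl
    · intro ξ hξ
      constructor
      · intro h
        obtain ⟨n, hn⟩ := Set.mem_iUnion.1 h
        exact tr_of_not_bad (hWn n _).2 ξ hn hξ
      · intro h
        exact Set.mem_iUnion.2 ⟨0, subset_cl (Or.inl h)⟩
  -- the common supremum
  have hbddα : BddAbove (range fun n => (lev n).2) := ⟨ω_ 2, by
    rintro _ ⟨n, rfl⟩
    exact (hα2 n).le⟩
  set γ := sSup (range fun n => (lev n).2) with hγ
  have hCof : ∀ f, Cof (N f) γ := by
    intro f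
    constructor
    · intro x hx
      obtain ⟨n, hn⟩ := hNα f x hx
      exact hn.trans_le (le_csSup hbddα ⟨n, rfl⟩)
    · intro β hβ
      obtain ⟨_, ⟨n, rfl⟩, hn⟩ := exists_lt_of_lt_csSup
        (s := range fun n => (lev n).2) ⟨(lev 0).2, 0, rfl⟩ hβ
      exact ⟨_, hNc f n, hn.trans ((hc _ _ (hWn n _) (hα2 n)).1 (f n)).1⟩
  have hex : ∀ f, ∃ d ∈ F γ, d ⊆ N f := by
    intro f
    obtain ⟨γ', h1, d, hd, hd2⟩ := hT δ (N f) (hGd f)
    rw [(hCof f).unique h1]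
    exact ⟨d, hd, hd2⟩
  choose d hd1 hd2 using hex
  -- two branches which split
  have key : ∀ f g n, (∀ m < n, f m = g m) → f n = false → g n = true → d f ≠ d g := by
    intro f g n hfg hf hg heq
    have hL : L f n = L g n := by
      have : ∀ m ≤ n, L f m = L g m := by
        intro m
        induction m with
        | zero => exact fun _ => rfl
        | succ m ih =>
          intro hm
          rw [hLs, hLs, ih (Nat.le_of_succ_le hm), hfg m hm]
      exact this n le_rfl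
    have hSfg : S f n = S g n := congrArg (lev n).1 hL
    have h1 := hNc f n
    have h2 := hNc g n
    rw [hf] at h1
    rw [hg, ← hSfg] at h2
    obtain ⟨-, h3, h4⟩ := hc (S f n) (lev n).2 (hWn n _) (hα2 n)
    have h5 : c (S f n) (lev n).2 false ∉ N g := by
      intro h6
      obtain ⟨ν, hν, h7⟩ := hB δ (N g) (hGd g) _ h2 _ h6 h3
      exact h4 ν hν h7
    obtain ⟨x, hx, hx2⟩ := (F1 γ (d f) (hd1 f)).2.2 _ ((hCof f).1 _ h1)
    exact h5 (hco δ (N f) (N g) (hGd f) (hGd g) x (hd2 f hx) (hd2 g (heq ▸ hx)) _ hx2 h1)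
  refine F2 γ ⟨d, ?_, hd1⟩
  intro f g hfg
  by_contra hne
  have hex : ∃ n, f n ≠ g n := by
    by_contra h
    push Not at h
    exact hne (funext h)
  have h1 := Nat.find_spec hex
  have h2 : ∀ m < Nat.find hex, f m = g m := fun m hm => by
    by_contra h
    exact Nat.find_min hex hm h
  cases hf : f (Nat.find hex) with
  | false =>
    cases hg : g (Nat.find hex) with
    | false => exact h1 (hf.trans hg.symm)
    | true => exact key f g _ h2 hf hg hfg
  | true =>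
    cases hg : g (Nat.find hex) with
    | false => exact key g f _ (fun m hm => (h2 m hm).symm) hg hf hfg.symm
    | true => exact h1 (hf.trans hg.symm)

end Pool.Agent.Helper97.FP
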